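import Mathlib
import Pool.Agent.H383.PZ.Defs
import Pool.Agent.H383.PZ.K2
import Pool.Agent.H732R2.VorCos

/-!
Task T7 of helper383: the model integral is the smoothed cosine (all `k`).
-/

set_option autoImplicit false

open Filter Topology MeasureTheory Set
open Pool.Agent.H387R2.Vor (mellin_exp one_div_omega omega_re ex cf)
open Pool.Agent.H383.PZ

namespace Pool.Agent.H769R2.PZT7

noncomputable section

/-! ### the measures `mu δ n` -/

lemma un_prob {δ : ℝ} (hδ : 0 < δ) : IsProbabilityMeasure (un δ) := by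
  constructor
  unfold un
  rw [Measure.smul_apply, Measure.restrict_apply MeasurableSet.univ, Set.univ_inter,
    Real.volume_Icc, smul_eq_mul, sub_zero]
  exact ENNReal.inv_mul_cancel (by simpa using hδ) ENNReal.ofReal_ne_top

lemma mu_prob {δ : ℝ} (hδ : 0 < δ) (n : ℕ) : IsProbabilityMeasure (mu δ n) := by
  induction n with
  | zero => unfold mu; infer_instance
  | succ n ih =>
    have := un_prob hδ
    unfold mu
    infer_instance

lemma un_nonneg {δ : ℝ} : ∀ᵐ x ∂(un δ), 0 ≤ x := by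
  unfold un
  apply Measure.ae_smul_measure
  filter_upwards [ae_restrict_mem measurableSet_Icc] with x hx using hx.1

lemma mu_nonneg {δ : ℝ} (hδ : 0 < δ) (n : ℕ) : ∀ᵐ x ∂(mu δ n), 0 ≤ x := by
  induction n with
  | zero =>
    unfold mu
    rw [ae_dirac_eq]
    simp
  | succ n ih =>
    have := un_prob hδ
    have := mu_prob hδ n
    unfold mu Measure.conv
    rw [ae_map_iff (by fun_prop) measurableSet_Ici]
    have h1 : ∀ᵐ p ∂((un δ).prod (mu δ n)), 0 ≤ p.1 :=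
      Measure.quasiMeasurePreserving_fst.ae un_nonneg
    have h2 : ∀ᵐ p ∂((un δ).prod (mu δ n)), 0 ≤ p.2 :=
      Measure.quasiMeasurePreserving_snd.ae ih
    filter_upwards [h1, h2] with p hp1 hp2 using add_nonneg hp1 hp2

lemma charFun_un {δ : ℝ} (hδ : 0 < δ) {y : ℝ} (hy : 0 < y) :
    charFun (un δ) (2 * Real.pi * y) = cf (y * δ) := by
  have hpi := Real.pi_pos
  have hδc : (δ : ℂ) ≠ 0 := by exact_mod_cast hδ.ne'
  have hc : (((2 * Real.pi * y : ℝ) : ℂ) * Complex.I) ≠ 0 := by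
    apply mul_ne_zero _ Complex.I_ne_zero
    exact_mod_cast (by positivity : (2 * Real.pi * y : ℝ) ≠ 0)
  have h1 : ∫ v in (0 : ℝ)..δ, Complex.exp ((((2 * Real.pi * y : ℝ) : ℂ) * Complex.I) * v) =
      δ * cf (y * δ) := by
    rw [integral_exp_mul_complex hc]
    unfold cf ex
    have e1 : (((2 * Real.pi * y : ℝ) : ℂ) * Complex.I) * ((0 : ℝ) : ℂ) = 0 := by simp
    have e2 : (((2 * Real.pi * y : ℝ) : ℂ) * Complex.I) * (δ : ℂ) =
        ((2 * Real.pi * (y * δ) : ℝ) : ℂ) * Complex.I := by push_cast; ring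
    rw [e1, e2, Complex.exp_zero]
    have e3 : ((2 * Real.pi * (y * δ) : ℝ) : ℂ) * Complex.I =
        (δ : ℂ) * (((2 * Real.pi * y : ℝ) : ℂ) * Complex.I) := by push_cast; ring
    have hc2 : (((2 * Real.pi * (y * δ) : ℝ) : ℂ) * Complex.I) ≠ 0 := by
      rw [e3]; exact mul_ne_zero hδc hc
    rw [mul_div_assoc', div_eq_div_iff hc hc2, e3]
    ring
  rw [charFun_apply_real]
  unfold un
  rw [integral_smul_measure, integral_Icc_eq_integral_Ioc, ← intervalIntegral.integral_of_le hδ.le]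
  have h2 : (fun x : ℝ => Complex.exp (((2 * Real.pi * y : ℝ) : ℂ) * (x : ℂ) * Complex.I)) =
      fun v : ℝ => Complex.exp ((((2 * Real.pi * y : ℝ) : ℂ) * Complex.I) * v) := by
    funext v
    congr 1
    ring
  rw [h2, h1, ENNReal.toReal_inv, ENNReal.toReal_ofReal hδ.le, Complex.real_smul]
  push_cast
  field_simp

lemma charFun_mu {δ : ℝ} (hδ : 0 < δ) {y : ℝ} (hy : 0 < y) (n : ℕ) :
    charFun (mu δ n) (2 * Real.pi * y) = cf (y * δ) ^ n := by
  induction n with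
  | zero =>
    unfold mu
    rw [charFun_dirac]
    simp
  | succ n ih =>
    have := un_prob hδ
    have := mu_prob hδ n
    unfold mu
    rw [charFun_conv, charFun_un hδ hy, ih, pow_succ, mul_comm]

/-! ### bounds of the Gamma function on vertical lines (copied from `Helper242.RK.Int5`) -/

lemma norm_Gamma_half_sq (τ : ℝ) :
    ‖Complex.Gamma (1 / 2 + τ * Complex.I)‖ ^ 2 = Real.pi / Real.cosh (Real.pi * τ) := by
  have h1 := Complex.Gamma_mul_Gamma_one_sub (1 / 2 + τ * Complex.I)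
  have h2 : (1 : ℂ) - (1 / 2 + τ * Complex.I) = (starRingEnd ℂ) (1 / 2 + τ * Complex.I) := by
    apply Complex.ext
    · simp; norm_num
    · simp
  rw [h2, Complex.Gamma_conj, Complex.mul_conj, Complex.normSq_eq_norm_sq] at h1
  have h3 : Complex.sin (Real.pi * (1 / 2 + τ * Complex.I)) =
      ((Real.cosh (Real.pi * τ) : ℝ) : ℂ) := by
    have : (Real.pi : ℂ) * (1 / 2 + τ * Complex.I) =
      (Real.pi : ℂ) * τ * Complex.I + Real.pi / 2 := by ring
    rw [this, Complex.sin_add_pi_div_two, Complex.cos_mul_I]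
    push_cast; rfl
  rw [h3] at h1
  exact_mod_cast h1

lemma Gamma_half_upper (τ : ℝ) :
    ‖Complex.Gamma (1 / 2 + τ * Complex.I)‖ ≤ 3 * Real.exp (-(Real.pi / 2 * |τ|)) := by
  have h := norm_Gamma_half_sq τ
  have h1 : Real.exp (Real.pi * |τ|) / 2 ≤ Real.cosh (Real.pi * τ) := by
    rw [← Real.cosh_abs, abs_mul, abs_of_pos Real.pi_pos, Real.cosh_eq]
    have := Real.exp_pos (-(Real.pi * |τ|))
    linarith
  refine le_of_sq_le_sq ?_ (by positivity)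
  rw [h, mul_pow, ← Real.exp_nat_mul]
  have h2 : Real.exp (((2 : ℕ) : ℝ) * -(Real.pi / 2 * |τ|)) = (Real.exp (Real.pi * |τ|))⁻¹ := by
    rw [← Real.exp_neg]; congr 1; push_cast; ring
  rw [h2]
  have hpi := Real.pi_lt_four
  calc Real.pi / Real.cosh (Real.pi * τ) ≤ Real.pi / (Real.exp (Real.pi * |τ|) / 2) := by
        have := Real.pi_pos
        gcongr
    _ = 2 * Real.pi * (Real.exp (Real.pi * |τ|))⁻¹ := by field_simp
    _ ≤ 3 ^ 2 * (Real.exp (Real.pi * |τ|))⁻¹ := by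
        gcongr
        linarith

lemma Gamma_half_nat_upper (k : ℕ) : ∃ C : ℝ, 0 < C ∧ ∀ τ : ℝ,
    ‖Complex.Gamma ((k : ℂ) + 1 / 2 + τ * Complex.I)‖ ≤
      C * (1 + |τ|) ^ k * Real.exp (-(Real.pi / 2 * |τ|)) := by
  induction k with
  | zero =>
    refine ⟨3, by norm_num, fun τ => ?_⟩
    have := Gamma_half_upper τ
    simpa using this
  | succ k ih =>
    obtain ⟨C, hC, h⟩ := ih
    refine ⟨C * (k + 1), by positivity, fun τ => ?_⟩
    have hne : (k : ℂ) + 1 / 2 + τ * Complex.I ≠ 0 := by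
      intro h0
      have := congrArg Complex.re h0
      simp at this
      have : (0 : ℝ) ≤ k := Nat.cast_nonneg k
      linarith
    have e : ((k + 1 : ℕ) : ℂ) + 1 / 2 + τ * Complex.I =
        ((k : ℂ) + 1 / 2 + τ * Complex.I) + 1 := by
      push_cast; ring
    rw [e, Complex.Gamma_add_one _ hne, norm_mul]
    have h1 : ‖(k : ℂ) + 1 / 2 + τ * Complex.I‖ ≤ (k + 1) * (1 + |τ|) := by
      have h2 : ‖(k : ℂ) + 1 / 2 + τ * Complex.I‖ ≤ ‖(k : ℂ)‖ + ‖(1 / 2 : ℂ)‖ +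
          ‖τ * Complex.I‖ := norm_add₃_le
      have h3 : ‖(τ : ℂ) * Complex.I‖ = |τ| := by simp
      have h4 : ‖(k : ℂ)‖ = k := by simp
      have h5 : ‖(1 / 2 : ℂ)‖ = 1 / 2 := by simp
      rw [h3, h4, h5] at h2
      have h6 : (0 : ℝ) ≤ k := Nat.cast_nonneg k
      have h7 := abs_nonneg τ
      nlinarith
    calc ‖(k : ℂ) + 1 / 2 + τ * Complex.I‖ * ‖Complex.Gamma ((k : ℂ) + 1 / 2 + τ * Complex.I)‖
        ≤ ((k + 1) * (1 + |τ|)) * (C * (1 + |τ|) ^ k * Real.exp (-(Real.pi / 2 * |τ|))) := by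
          gcongr
          exact h τ
      _ = _ := by ring

/-! ### the line `Re z = j + 1/2` -/

/-- the point of the line -/
def zz (j : ℕ) (τ : ℝ) : ℂ := (j : ℂ) + 1 / 2 + τ * Complex.I

lemma zz_re (j : ℕ) (τ : ℝ) : (zz j τ).re = j + 1 / 2 := by simp [zz]

lemma zz_im (j : ℕ) (τ : ℝ) : (zz j τ).im = τ := by simp [zz]

lemma zz_re_pos (j : ℕ) (τ : ℝ) : 0 < (zz j τ).re := by
  rw [zz_re]; positivity

lemma zz_cont (j : ℕ) : Continuous (zz j) := by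
  unfold zz; fun_prop

/-- the gamma factor with the rotated exponential -/
def Gz (j : ℕ) (a θ τ : ℝ) : ℂ :=
  Complex.Gamma (zz j τ) * Complex.exp (zz j τ * (-(Real.log a : ℂ) + θ * Complex.I))

lemma Gz_cont (j : ℕ) (a θ : ℝ) : Continuous (Gz j a θ) := by
  unfold Gz
  have h1 : Continuous fun τ : ℝ => Complex.Gamma (zz j τ) := by
    rw [continuous_iff_continuousAt]
    intro τ
    have h2 : DifferentiableAt ℂ Complex.Gamma (zz j τ) := by
      apply Complex.differentiableAt_Gamma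
      intro n h
      have := congrArg Complex.re h
      rw [zz_re] at this
      simp at this
      have h3 : (0 : ℝ) ≤ n := Nat.cast_nonneg n
      have h4 : (0 : ℝ) ≤ j := Nat.cast_nonneg j
      linarith
    exact ContinuousAt.comp (f := zz j) h2.continuousAt (zz_cont j).continuousAt
  have h2 := zz_cont j
  fun_prop

lemma Gz_bound (j : ℕ) (a : ℝ) : ∃ C : ℝ, 0 < C ∧ ∀ θ τ : ℝ,
    ‖Gz j a θ τ‖ ≤ C * (1 + |τ|) ^ j * Real.exp (-((Real.pi / 2 - |θ|) * |τ|)) := by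
  obtain ⟨C, hC, h⟩ := Gamma_half_nat_upper j
  refine ⟨C * Real.exp (-(((j : ℝ) + 1 / 2) * Real.log a)), by positivity, fun θ τ => ?_⟩
  unfold Gz
  rw [norm_mul, Complex.norm_exp]
  have h1 : (zz j τ * (-(Real.log a : ℂ) + θ * Complex.I)).re =
      -(((j : ℝ) + 1 / 2) * Real.log a) - τ * θ := by
    unfold zz
    simp
  rw [h1]
  have h2 : Real.exp (-(((j : ℝ) + 1 / 2) * Real.log a) - τ * θ) ≤
      Real.exp (-(((j : ℝ) + 1 / 2) * Real.log a)) * Real.exp (|θ| * |τ|) := by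
    rw [sub_eq_add_neg, Real.exp_add]
    gcongr
    calc -(τ * θ) ≤ |τ * θ| := neg_le_abs _
      _ = |θ| * |τ| := by rw [abs_mul, mul_comm]
  have h3 := h τ
  calc ‖Complex.Gamma (zz j τ)‖ * Real.exp (-(((j : ℝ) + 1 / 2) * Real.log a) - τ * θ)
      ≤ (C * (1 + |τ|) ^ j * Real.exp (-(Real.pi / 2 * |τ|))) *
        (Real.exp (-(((j : ℝ) + 1 / 2) * Real.log a)) * Real.exp (|θ| * |τ|)) := by
        gcongr
        exact h3
    _ = C * Real.exp (-(((j : ℝ) + 1 / 2) * Real.log a)) * (1 + |τ|) ^ j *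
        (Real.exp (-(Real.pi / 2 * |τ|)) * Real.exp (|θ| * |τ|)) := by ring
    _ = _ := by
        rw [← Real.exp_add]
        congr 2
        ring

/-- an integrable majorant -/
lemma dom_int (C : ℝ) : Integrable (fun τ : ℝ => C * (1 + |τ|) ^ (-(2 : ℝ))) := by
  have h := integrable_one_add_norm (E := ℝ) (μ := volume) (r := 2) (by simp)
  simpa using h.const_mul C

lemma poly_exp_bound (j : ℕ) {b : ℝ} (hb : 0 < b) : ∃ C : ℝ, 0 < C ∧ ∀ τ : ℝ,
    (1 + |τ|) ^ j * Real.exp (-(b * |τ|)) ≤ C * (1 + |τ|) ^ (-(2 : ℝ)) := by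
  refine ⟨((j + 2).factorial : ℝ) / b ^ (j + 2) * Real.exp b, by positivity, fun τ => ?_⟩
  have ht := abs_nonneg τ
  have h1 := Real.pow_div_factorial_le_exp (b * (1 + |τ|)) (by positivity) (j + 2)
  rw [div_le_iff₀ (by positivity), mul_pow] at h1
  have h2 : (1 + |τ|) ^ (-(2 : ℝ)) = ((1 + |τ|) ^ 2)⁻¹ := by
    rw [Real.rpow_neg (by positivity)]
    congr 1
    exact Real.rpow_natCast _ 2
  rw [h2, Real.exp_neg]
  have h3 : Real.exp (b * (1 + |τ|)) = Real.exp b * Real.exp (b * |τ|) := by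
    rw [← Real.exp_add]; congr 1; ring
  rw [h3] at h1
  have hE := Real.exp_pos (b * |τ|)
  have hp : (0 : ℝ) < (1 + |τ|) ^ 2 := by positivity
  have hbp : (0 : ℝ) < b ^ (j + 2) := by positivity
  rw [← div_eq_mul_inv, ← div_eq_mul_inv, div_le_div_iff₀ hE hp]
  have h4 : (1 + |τ|) ^ j * (1 + |τ|) ^ 2 = (1 + |τ|) ^ (j + 2) := by rw [← pow_add]
  rw [h4, div_mul_eq_mul_div, div_mul_eq_mul_div, le_div_iff₀ hbp]
  calc (1 + |τ|) ^ (j + 2) * b ^ (j + 2) = b ^ (j + 2) * (1 + |τ|) ^ (j + 2) := mul_comm _ _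
    _ ≤ Real.exp b * Real.exp (b * |τ|) * ((j + 2).factorial : ℝ) := h1
    _ = _ := by ring

lemma Gz_dom (j : ℕ) (a : ℝ) {θ : ℝ} (hθ : |θ| < Real.pi / 2) : ∃ C : ℝ, 0 < C ∧
    ∀ τ : ℝ, ‖Gz j a θ τ‖ ≤ C * (1 + |τ|) ^ (-(2 : ℝ)) := by
  obtain ⟨C1, hC1, h1⟩ := Gz_bound j a
  obtain ⟨C2, hC2, h2⟩ := poly_exp_bound j (b := Real.pi / 2 - |θ|) (by linarith)
  refine ⟨C1 * C2, by positivity, fun τ => (h1 θ τ).trans ?_⟩
  calc C1 * (1 + |τ|) ^ j * Real.exp (-((Real.pi / 2 - |θ|) * |τ|))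
      = C1 * ((1 + |τ|) ^ j * Real.exp (-((Real.pi / 2 - |θ|) * |τ|))) := by ring
    _ ≤ C1 * (C2 * (1 + |τ|) ^ (-(2 : ℝ))) := mul_le_mul_of_nonneg_left (h2 τ) hC1.le
    _ = _ := by ring

lemma norm_cpow_zz (j : ℕ) {r : ℝ} (hr : 1 ≤ r) (τ : ℝ) : ‖(r : ℂ) ^ (-(zz j τ))‖ ≤ 1 := by
  rw [Complex.norm_cpow_eq_rpow_re_of_pos (by linarith)]
  apply Real.rpow_le_one_of_one_le_of_nonpos hr
  rw [Complex.neg_re]
  linarith [zz_re_pos j τ]

/-- Mellin inversion for the rotated exponential -/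
lemma inv_exp (j : ℕ) {a θ r : ℝ} (ha : 0 < a) (hθ : |θ| < Real.pi / 2) (hr : 0 < r) :
    ∫ τ : ℝ, Gz j a θ τ * (r : ℂ) ^ (-(zz j τ)) =
      2 * Real.pi * Complex.exp (-(((a : ℂ) * Complex.exp (-(θ * Complex.I))) * r)) := by
  have hpi := Real.pi_pos
  set ω : ℂ := (a : ℂ) * Complex.exp (-(θ * Complex.I)) with hωdef
  have hω : 0 < ω.re := by
    rw [hωdef, omega_re]
    have := Real.cos_pos_of_mem_Ioo (x := θ) (by rw [mem_Ioo]; exact abs_lt.1 hθ)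
    positivity
  set σ : ℝ := (j : ℝ) + 1 / 2 with hσ
  have hσz : ∀ τ : ℝ, ((σ : ℂ) + τ * Complex.I) = zz j τ := by
    intro τ; unfold zz; rw [hσ]; push_cast; ring
  have hmel : ∀ τ : ℝ, mellin (fun x : ℝ => Complex.exp (-(ω * x))) (zz j τ) = Gz j a θ τ := by
    intro τ
    rw [mellin_exp hω (zz_re_pos j τ), hωdef, one_div_omega ha hθ]
    unfold Gz
    ring
  have hconv : MellinConvergent (fun x : ℝ => Complex.exp (-(ω * x))) (σ : ℂ) := by
    unfold MellinConvergent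
    have h0 : IntegrableOn (fun t : ℝ => t ^ (σ - 1) * Real.exp (-ω.re * t)) (Ioi 0) := by
      have := integrableOn_rpow_mul_exp_neg_mul_rpow (p := 1) (s := σ - 1) (b := ω.re)
        (by rw [hσ]; have : (0 : ℝ) ≤ j := Nat.cast_nonneg j; linarith) one_pos hω
      simpa using this
    refine Integrable.mono' h0 ?_ ?_
    · apply ContinuousOn.aestronglyMeasurable _ measurableSet_Ioi
      apply ContinuousOn.fun_smul
      · intro t ht
        have ht0 : (0 : ℝ) < t := ht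
        apply ContinuousAt.continuousWithinAt
        apply ContinuousAt.cpow (by fun_prop) continuousAt_const
        exact Complex.ofReal_mem_slitPlane.2 ht0
      · fun_prop
    · filter_upwards [ae_restrict_mem measurableSet_Ioi] with t ht
      have ht0 : (0 : ℝ) < t := ht
      rw [norm_smul, Complex.norm_cpow_eq_rpow_re_of_pos ht0, Complex.norm_exp]
      simp
  have hvert : Complex.VerticalIntegrable (mellin (fun x : ℝ => Complex.exp (-(ω * x)))) σ := by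
    unfold Complex.VerticalIntegrable
    have e : (fun y : ℝ => mellin (fun x : ℝ => Complex.exp (-(ω * x)))
        ((σ : ℂ) + y * Complex.I)) = Gz j a θ := by
      funext τ
      rw [hσz, hmel]
    rw [e]
    obtain ⟨C, hC, h⟩ := Gz_dom j a hθ
    exact Integrable.mono' (dom_int C) (Gz_cont j a θ).aestronglyMeasurable
      (Filter.Eventually.of_forall h)
  have hinv := mellinInv_mellin_eq σ (fun x : ℝ => Complex.exp (-(ω * x))) hr hconv hvert
    (by fun_prop)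
  unfold mellinInv at hinv
  have e2 : (fun y : ℝ => (r : ℂ) ^ (-((σ : ℂ) + y * Complex.I)) •
      mellin (fun x : ℝ => Complex.exp (-(ω * x))) ((σ : ℂ) + y * Complex.I)) =
      fun τ : ℝ => Gz j a θ τ * (r : ℂ) ^ (-(zz j τ)) := by
    funext τ
    rw [hσz, hmel, smul_eq_mul, mul_comm]
  rw [e2] at hinv
  rw [← hinv, Complex.real_smul]
  push_cast
  have hpc : (Real.pi : ℂ) ≠ 0 := by exact_mod_cast hpi.ne'
  field_simp

lemma Ke_eq (δ : ℝ) (n : ℕ) (R : ℝ) (z : ℂ) :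
    Ke δ n R z = ∫ x, ((R + x : ℝ) : ℂ) ^ z ∂(mu δ n) := rfl

/-- integration over `mu δ n` -/
lemma line_mu (j n : ℕ) {a θ R δ : ℝ} (ha : 0 < a) (hθ : |θ| < Real.pi / 2) (hR : 1 ≤ R)
    (hδ : 0 < δ) :
    ∫ τ : ℝ, Gz j a θ τ * Ke δ n R (-(zz j τ)) =
      2 * Real.pi * ∫ x, Complex.exp (-(((a : ℂ) * Complex.exp (-(θ * Complex.I))) *
        ((R + x : ℝ) : ℂ))) ∂(mu δ n) := by
  have := mu_prob hδ n
  obtain ⟨C, hC, h⟩ := Gz_dom j a hθ
  have hmeas : AEStronglyMeasurable (Function.uncurry fun (τ x : ℝ) =>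
      Gz j a θ τ * ((R + x : ℝ) : ℂ) ^ (-(zz j τ))) (volume.prod (mu δ n)) := by
    apply Measurable.aestronglyMeasurable
    have h1 : Measurable (Gz j a θ) := (Gz_cont j a θ).measurable
    have h2 : Measurable (zz j) := (zz_cont j).measurable
    unfold Function.uncurry
    dsimp only
    fun_prop
  have hint : Integrable (Function.uncurry fun (τ x : ℝ) =>
      Gz j a θ τ * ((R + x : ℝ) : ℂ) ^ (-(zz j τ))) (volume.prod (mu δ n)) := by
    have hdom : Integrable (fun p : ℝ × ℝ => (C * (1 + |p.1|) ^ (-(2 : ℝ))) * (1 : ℝ))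
        (volume.prod (mu δ n)) :=
      Integrable.mul_prod (dom_int C) (integrable_const (1 : ℝ))
    refine Integrable.mono' hdom hmeas ?_
    have h2 : ∀ᵐ p ∂((volume : Measure ℝ).prod (mu δ n)), 0 ≤ p.2 :=
      Measure.quasiMeasurePreserving_snd.ae (mu_nonneg hδ n)
    filter_upwards [h2] with p hp
    unfold Function.uncurry
    dsimp only
    rw [norm_mul]
    exact mul_le_mul (h p.1) (norm_cpow_zz j (by linarith) p.1) (norm_nonneg _) (by positivity)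
  have e1 : ∫ τ : ℝ, Gz j a θ τ * Ke δ n R (-(zz j τ)) =
      ∫ τ : ℝ, ∫ x, Gz j a θ τ * ((R + x : ℝ) : ℂ) ^ (-(zz j τ)) ∂(mu δ n) := by
    congr 1
    funext τ
    rw [Ke_eq, integral_const_mul]
  rw [e1, integral_integral_swap hint, ← integral_const_mul]
  apply integral_congr_ae
  filter_upwards [mu_nonneg hδ n] with x hx
  exact inv_exp j ha hθ (by linarith)

/-- the decay of `Ke` on the line, from the bound T2 -/
lemma Ke_dom (hKb : ∀ (n : ℕ) (A : ℝ), ∃ C : ℝ, 0 < C ∧ ∀ (R δ : ℝ) (z : ℂ) (θ : ℝ), 1 ≤ R →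
      0 < δ → δ ≤ 1/2 → |z.re| ≤ A → 0 ≤ θ → θ ≤ n →
      ‖Ke δ n R z‖ ≤ C * R ^ z.re * (R / (δ * (1 + |z.im|))) ^ θ)
    {j n : ℕ} (hn : j + 2 ≤ n) {R δ : ℝ} (hR : 1 ≤ R) (hδ : 0 < δ) (hδ2 : δ ≤ 1/2) :
    ∃ C : ℝ, 0 < C ∧ ∀ τ : ℝ, (1 + |τ|) ^ j * ‖Ke δ n R (-(zz j τ))‖ ≤
      C * (1 + |τ|) ^ (-(2 : ℝ)) := by
  obtain ⟨C, hC, h⟩ := hKb n ((j : ℝ) + 1 / 2)
  have hR0 : 0 < R := by linarith
  refine ⟨C * R ^ (-((j : ℝ) + 1 / 2)) * (R / δ) ^ (((j + 2 : ℕ) : ℝ)), by positivity,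
    fun τ => ?_⟩
  have ht := abs_nonneg τ
  have h1 := h R δ (-(zz j τ)) ((j + 2 : ℕ) : ℝ) hR hδ hδ2
    (by rw [Complex.neg_re, zz_re, abs_neg, abs_of_nonneg (by positivity)])
    (by positivity) (by exact_mod_cast hn)
  rw [Complex.neg_re, zz_re, Complex.neg_im, zz_im, abs_neg] at h1
  have h2 : (R / (δ * (1 + |τ|))) ^ (((j + 2 : ℕ) : ℝ)) =
      (R / δ) ^ (((j + 2 : ℕ) : ℝ)) * ((1 + |τ|) ^ (j + 2))⁻¹ := by
    rw [Real.rpow_natCast, Real.rpow_natCast, div_pow, div_pow, mul_pow]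
    field_simp
  rw [h2] at h1
  have h3 : (1 + |τ|) ^ (-(2 : ℝ)) = ((1 + |τ|) ^ 2)⁻¹ := by
    rw [Real.rpow_neg (by positivity)]
    congr 1
    exact Real.rpow_natCast _ 2
  rw [h3]
  calc (1 + |τ|) ^ j * ‖Ke δ n R (-(zz j τ))‖
      ≤ (1 + |τ|) ^ j * (C * R ^ (-((j : ℝ) + 1 / 2)) * ((R / δ) ^ (((j + 2 : ℕ) : ℝ)) *
        ((1 + |τ|) ^ (j + 2))⁻¹)) := mul_le_mul_of_nonneg_left h1 (by positivity)
    _ = C * R ^ (-((j : ℝ) + 1 / 2)) * (R / δ) ^ (((j + 2 : ℕ) : ℝ)) *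
        ((1 + |τ|) ^ j * ((1 + |τ|) ^ (j + 2))⁻¹) := by ring
    _ = _ := by
        congr 1
        rw [pow_add]
        field_simp

/-- the integrand on the line -/
def Fz (j n : ℕ) (a R δ θ τ : ℝ) : ℂ := Gz j a θ τ * Ke δ n R (-(zz j τ))

lemma Fz_bound (hKb : ∀ (n : ℕ) (A : ℝ), ∃ C : ℝ, 0 < C ∧ ∀ (R δ : ℝ) (z : ℂ) (θ : ℝ), 1 ≤ R →
      0 < δ → δ ≤ 1/2 → |z.re| ≤ A → 0 ≤ θ → θ ≤ n →
      ‖Ke δ n R z‖ ≤ C * R ^ z.re * (R / (δ * (1 + |z.im|))) ^ θ)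
    {j n : ℕ} (a : ℝ) (hn : j + 2 ≤ n) {R δ : ℝ} (hR : 1 ≤ R) (hδ : 0 < δ) (hδ2 : δ ≤ 1/2) :
    ∃ C : ℝ, 0 < C ∧ ∀ θ τ : ℝ, |θ| ≤ Real.pi / 2 →
      ‖Fz j n a R δ θ τ‖ ≤ C * (1 + |τ|) ^ (-(2 : ℝ)) := by
  obtain ⟨C1, hC1, h1⟩ := Gz_bound j a
  obtain ⟨C2, hC2, h2⟩ := Ke_dom hKb hn hR hδ hδ2
  refine ⟨C1 * C2, by positivity, fun θ τ hθ => ?_⟩
  have ht := abs_nonneg τ
  unfold Fz
  rw [norm_mul]
  have h3 : Real.exp (-((Real.pi / 2 - |θ|) * |τ|)) ≤ 1 := by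
    rw [Real.exp_le_one_iff]
    have : 0 ≤ (Real.pi / 2 - |θ|) * |τ| := mul_nonneg (by linarith) ht
    linarith
  calc ‖Gz j a θ τ‖ * ‖Ke δ n R (-(zz j τ))‖
      ≤ (C1 * (1 + |τ|) ^ j * 1) * ‖Ke δ n R (-(zz j τ))‖ := by
        apply mul_le_mul_of_nonneg_right _ (norm_nonneg _)
        exact (h1 θ τ).trans (mul_le_mul_of_nonneg_left h3 (by positivity))
    _ = C1 * ((1 + |τ|) ^ j * ‖Ke δ n R (-(zz j τ))‖) := by ring
    _ ≤ C1 * (C2 * (1 + |τ|) ^ (-(2 : ℝ))) := mul_le_mul_of_nonneg_left (h2 τ) hC1.le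
    _ = _ := by ring

lemma Fz_cont (hKd : ∀ {δ : ℝ} (_ : 0 < δ) (n : ℕ) {R : ℝ} (_ : 0 < R),
      Differentiable ℂ (Ke δ n R)) (j n : ℕ) (a θ : ℝ) {R δ : ℝ} (hR : 0 < R) (hδ : 0 < δ) :
    Continuous (Fz j n a R δ θ) := by
  unfold Fz
  exact (Gz_cont j a θ).mul ((hKd hδ n hR).continuous.comp (zz_cont j).neg)

/-- the limiting case `θ = s π / 2` -/
lemma edge (hKd : ∀ {δ : ℝ} (_ : 0 < δ) (n : ℕ) {R : ℝ} (_ : 0 < R), Differentiable ℂ (Ke δ n R))
    (hKb : ∀ (n : ℕ) (A : ℝ), ∃ C : ℝ, 0 < C ∧ ∀ (R δ : ℝ) (z : ℂ) (θ : ℝ), 1 ≤ R →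
      0 < δ → δ ≤ 1/2 → |z.re| ≤ A → 0 ≤ θ → θ ≤ n →
      ‖Ke δ n R z‖ ≤ C * R ^ z.re * (R / (δ * (1 + |z.im|))) ^ θ)
    {j n : ℕ} (hn : j + 2 ≤ n) {a R δ s : ℝ} (ha : 0 < a) (hR : 1 ≤ R) (hδ : 0 < δ)
    (hδ2 : δ ≤ 1/2) (hs : s = 1 ∨ s = -1) :
    ∫ τ : ℝ, Fz j n a R δ (s * (Real.pi / 2)) τ = 2 * Real.pi *
      ∫ x, Complex.exp (((s * a * (R + x) : ℝ) : ℂ) * Complex.I) ∂(mu δ n) := by
  have hpi := Real.pi_pos
  have hR0 : 0 < R := by linarith
  have := mu_prob hδ n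
  have hsabs : |s| = 1 := by rcases hs with rfl | rfl <;> simp
  obtain ⟨C, hC, hb⟩ := Fz_bound hKb a hn hR hδ hδ2
  have hev : ∀ᶠ φ : ℝ in 𝓝[<] (Real.pi / 2), |s * φ| < Real.pi / 2 := by
    filter_upwards [Ioo_mem_nhdsLT (show (0 : ℝ) < Real.pi / 2 by positivity)] with φ hφ
    rw [abs_mul, hsabs, one_mul, abs_of_pos hφ.1]
    exact hφ.2
  have hL : Tendsto (fun φ : ℝ => ∫ τ : ℝ, Fz j n a R δ (s * φ) τ) (𝓝[<] (Real.pi / 2))
      (𝓝 (∫ τ : ℝ, Fz j n a R δ (s * (Real.pi / 2)) τ)) := by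
    apply tendsto_integral_filter_of_dominated_convergence
      (fun τ : ℝ => C * (1 + |τ|) ^ (-(2 : ℝ)))
    · filter_upwards with φ
      exact (Fz_cont hKd j n a _ hR0 hδ).aestronglyMeasurable
    · filter_upwards [hev] with φ hφ
      filter_upwards with τ
      exact hb _ _ hφ.le
    · exact dom_int C
    · filter_upwards with τ
      have : Continuous fun φ : ℝ => Fz j n a R δ (s * φ) τ := by
        unfold Fz Gz
        fun_prop
      exact (this.tendsto (Real.pi / 2)).mono_left nhdsWithin_le_nhds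
  have hRt : Tendsto (fun φ : ℝ => 2 * Real.pi * ∫ x,
      Complex.exp (-(((a : ℂ) * Complex.exp (-((s * φ : ℝ) * Complex.I))) *
        ((R + x : ℝ) : ℂ))) ∂(mu δ n)) (𝓝[<] (Real.pi / 2))
      (𝓝 (2 * Real.pi * ∫ x,
        Complex.exp (-(((a : ℂ) * Complex.exp (-((s * (Real.pi / 2) : ℝ) * Complex.I))) *
          ((R + x : ℝ) : ℂ))) ∂(mu δ n))) := by
    apply Tendsto.const_mul
    apply tendsto_integral_filter_of_dominated_convergence (fun _ : ℝ => (1 : ℝ))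
    · filter_upwards with φ
      apply Continuous.aestronglyMeasurable
      fun_prop
    · filter_upwards [hev] with φ hφ
      filter_upwards [mu_nonneg hδ n] with x hx
      rw [Complex.norm_exp]
      have e : (-(((a : ℂ) * Complex.exp (-((s * φ : ℝ) * Complex.I))) *
          ((R + x : ℝ) : ℂ))).re = -((a * Real.cos (s * φ)) * (R + x)) := by
        rw [Complex.neg_re, Complex.re_mul_ofReal, omega_re]
      rw [e, Real.exp_le_one_iff]
      have hc := Real.cos_pos_of_mem_Ioo (x := s * φ) (by rw [mem_Ioo]; exact abs_lt.1 hφ)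
      have : 0 ≤ (a * Real.cos (s * φ)) * (R + x) := by positivity
      linarith
    · exact integrable_const _
    · filter_upwards with x
      have : Continuous fun φ : ℝ =>
          Complex.exp (-(((a : ℂ) * Complex.exp (-((s * φ : ℝ) * Complex.I))) *
            ((R + x : ℝ) : ℂ))) := by
        fun_prop
      exact (this.tendsto (Real.pi / 2)).mono_left nhdsWithin_le_nhds
  have heq : (fun φ : ℝ => ∫ τ : ℝ, Fz j n a R δ (s * φ) τ) =ᶠ[𝓝[<] (Real.pi / 2)]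
      fun φ : ℝ => 2 * Real.pi * ∫ x,
      Complex.exp (-(((a : ℂ) * Complex.exp (-((s * φ : ℝ) * Complex.I))) *
        ((R + x : ℝ) : ℂ))) ∂(mu δ n) := by
    filter_upwards [hev] with φ hφ
    exact line_mu j n ha hφ hR hδ
  have huniq := tendsto_nhds_unique (hL.congr' heq) hRt
  rw [huniq]
  congr 2
  funext x
  congr 1
  have h2 : Complex.exp (-((s * (Real.pi / 2) : ℝ) * Complex.I)) = -(s * Complex.I) := by
    rcases hs with rfl | rfl
    · rw [one_mul, ← neg_mul, ← Complex.ofReal_neg, Complex.exp_mul_I, ← Complex.ofReal_cos,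
        ← Complex.ofReal_sin, Real.cos_neg, Real.sin_neg, Real.cos_pi_div_two,
        Real.sin_pi_div_two]
      push_cast; ring
    · rw [← neg_mul, ← Complex.ofReal_neg, Complex.exp_mul_I, ← Complex.ofReal_cos,
        ← Complex.ofReal_sin]
      have : -(-1 * (Real.pi / 2)) = Real.pi / 2 := by ring
      rw [this, Real.cos_pi_div_two, Real.sin_pi_div_two]
      push_cast; ring
  rw [h2]
  push_cast
  ring

/-- the mean of `e^{iλ(R+U)}` -/
lemma av_exp (n : ℕ) {R δ : ℝ} (hδ : 0 < δ) {y : ℝ} (hy : 0 < y) :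
    ∫ x, Complex.exp (((1 * (2 * Real.pi * y) * (R + x) : ℝ) : ℂ) * Complex.I) ∂(mu δ n) =
      ex (y * R) * cf (y * δ) ^ n := by
  rw [← charFun_mu hδ hy, charFun_apply_real, ← integral_const_mul]
  congr 1
  funext x
  unfold ex
  rw [← Complex.exp_add]
  congr 1
  push_cast
  ring

lemma conj_av (n : ℕ) {R δ : ℝ} (b : ℝ) :
    ∫ x, Complex.exp (((-1 * b * (R + x) : ℝ) : ℂ) * Complex.I) ∂(mu δ n) =
    (starRingEnd ℂ) (∫ x, Complex.exp (((1 * b * (R + x) : ℝ) : ℂ) * Complex.I) ∂(mu δ n)) := by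
  rw [← integral_conj]
  congr 1
  funext x
  rw [← Complex.exp_conj, map_mul, Complex.conj_ofReal, Complex.conj_I]
  congr 1
  push_cast; ring

/-- TASK T7 with the two parts of T2 as hypotheses -/
theorem cos_int_of (hKd : ∀ {δ : ℝ} (_ : 0 < δ) (n : ℕ) {R : ℝ} (_ : 0 < R),
      Differentiable ℂ (Ke δ n R))
    (hKb : ∀ (n : ℕ) (A : ℝ), ∃ C : ℝ, 0 < C ∧ ∀ (R δ : ℝ) (z : ℂ) (θ : ℝ), 1 ≤ R →
      0 < δ → δ ≤ 1/2 → |z.re| ≤ A → 0 ≤ θ → θ ≤ n →
      ‖Ke δ n R z‖ ≤ C * R ^ z.re * (R / (δ * (1 + |z.im|))) ^ θ)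
    {k n : ℕ} (hk2 : 2 ≤ k) (hn : 2 * k + 2 ≤ n) {R δ : ℝ} (hR : 1 ≤ R) (hδ : 0 < δ)
    (hδ2 : δ ≤ 1/2) {m : ℕ} (hm : 1 ≤ m) :
    (1 / (2 * Real.pi) : ℂ) * ∫ t : ℝ, Mk k (wk t) * (m : ℂ) ^ (-(wk t)) *
        Ke δ n R ((k + 1) / 2 - k * wk t) =
      (((m : ℝ) ^ (-(((k:ℝ) + 1) / (2 * k)) : ℝ) * (1 / (Real.pi * √(k:ℝ))) *
        ck k δ n R ((m : ℝ) ^ (1 / (k:ℝ))) : ℝ) : ℂ) := by
  have hpi := Real.pi_pos
  have hR0 : 0 < R := by linarith
  have hm0 : (0 : ℝ) < m := by exact_mod_cast hm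
  have hk0 : (0 : ℝ) < k := by exact_mod_cast (by omega : 0 < k)
  obtain ⟨j, rfl⟩ : ∃ j, k = j + 1 := ⟨k - 1, by omega⟩
  set k := j + 1 with hkdef
  have hkj : (k : ℂ) = (j : ℂ) + 1 := by rw [hkdef]; push_cast; ring
  have hkc : (k : ℂ) ≠ 0 := by exact_mod_cast hk0.ne'
  set y : ℝ := k * (m : ℝ) ^ (1 / (k:ℝ)) with hy
  have hmk : (0 : ℝ) < (m : ℝ) ^ (1 / (k:ℝ)) := Real.rpow_pos_of_pos hm0 _
  have hy0 : 0 < y := by positivity
  set a : ℝ := 2 * Real.pi * y with ha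
  have ha0 : 0 < a := by positivity
  set φ : ℝ := ((k:ℝ) - 3) * Real.pi / 4 with hφ
  set E : ℂ := Complex.exp ((φ : ℝ) * Complex.I) with hE
  set E' : ℂ := Complex.exp (-((φ : ℝ) * Complex.I)) with hE'
  set Km : ℝ := (√(k:ℝ) / Real.pi) * (m : ℝ) ^ (-(((k:ℝ) + 1) / (2 * k)) : ℝ) with hKm
  have hla : Real.log a = Real.log (2 * Real.pi * k) + Real.log m / k := by
    rw [ha, hy, ← mul_assoc, Real.log_mul (by positivity) hmk.ne', Real.log_rpow hm0]
    ring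
  -- the integrand
  have hint : ∀ t : ℝ, Mk k (wk t) * (m : ℂ) ^ (-(wk t)) * Ke δ n R ((k + 1) / 2 - k * wk t) =
      ((Km / 2 : ℝ) : ℂ) * (E * Fz j n a R δ (1 * (Real.pi / 2)) (k * t) +
        E' * Fz j n a R δ (-1 * (Real.pi / 2)) (k * t)) := by
    intro t
    set z : ℂ := zz j (k * t) with hz
    have hw : k * wk t = z + (k + 1) / 2 := by
      rw [hz]; unfold wk zz; push_cast; rw [hkj]; ring
    have hw' : wk t = z / k + (k + 1) / (2 * k) := by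
      have : wk t = (k * wk t) / k := by field_simp
      rw [this, hw]; field_simp
    have e1 : k * wk t - (k + 1) / 2 = z := by rw [hw]; ring
    have e2 : (k + 1) / 2 - k * wk t = -z := by rw [hw]; ring
    have hmr : (m : ℂ) = ((m : ℝ) : ℂ) := by push_cast; rfl
    have hmc : ((m : ℝ) : ℂ) ≠ 0 := by exact_mod_cast hm0.ne'
    have h2pk : (2 * Real.pi * k : ℂ) = ((2 * Real.pi * k : ℝ) : ℂ) := by push_cast; ring
    have h2pkne : ((2 * Real.pi * k : ℝ) : ℂ) ≠ 0 := by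
      exact_mod_cast (by positivity : (2 * Real.pi * k : ℝ) ≠ 0)
    have hpow : (2 * Real.pi * k : ℂ) ^ (-z) * (m : ℂ) ^ (-(wk t)) =
        Complex.exp (-(z * (Real.log a : ℂ))) *
          (((m : ℝ) ^ (-(((k:ℝ) + 1) / (2 * k)) : ℝ) : ℝ) : ℂ) := by
      rw [h2pk, hmr, Complex.cpow_def_of_ne_zero h2pkne, Complex.cpow_def_of_ne_zero hmc,
        ← Complex.ofReal_log (by positivity), ← Complex.ofReal_log hm0.le, ← Complex.exp_add,
        Real.rpow_def_of_pos hm0, Complex.ofReal_exp, ← Complex.exp_add, hw', hla]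
      congr 1
      push_cast
      field_simp
      ring
    have hcos : Complex.cos (Real.pi * k * wk t / 2) =
        -(Complex.cos (Real.pi * z / 2 + φ)) := by
      rw [← Complex.cos_add_pi]
      congr 1
      have : (Real.pi : ℂ) * k * wk t / 2 = Real.pi * (k * wk t) / 2 := by ring
      rw [this, hw, hφ]
      push_cast
      ring
    have hcos2 : 2 * Complex.cos (Real.pi * z / 2 + φ) * Complex.exp (-(z * (Real.log a : ℂ))) =
        E * Complex.exp (z * (-(Real.log a : ℂ) + ((1 * (Real.pi / 2) : ℝ) : ℂ) * Complex.I)) +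
        E' * Complex.exp (z * (-(Real.log a : ℂ) + ((-1 * (Real.pi / 2) : ℝ) : ℂ) *
          Complex.I)) := by
      rw [hE, hE', ← Complex.exp_add, ← Complex.exp_add, Complex.cos]
      rw [mul_div_cancel₀ _ (two_ne_zero), add_mul, ← Complex.exp_add, ← Complex.exp_add]
      congr 2
      · push_cast; ring
      · push_cast; ring
    unfold Mk Fz Gz
    rw [e1, e2, hcos, ← hz, hKm]
    push_cast at hpow hcos2 ⊢
    linear_combination (((√(k:ℝ) : ℝ) : ℂ) / (Real.pi : ℂ) * Complex.Gamma z *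
      Complex.cos (Real.pi * z / 2 + φ) * Ke δ n R (-z)) * hpow +
      (((√(k:ℝ) : ℝ) : ℂ) / (Real.pi : ℂ) *
        (((m : ℝ) ^ (-(((k:ℝ) + 1) / (2 * k)) : ℝ) : ℝ) : ℂ) / 2 *
        Complex.Gamma z * Ke δ n R (-z)) * hcos2
  -- integrate
  have hnj : j + 2 ≤ n := by omega
  have hFi : ∀ θ : ℝ, |θ| ≤ Real.pi / 2 → Integrable (Fz j n a R δ θ) := by
    intro θ hθ
    obtain ⟨C, hC, h⟩ := Fz_bound hKb a hnj hR hδ hδ2
    exact Integrable.mono' (dom_int C) (Fz_cont hKd j n a θ hR0 hδ).aestronglyMeasurable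
      (Filter.Eventually.of_forall fun τ => h θ τ hθ)
  have hF1 := hFi (1 * (Real.pi / 2)) (by rw [one_mul, abs_of_pos (by positivity)])
  have hF2 := hFi (-1 * (Real.pi / 2)) (by
    rw [abs_mul, abs_neg, abs_one, one_mul, abs_of_pos (by positivity)])
  have hc1 : Integrable fun t : ℝ => Fz j n a R δ (1 * (Real.pi / 2)) (k * t) :=
    hF1.comp_mul_left' hk0.ne'
  have hc2 : Integrable fun t : ℝ => Fz j n a R δ (-1 * (Real.pi / 2)) (k * t) :=
    hF2.comp_mul_left' hk0.ne'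
  set A : ℂ := ∫ x, Complex.exp (((1 * a * (R + x) : ℝ) : ℂ) * Complex.I) ∂(mu δ n) with hA
  have hI1 : ∫ t : ℝ, Fz j n a R δ (1 * (Real.pi / 2)) (k * t) =
      ((k : ℝ)⁻¹ : ℝ) * (2 * Real.pi * A) := by
    rw [Measure.integral_comp_mul_left (fun τ => Fz j n a R δ (1 * (Real.pi / 2)) τ) (k : ℝ),
      edge hKd hKb hnj ha0 hR hδ hδ2 (Or.inl rfl), ← hA, abs_of_pos (by positivity),
      Complex.real_smul]
  have hI2 : ∫ t : ℝ, Fz j n a R δ (-1 * (Real.pi / 2)) (k * t) =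
      ((k : ℝ)⁻¹ : ℝ) * (2 * Real.pi * (starRingEnd ℂ) A) := by
    rw [Measure.integral_comp_mul_left (fun τ => Fz j n a R δ (-1 * (Real.pi / 2)) τ) (k : ℝ),
      edge hKd hKb hnj ha0 hR hδ hδ2 (Or.inr rfl), conj_av, ← hA, abs_of_pos (by positivity),
      Complex.real_smul]
  have hAval : A = ex (y * R) * cf (y * δ) ^ n := by
    rw [hA, ha]
    exact av_exp n hδ hy0
  simp_rw [hint]
  rw [integral_const_mul, integral_add (hc1.const_mul E) (hc2.const_mul E'), integral_const_mul,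
    integral_const_mul, hI1, hI2]
  have hEc : E' = (starRingEnd ℂ) E := by
    rw [hE, hE', ← Complex.exp_conj, map_mul, Complex.conj_ofReal, Complex.conj_I]
    congr 1; ring
  have hre : E * A + (starRingEnd ℂ) (E * A) = ((2 * (E * A).re : ℝ) : ℂ) := by
    rw [Complex.add_conj]
  have hck : ck k δ n R ((m : ℝ) ^ (1 / (k:ℝ))) = (E * A).re := by
    unfold ck ok
    rw [hAval, ← mul_assoc, hE, hφ]
  rw [hck]
  have hpc : (Real.pi : ℂ) ≠ 0 := by exact_mod_cast hpi.ne'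
  rw [map_mul] at hre
  have hKm2 : Km = (m : ℝ) ^ (-(((k:ℝ) + 1) / (2 * k)) : ℝ) * (1 / (Real.pi * √(k:ℝ))) * k := by
    rw [hKm]
    have h5 : √(k:ℝ) * √(k:ℝ) = k := Real.mul_self_sqrt hk0.le
    have h6 : 0 < √(k:ℝ) := Real.sqrt_pos.2 hk0
    have h7 : (1 / (Real.pi * √(k:ℝ))) * k = √(k:ℝ) / Real.pi := by
      rw [div_mul_eq_mul_div, one_mul, div_eq_div_iff (by positivity) hpi.ne']
      linear_combination (-Real.pi) * h5
    rw [mul_assoc, h7]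
    ring
  have hfin : (1 / (2 * Real.pi) : ℂ) * (((Km / 2 : ℝ) : ℂ) *
      (E * (((k : ℝ)⁻¹ : ℝ) * (2 * Real.pi * A)) +
        E' * (((k : ℝ)⁻¹ : ℝ) * (2 * Real.pi * (starRingEnd ℂ) A)))) =
      ((Km / (2 * k) : ℝ) : ℂ) * (E * A + E' * (starRingEnd ℂ) A) := by
    push_cast
    field_simp
  rw [hfin, hEc, hre, hKm2]
  push_cast
  field_simp

/-- TASK T7 (the model integral is the smoothed cosine) -/
theorem cos_int {k n : ℕ} (hk2 : 2 ≤ k) (hn : 2 * k + 2 ≤ n) {R δ : ℝ} (hR : 1 ≤ R)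
    (hδ : 0 < δ) (hδ2 : δ ≤ 1/2) {m : ℕ} (hm : 1 ≤ m) :
    (1 / (2 * Real.pi) : ℂ) * ∫ t : ℝ, Mk k (wk t) * (m : ℂ) ^ (-(wk t)) *
        Ke δ n R ((k + 1) / 2 - k * wk t) =
      (((m : ℝ) ^ (-(((k:ℝ) + 1) / (2 * k)) : ℝ) * (1 / (Real.pi * √(k:ℝ))) *
        ck k δ n R ((m : ℝ) ^ (1 / (k:ℝ))) : ℝ) : ℂ) :=
  cos_int_of (fun hδ n _ hR => Pool.Agent.H383.PZ.Ke_diff hδ n hR)
    Pool.Agent.H383.PZ.Ke_bound hk2 hn hR hδ hδ2 hm

end

end Pool.Agent.H769R2.PZT7
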