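import Mathlib

/-! Cosine polynomials on `[0, 2π]` in the functions `cos (l x / 2)`: products, integrals and
approximation in `L²`. -/

set_option autoImplicit false

namespace Pool.Agent.H769R2.Lac

open MeasureTheory Set Filter Topology

noncomputable def e (l : ℤ) (x : ℝ) : ℝ := Real.cos ((l:ℝ) * x / 2)

lemma e_neg (l : ℤ) : e (-l) = e l := by
  funext x
  unfold e
  rw [← Real.cos_neg]
  congr 1
  push_cast
  ring

lemma e_zero : e 0 = fun _ => 1 := by
  funext x
  simp [e]

lemma e_cont (l : ℤ) : Continuous (e l) := by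
  unfold e
  fun_prop

lemma e_mul_apply (l m : ℤ) (x : ℝ) : e l x * e m x = (1/2) * e (l + m) x + (1/2) * e (l - m) x := by
  unfold e
  have h1 : ((l + m : ℤ) : ℝ) * x / 2 = (l:ℝ) * x / 2 + (m:ℝ) * x / 2 := by
    push_cast; ring
  have h2 : ((l - m : ℤ) : ℝ) * x / 2 = (l:ℝ) * x / 2 - (m:ℝ) * x / 2 := by
    push_cast; ring
  rw [h1, h2, Real.cos_add, Real.cos_sub]
  ring

lemma e_mul (l m : ℤ) : e l * e m = (1/2 : ℝ) • e (l + m) + (1/2 : ℝ) • e (l - m) := by
  funext x
  exact e_mul_apply l m x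

lemma abs_e_le (l : ℤ) (x : ℝ) : |e l x| ≤ 1 := Real.abs_cos_le_one _

lemma int_e (l : ℤ) : ∫ x in (0:ℝ)..(2 * Real.pi), e l x = if l = 0 then 2 * Real.pi else 0 := by
  split_ifs with h
  · subst h
    rw [e_zero]
    simp
  · have h1 : (l:ℝ) / 2 ≠ 0 := by
      have : (l:ℝ) ≠ 0 := by exact_mod_cast h
      positivity
    have h2 : ∀ x, e l x = Real.cos ((l:ℝ) / 2 * x) := by
      intro x; unfold e; congr 1; ring
    simp_rw [h2]
    rw [intervalIntegral.integral_comp_mul_left (fun x => Real.cos x) h1]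
    have h3 : (l:ℝ) / 2 * (2 * Real.pi) = l * Real.pi := by ring
    simp only [mul_zero, integral_cos, Real.sin_zero, sub_zero, smul_eq_mul]
    rw [h3, Real.sin_int_mul_pi]
    simp

/-- cosine polynomials of degree at most `d` (in `x / 2`) -/
def V (d : ℕ) : Submodule ℝ (ℝ → ℝ) := Submodule.span ℝ {f | ∃ l : ℤ, |l| ≤ d ∧ f = e l}

lemma e_mem_V {l : ℤ} {d : ℕ} (h : |l| ≤ d) : e l ∈ V d := Submodule.subset_span ⟨l, h, rfl⟩

lemma V_mono {c d : ℕ} (h : c ≤ d) : V c ≤ V d := by
  apply Submodule.span_mono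
  rintro f ⟨l, hl, rfl⟩
  exact ⟨l, hl.trans (by exact_mod_cast h), rfl⟩

lemma V_cont {d : ℕ} {f : ℝ → ℝ} (hf : f ∈ V d) : Continuous f := by
  induction hf using Submodule.span_induction with
  | mem f hf => obtain ⟨l, _, rfl⟩ := hf; exact e_cont l
  | zero => exact continuous_const
  | add f g _ _ hf hg => exact hf.add hg
  | smul a f _ hf => exact hf.const_smul a

lemma V_mul {c d : ℕ} {f g : ℝ → ℝ} (hf : f ∈ V c) (hg : g ∈ V d) : f * g ∈ V (c + d) := by
  induction hf using Submodule.span_induction with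
  | mem f hf =>
    obtain ⟨l, hl, rfl⟩ := hf
    induction hg using Submodule.span_induction with
    | mem g hg =>
      obtain ⟨m, hm, rfl⟩ := hg
      rw [e_mul]
      apply Submodule.add_mem
      · apply Submodule.smul_mem
        apply e_mem_V
        push_cast
        exact (abs_add_le _ _).trans (add_le_add hl hm)
      · apply Submodule.smul_mem
        apply e_mem_V
        push_cast
        exact (abs_sub _ _).trans (add_le_add hl hm)
    | zero => rw [mul_zero]; exact Submodule.zero_mem _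
    | add g h _ _ hg hh => rw [mul_add]; exact Submodule.add_mem _ hg hh
    | smul a g _ hg => rw [mul_smul_comm]; exact Submodule.smul_mem _ _ hg
  | zero => rw [zero_mul]; exact Submodule.zero_mem _
  | add f h _ _ hf hh => rw [add_mul]; exact Submodule.add_mem _ hf hh
  | smul a f _ hf => rw [smul_mul_assoc]; exact Submodule.smul_mem _ _ hf

lemma V_int {d : ℕ} {f : ℝ → ℝ} (hf : f ∈ V d) {l : ℤ} (hl : (d:ℤ) < |l|) :
    ∫ x in (0:ℝ)..(2 * Real.pi), f x * e l x = 0 := by
  induction hf using Submodule.span_induction with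
  | mem f hf =>
    obtain ⟨m, hm, rfl⟩ := hf
    simp_rw [e_mul_apply]
    rw [intervalIntegral.integral_add, intervalIntegral.integral_const_mul,
      intervalIntegral.integral_const_mul, int_e, int_e, if_neg, if_neg]
    · simp
    · intro h
      have h1 : m = l := by omega
      subst h1
      omega
    · intro h
      have h1 : m = -l := by omega
      subst h1
      rw [abs_neg] at hm
      omega
    · exact ((e_cont _).const_smul (1/2 : ℝ)).intervalIntegrable _ _
    · exact ((e_cont _).const_smul (1/2 : ℝ)).intervalIntegrable _ _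
  | zero => simp
  | add f g hf' hg' hf hg =>
    have h1 : ∀ x, (f + g) x * e l x = f x * e l x + g x * e l x := fun x => by
      simp only [Pi.add_apply]; ring
    simp_rw [h1]
    rw [intervalIntegral.integral_add, hf, hg, add_zero]
    · exact ((V_cont hf').mul (e_cont l)).intervalIntegrable _ _
    · exact ((V_cont hg').mul (e_cont l)).intervalIntegrable _ _
  | smul a f _ hf =>
    have h1 : ∀ x, (a • f) x * e l x = a * (f x * e l x) := fun x => by
      simp only [Pi.smul_apply, smul_eq_mul]; ring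
    simp_rw [h1]
    rw [intervalIntegral.integral_const_mul, hf, mul_zero]

/-! ### Density in `L²` -/

noncomputable def E (m : ℤ) : C(Icc (0:ℝ) (2 * Real.pi), ℝ) :=
  ⟨fun t => e m (t:ℝ), (e_cont m).comp continuous_subtype_val⟩

lemma E_apply (m : ℤ) (t : Icc (0:ℝ) (2 * Real.pi)) : E m t = e m (t:ℝ) := rfl

lemma E_mul (m n : ℤ) : E m * E n = (1/2 : ℝ) • E (m + n) + (1/2 : ℝ) • E (m - n) := by
  ext t
  exact e_mul_apply m n t

lemma span_mul {x y : C(Icc (0:ℝ) (2 * Real.pi), ℝ)} (hx : x ∈ Submodule.span ℝ (range E))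
    (hy : y ∈ Submodule.span ℝ (range E)) : x * y ∈ Submodule.span ℝ (range E) := by
  induction hx using Submodule.span_induction with
  | mem x hx =>
    obtain ⟨m, rfl⟩ := hx
    induction hy using Submodule.span_induction with
    | mem y hy =>
      obtain ⟨n, rfl⟩ := hy
      rw [E_mul]
      exact Submodule.add_mem _ (Submodule.smul_mem _ _ (Submodule.subset_span ⟨_, rfl⟩))
        (Submodule.smul_mem _ _ (Submodule.subset_span ⟨_, rfl⟩))
    | zero => simp
    | add y z _ _ hy hz => rw [mul_add]; exact Submodule.add_mem _ hy hz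
    | smul a y _ hy => rw [mul_smul_comm]; exact Submodule.smul_mem _ _ hy
  | zero => simp
  | add x z _ _ hx hz => rw [add_mul]; exact Submodule.add_mem _ hx hz
  | smul a x _ hx => rw [smul_mul_assoc]; exact Submodule.smul_mem _ _ hx

noncomputable def alg : Subalgebra ℝ C(Icc (0:ℝ) (2 * Real.pi), ℝ) where
  carrier := Submodule.span ℝ (range E)
  mul_mem' := fun hx hy => span_mul hx hy
  add_mem' := fun hx hy => Submodule.add_mem _ hx hy
  algebraMap_mem' := fun r => by
    have h1 : (algebraMap ℝ C(Icc (0:ℝ) (2 * Real.pi), ℝ)) r = r • E 0 := by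
      ext t
      simp [E_apply, e_zero]
    show (algebraMap ℝ C(Icc (0:ℝ) (2 * Real.pi), ℝ)) r ∈ Submodule.span ℝ (range E)
    rw [h1]
    exact Submodule.smul_mem _ _ (Submodule.subset_span ⟨_, rfl⟩)

lemma alg_sep : alg.SeparatesPoints := by
  intro x y hxy
  refine ⟨E 1, ⟨E 1, Submodule.subset_span ⟨1, rfl⟩, rfl⟩, ?_⟩
  intro h
  apply hxy
  rw [E_apply, E_apply] at h
  unfold e at h
  have := Real.injOn_cos (x₁ := ((1:ℤ):ℝ) * (x:ℝ) / 2)
    (x₂ := ((1:ℤ):ℝ) * (y:ℝ) / 2) ?_ ?_ h
  · apply Subtype.ext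
    push_cast at this
    linarith
  · obtain ⟨x1, x2⟩ := x.2
    constructor
    · push_cast; linarith
    · push_cast; linarith
  · obtain ⟨x1, x2⟩ := y.2
    constructor
    · push_cast; linarith
    · push_cast; linarith

lemma alg_dense : alg.topologicalClosure = ⊤ :=
  ContinuousMap.subalgebra_topologicalClosure_eq_top_of_separatesPoints alg alg_sep

noncomputable abbrev ν : Measure ℝ := volume.restrict (Icc (0:ℝ) (2 * Real.pi))

lemma int_mul_of_cont {g h : ℝ → ℝ} (hg : Integrable g ν) (hh : Continuous h) :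
    Integrable (fun x => g x * h x) ν := by
  apply hg.mul_of_top_left
  obtain ⟨C, hC⟩ := (isCompact_Icc (a := (0:ℝ)) (b := 2 * Real.pi)).exists_bound_of_continuousOn
    hh.continuousOn
  exact memLp_top_of_bound hh.aestronglyMeasurable C
    ((ae_restrict_iff' measurableSet_Icc).2 (ae_of_all _ hC))

/-- a function orthogonal to all the cosines vanishes -/
lemma vanish (g : ℝ → ℝ) (hg : MemLp g 2 ν) (h0 : ∀ m : ℤ, ∫ x, g x * e m x ∂ν = 0) :
    g =ᵐ[ν] 0 := by
  have hgi : Integrable g ν := hg.integrable (by norm_num)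
  have key : ∀ h : ℝ → ℝ, Continuous h → ∫ x, g x * h x ∂ν = 0 := by
    intro h hh
    let H : C(Icc (0:ℝ) (2 * Real.pi), ℝ) := ⟨fun t => h t, by fun_prop⟩
    have hspan : ∀ P ∈ Submodule.span ℝ (range E), ∃ p : ℝ → ℝ, Continuous p ∧
        (∀ t : Icc (0:ℝ) (2 * Real.pi), P t = p t) ∧ ∫ x, g x * p x ∂ν = 0 := by
      intro P hP
      induction hP using Submodule.span_induction with
      | mem x hx =>
        obtain ⟨m, rfl⟩ := hx
        exact ⟨e m, e_cont m, fun t => rfl, h0 m⟩
      | zero => exact ⟨fun _ => 0, by fun_prop, fun t => rfl, by simp⟩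
      | add x y _ _ hx hy =>
        obtain ⟨p, p1, p2, p3⟩ := hx
        obtain ⟨q, q1, q2, q3⟩ := hy
        refine ⟨fun x => p x + q x, by fun_prop, fun t => ?_, ?_⟩
        · simp [p2 t, q2 t]
        · have : ∀ x, g x * (p x + q x) = g x * p x + g x * q x := fun x => by ring
          simp_rw [this]
          rw [integral_add (int_mul_of_cont hgi p1) (int_mul_of_cont hgi q1), p3, q3, add_zero]
      | smul a x _ hx =>
        obtain ⟨p, p1, p2, p3⟩ := hx
        refine ⟨fun x => a * p x, by fun_prop, fun t => ?_, ?_⟩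
        · simp [p2 t]
        · have : ∀ x, g x * (a * p x) = a * (g x * p x) := fun x => by ring
          simp_rw [this]
          rw [integral_const_mul, p3, mul_zero]
    have hH : H ∈ alg.topologicalClosure := by rw [alg_dense]; trivial
    have hbound : ∀ ε : ℝ, 0 < ε → |∫ x, g x * h x ∂ν| ≤ ε * ∫ x, |g x| ∂ν := by
      intro ε hε
      have hH' : H ∈ closure (alg : Set C(Icc (0:ℝ) (2 * Real.pi), ℝ)) := hH
      rw [Metric.mem_closure_iff] at hH'
      obtain ⟨P, hP, hd⟩ := hH' ε hε
      obtain ⟨p, p1, p2, p3⟩ := hspan P hP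
      have hhp : ∀ x ∈ Icc (0:ℝ) (2 * Real.pi), |h x - p x| ≤ ε := by
        intro x hx
        have h1 := ContinuousMap.dist_apply_le_dist (f := H) (g := P) ⟨x, hx⟩
        rw [Real.dist_eq, p2] at h1
        exact h1.trans hd.le
      have hp := int_mul_of_cont hgi p1
      have hhi := int_mul_of_cont hgi hh
      have h2 : ∫ x, g x * h x ∂ν = ∫ x, g x * (h x - p x) ∂ν := by
        have : ∀ x, g x * (h x - p x) = g x * h x - g x * p x := fun x => by ring
        simp_rw [this]
        rw [integral_sub hhi hp, p3, sub_zero]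
      rw [h2, ← Real.norm_eq_abs]
      refine (norm_integral_le_integral_norm _).trans ?_
      rw [← integral_const_mul]
      apply integral_mono_ae
      · have : Integrable (fun x => g x * (h x - p x)) ν := by
          have h3 : ∀ x, g x * (h x - p x) = g x * h x - g x * p x := fun x => by ring
          simp_rw [h3]
          exact hhi.sub hp
        exact this.norm
      · exact hgi.abs.const_mul ε
      · refine (ae_restrict_iff' measurableSet_Icc).2 (ae_of_all _ fun x hx => ?_)
        show ‖g x * (h x - p x)‖ ≤ ε * |g x|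
        rw [Real.norm_eq_abs, abs_mul, mul_comm]
        gcongr
        exact hhp x hx
    by_contra hne
    have hpos : 0 < |∫ x, g x * h x ∂ν| := abs_pos.2 hne
    have hI : 0 ≤ ∫ x, |g x| ∂ν := integral_nonneg fun x => abs_nonneg _
    have h4 := hbound (|∫ x, g x * h x ∂ν| / (2 * (∫ x, |g x| ∂ν + 1))) (by positivity)
    have h5 : |∫ x, g x * h x ∂ν| / (2 * (∫ x, |g x| ∂ν + 1)) * ∫ x, |g x| ∂ν ≤
        |∫ x, g x * h x ∂ν| / 2 := by
      rw [div_mul_eq_mul_div, div_le_div_iff₀ (by positivity) (by norm_num)]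
      nlinarith
    linarith
  have hz : hg.toLp g = 0 := by
    have hd := BoundedContinuousFunction.toLp_denseRange (α := ℝ) ℝ ν (p := 2) ℝ (by norm_num)
    have : ∀ y : Lp ℝ 2 ν, inner ℝ (hg.toLp g) y = 0 := by
      intro y
      refine hd.induction_on (p := fun y => inner ℝ (hg.toLp g) y = 0) y ?_ ?_
      · exact isClosed_eq (by fun_prop) continuous_const
      · intro b
        rw [L2.inner_def]
        refine Eq.trans ?_ (key b b.continuous)
        apply integral_congr_ae
        filter_upwards [hg.coeFn_toLp, BoundedContinuousFunction.coeFn_toLp ν (p := 2) (𝕜 := ℝ) b] with x h1 h2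
        rw [h1, h2]
        simp [mul_comm]
    exact inner_self_eq_zero.1 (this _)
  have h6 := hg.coeFn_toLp
  rw [hz] at h6
  filter_upwards [h6, Lp.coeFn_zero ℝ 2 ν] with x h7 h8
  rw [← h7, h8]

lemma memLp_cont {f : ℝ → ℝ} (hf : Continuous f) : MemLp f 2 ν := by
  obtain ⟨C, hC⟩ := (isCompact_Icc (a := (0:ℝ)) (b := 2 * Real.pi)).exists_bound_of_continuousOn
    hf.continuousOn
  exact MemLp.of_bound hf.aestronglyMeasurable C
    ((ae_restrict_iff' measurableSet_Icc).2 (ae_of_all _ hC))

noncomputable def eL (m : ℤ) : Lp ℝ 2 ν := (memLp_cont (e_cont m)).toLp (e m)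

/-- approximation of an `L²` function by cosine polynomials -/
lemma exists_approx (f : ℝ → ℝ) (hf : MemLp f 2 ν) (η : ℝ) (hη : 0 < η) :
    ∃ (d : ℕ) (P : ℝ → ℝ), P ∈ V d ∧ ∫ x, (f x - P x) ^ 2 ∂ν ≤ η ^ 2 := by
  have hperp : (Submodule.span ℝ (range eL))ᗮ = ⊥ := by
    rw [Submodule.eq_bot_iff]
    intro g hg
    rw [Submodule.mem_orthogonal'] at hg
    have h1 := vanish g (Lp.memLp g) (by
      intro m
      have h2 := hg (eL m) (Submodule.subset_span ⟨m, rfl⟩)
      rw [L2.inner_def] at h2
      rw [← h2]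
      apply integral_congr_ae
      filter_upwards [(memLp_cont (e_cont m)).coeFn_toLp] with x hx
      rw [show (eL m : ℝ → ℝ) x = e m x from hx]
      simp [mul_comm])
    apply Lp.ext
    filter_upwards [h1, Lp.coeFn_zero ℝ 2 ν] with x h3 h4
    rw [h3, h4]
  have htop := Submodule.topologicalClosure_eq_top_iff.2 hperp
  have hmem : hf.toLp f ∈ (Submodule.span ℝ (range eL)).topologicalClosure := by
    rw [htop]; trivial
  have hmem' : hf.toLp f ∈ closure (Submodule.span ℝ (range eL) : Set (Lp ℝ 2 ν)) := hmem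
  rw [Metric.mem_closure_iff] at hmem'
  obtain ⟨w, hw, hd⟩ := hmem' η hη
  have hw' : ∃ (d : ℕ) (P : ℝ → ℝ), P ∈ V d ∧ (w : ℝ → ℝ) =ᵐ[ν] P := by
    clear hd
    have hw2 : w ∈ Submodule.span ℝ (range eL) := hw
    clear hw
    induction hw2 using Submodule.span_induction with
    | mem w hw =>
      obtain ⟨m, rfl⟩ := hw
      exact ⟨m.natAbs, e m, e_mem_V (by simp), (memLp_cont (e_cont m)).coeFn_toLp⟩
    | zero => exact ⟨0, 0, Submodule.zero_mem _, Lp.coeFn_zero ℝ 2 ν⟩
    | add v w _ _ hv hw =>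
      obtain ⟨d1, P1, h1, h2⟩ := hv
      obtain ⟨d2, P2, h3, h4⟩ := hw
      refine ⟨max d1 d2, P1 + P2, Submodule.add_mem _ (V_mono (le_max_left _ _) h1)
        (V_mono (le_max_right _ _) h3), ?_⟩
      filter_upwards [h2, h4, Lp.coeFn_add v w] with x a b c
      rw [c, Pi.add_apply, a, b]; rfl
    | smul a w _ hw =>
      obtain ⟨d1, P1, h1, h2⟩ := hw
      refine ⟨d1, a • P1, Submodule.smul_mem _ _ h1, ?_⟩
      filter_upwards [h2, Lp.coeFn_smul a w] with x h c
      rw [c, Pi.smul_apply, h]; rfl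
  obtain ⟨d, P, hP, hwP⟩ := hw'
  refine ⟨d, P, hP, ?_⟩
  have h1 : ∫ x, (f x - P x) ^ 2 ∂ν = ‖hf.toLp f - w‖ ^ 2 := by
    rw [← real_inner_self_eq_norm_sq, L2.inner_def]
    apply integral_congr_ae
    filter_upwards [hwP, hf.coeFn_toLp, Lp.coeFn_sub (hf.toLp f) w] with x a b c
    rw [c, Pi.sub_apply, a, b]
    simp [pow_two]
  rw [h1]
  rw [dist_eq_norm] at hd
  gcongr

end Pool.Agent.H769R2.Lac
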