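import Pool.Agent.H769R2.Lac1

/-! Moments of lacunary cosine sums. -/

set_option autoImplicit false

namespace Pool.Agent.H769R2.Lac

open MeasureTheory Set Filter Topology

lemma ν_integral (f : ℝ → ℝ) : ∫ x, f x ∂ν = ∫ x in (0:ℝ)..(2 * Real.pi), f x := by
  rw [intervalIntegral.integral_of_le (by positivity), ← integral_Icc_eq_integral_Ioc]

lemma cont_int {f : ℝ → ℝ} (hf : Continuous f) : Integrable f ν :=
  (memLp_cont hf).integrable (by norm_num)

lemma V_int' {d : ℕ} {f : ℝ → ℝ} (hf : f ∈ V d) {l : ℤ} (hl : (d:ℤ) < |l|) :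
    ∫ x, f x * e l x ∂ν = 0 := by
  rw [ν_integral]; exact V_int hf hl

/-- Cauchy-Schwarz -/
lemma cs {f g : ℝ → ℝ} (hf : MemLp f 2 ν) (hg : MemLp g 2 ν) :
    |∫ x, f x * g x ∂ν| ≤ √(∫ x, f x ^ 2 ∂ν) * √(∫ x, g x ^ 2 ∂ν) := by
  have h1 : ∀ {u : ℝ → ℝ} (hu : MemLp u 2 ν), ‖hu.toLp u‖ = √(∫ x, u x ^ 2 ∂ν) := by
    intro u hu
    rw [eq_comm, Real.sqrt_eq_iff_mul_self_eq (integral_nonneg fun x => by positivity) (norm_nonneg _),
      ← sq, ← real_inner_self_eq_norm_sq, L2.inner_def]
    apply integral_congr_ae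
    filter_upwards [hu.coeFn_toLp] with x a
    rw [a]
    simp [pow_two]
  have h2 := abs_real_inner_le_norm (hf.toLp f) (hg.toLp g)
  rw [h1 hf, h1 hg, L2.inner_def] at h2
  convert h2 using 2
  apply integral_congr_ae
  filter_upwards [hf.coeFn_toLp, hg.coeFn_toLp] with x a b
  rw [a, b]
  simp [mul_comm]

/-- partial sums of the cosine series with frequencies `a` -/
noncomputable def T (a : ℕ → ℕ) (N : ℕ) (x : ℝ) : ℝ := ∑ k ∈ Finset.range N, e (2 * (a k : ℤ)) x

lemma T_succ (a : ℕ → ℕ) (N : ℕ) (x : ℝ) : T a (N + 1) x = T a N x + e (2 * (a N : ℤ)) x := by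
  unfold T
  rw [Finset.sum_range_succ]

lemma T_mem {a : ℕ → ℕ} {N d : ℕ} (h : ∀ k < N, 2 * a k ≤ d) : T a N ∈ V d := by
  have : T a N = ∑ k ∈ Finset.range N, e (2 * (a k : ℤ)) := by
    funext x
    rw [Finset.sum_apply]
    rfl
  rw [this]
  apply Submodule.sum_mem
  intro k hk
  apply e_mem_V
  rw [Finset.mem_range] at hk
  have := h k hk
  rw [abs_of_nonneg (by positivity)]
  exact_mod_cast this

lemma T_cont (a : ℕ → ℕ) (N : ℕ) : Continuous (T a N) := by
  unfold T
  exact continuous_finsetSum _ fun k _ => e_cont _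

lemma e_sq (l : ℤ) (x : ℝ) : e l x ^ 2 = 1/2 + (1/2) * e (2 * l) x := by
  rw [sq, e_mul_apply, sub_self, e_zero, two_mul]
  ring

lemma int_e' (l : ℤ) : ∫ x, e l x ∂ν = if l = 0 then 2 * Real.pi else 0 := by
  rw [ν_integral, int_e]

lemma int_const' (c : ℝ) : ∫ _x, c ∂ν = c * (2 * Real.pi) := by
  rw [ν_integral]
  simp
  ring

lemma int_e_sq (l : ℤ) (hl : l ≠ 0) : ∫ x, e l x ^ 2 ∂ν = Real.pi := by
  simp_rw [e_sq]
  rw [integral_add, integral_const_mul, int_e', if_neg (by omega), int_const']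
  · ring
  · exact cont_int continuous_const
  · exact cont_int (continuous_const.mul (e_cont _))

/-- second moment -/
lemma T_sq (a : ℕ → ℕ) (ha : StrictMono a) (h0 : ∀ k, 0 < a k) (N : ℕ) :
    ∫ x, T a N x ^ 2 ∂ν = Real.pi * N := by
  induction N with
  | zero => simp [T]
  | succ N ih =>
    have h1 : ∀ x, T a (N + 1) x ^ 2 = T a N x ^ 2 + 2 * (T a N x * e (2 * (a N : ℤ)) x) +
        e (2 * (a N : ℤ)) x ^ 2 := by
      intro x; rw [T_succ]; ring
    have hm : T a N ∈ V (2 * a N - 1) := T_mem (by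
      intro k hk
      have := ha hk
      omega)
    have h2 : ∫ x, T a N x * e (2 * (a N : ℤ)) x ∂ν = 0 := by
      apply V_int' hm
      have := h0 N
      rw [abs_of_nonneg (by positivity)]
      omega
    simp_rw [h1]
    rw [integral_add, integral_add, integral_const_mul, h2, ih, int_e_sq]
    · push_cast; ring
    · have := h0 N; omega
    · exact cont_int ((T_cont a N).pow 2)
    · exact cont_int (continuous_const.mul ((T_cont a N).mul (e_cont _)))
    · exact (cont_int ((T_cont a N).pow 2)).add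
        (cont_int (continuous_const.mul ((T_cont a N).mul (e_cont _))))
    · exact cont_int ((e_cont _).pow 2)

/-- fourth moment for ratio at least four -/
lemma T_four (a : ℕ → ℕ) (ha : ∀ k, 4 * a k ≤ a (k + 1)) (h0 : ∀ k, 0 < a k) (N : ℕ) :
    ∫ x, T a N x ^ 4 ∂ν ≤ 6 * Real.pi * N ^ 2 := by
  have hmono : StrictMono a := strictMono_nat_of_lt_succ fun k => by
    have := ha k; have := h0 k; omega
  have hpi := Real.pi_pos
  have h4 : ∀ k N, k < N → 4 * a k ≤ a N := by
    intro k N hkN
    exact (ha k).trans (hmono.monotone hkN)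
  induction N with
  | zero => simp [T]
  | succ N ih =>
    set c := e (2 * (a N : ℤ)) with hc
    have h1 : ∀ x, T a (N + 1) x ^ 4 = T a N x ^ 4 + 4 * (T a N x ^ 3 * c x) +
        6 * (T a N x ^ 2 * c x ^ 2) + 4 * (T a N x * c x ^ 3) + c x ^ 4 := by
      intro x; rw [T_succ]; ring
    have hd : 3 * ((2 * a N - 1) / 3) < 2 * a N := by have := h0 N; omega
    set d := (2 * a N - 1) / 3 with hdd
    have hm : T a N ∈ V d := T_mem (by
      intro k hk
      have := h4 k N hk
      have := h0 k
      omega)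
    have hm3 : T a N * T a N * T a N ∈ V (d + d + d) := V_mul (V_mul hm hm) hm
    have i1 : ∫ x, T a N x ^ 3 * c x ∂ν = 0 := by
      have := V_int' hm3 (l := 2 * (a N : ℤ)) (by
        rw [abs_of_nonneg (by positivity)]
        push_cast
        omega)
      rw [← this]
      congr 1
      funext x
      simp only [Pi.mul_apply]
      ring
    have i2 : ∫ x, T a N x * c x ^ 3 ∂ν = 0 := by
      have h2 : ∀ x, T a N x * c x ^ 3 = (3/4) * (T a N x * e (2 * (a N : ℤ)) x) +
          (1/4) * (T a N x * e (2 * (2 * (a N : ℤ)) + 2 * (a N : ℤ)) x) := by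
        intro x
        have h3 := e_sq (2 * (a N : ℤ)) x
        have h5 := e_mul_apply (2 * (2 * (a N : ℤ))) (2 * (a N : ℤ)) x
        have h6 : 2 * (2 * (a N : ℤ)) - 2 * (a N : ℤ) = 2 * (a N : ℤ) := by ring
        rw [h6] at h5
        have h7 : c x ^ 3 = c x ^ 2 * c x := by ring
        rw [h7, hc, h3]
        have h8 : (1 / 2 + 1 / 2 * e (2 * (2 * (a N : ℤ))) x) * e (2 * (a N : ℤ)) x =
            1/2 * e (2 * (a N : ℤ)) x + 1/2 * (e (2 * (2 * (a N : ℤ))) x * e (2 * (a N : ℤ)) x) := by
          ring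
        rw [h8, h5]
        ring
      simp_rw [h2]
      rw [integral_add, integral_const_mul, integral_const_mul, V_int' hm, V_int' hm]
      · simp
      · rw [abs_of_nonneg (by positivity)]
        omega
      · rw [abs_of_nonneg (by positivity)]
        omega
      · exact cont_int (continuous_const.mul ((T_cont a N).mul (e_cont _)))
      · exact cont_int (continuous_const.mul ((T_cont a N).mul (e_cont _)))
    have i3 : ∫ x, T a N x ^ 2 * c x ^ 2 ∂ν ≤ Real.pi * N := by
      rw [← T_sq a hmono h0 N]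
      apply integral_mono (cont_int (((T_cont a N).pow 2).mul ((e_cont _).pow 2)))
        (cont_int ((T_cont a N).pow 2))
      intro x
      have h2 : c x ^ 2 ≤ 1 := by
        rw [sq_le_one_iff_abs_le_one]; exact abs_e_le _ _
      show T a N x ^ 2 * c x ^ 2 ≤ T a N x ^ 2
      nlinarith [sq_nonneg (T a N x)]
    have i4 : ∫ x, c x ^ 4 ∂ν ≤ 2 * Real.pi := by
      have : 2 * Real.pi = ∫ _x, (1:ℝ) ∂ν := by rw [int_const']; ring
      rw [this]
      apply integral_mono (cont_int ((e_cont _).pow 4)) (cont_int continuous_const)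
      intro x
      have h2 : c x ^ 2 ≤ 1 := by
        rw [sq_le_one_iff_abs_le_one]; exact abs_e_le _ _
      show c x ^ 4 ≤ 1
      nlinarith [sq_nonneg (c x)]
    simp_rw [h1]
    have cT := T_cont a N
    have cc : Continuous c := e_cont _
    rw [integral_add, integral_add, integral_add, integral_add, integral_const_mul,
      integral_const_mul, integral_const_mul, i1, i2]
    · push_cast
      nlinarith
    · exact cont_int (by fun_prop)
    · exact cont_int (by fun_prop)
    · exact cont_int (by fun_prop)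
    · exact cont_int (by fun_prop)
    · exact cont_int (by fun_prop)
    · exact cont_int (by fun_prop)
    · exact cont_int (by fun_prop)
    · exact cont_int (by fun_prop)

/-- pairing the square of a lacunary sum with a cosine polynomial of low degree -/
lemma T_pair (a : ℕ → ℕ) (d : ℕ) (hd : ∀ k, d < 2 * a k)
    (hgap : ∀ j k, j < k → d + 2 * a j < 2 * a k) {P : ℝ → ℝ} (hP : P ∈ V d) (N : ℕ) :
    ∫ x, P x * T a N x ^ 2 ∂ν = N / 2 * ∫ x, P x ∂ν := by
  have cP := V_cont hP
  induction N with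
  | zero => simp [T]
  | succ N ih =>
    have cT := T_cont a N
    have cc : Continuous (e (2 * (a N : ℤ))) := e_cont _
    have h1 : ∀ x, P x * T a (N + 1) x ^ 2 = P x * T a N x ^ 2 +
        2 * (∑ k ∈ Finset.range N, P x * (e (2 * (a k : ℤ)) x * e (2 * (a N : ℤ)) x)) +
        ((1/2) * P x + (1/2) * (P x * e (2 * (2 * (a N : ℤ))) x)) := by
      intro x
      have h2 := e_sq (2 * (a N : ℤ)) x
      rw [T_succ, ← Finset.mul_sum, ← Finset.sum_mul]
      have h3 : (∑ k ∈ Finset.range N, e (2 * (a k : ℤ)) x) = T a N x := rfl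
      rw [h3]
      have h4 : P x * (T a N x + e (2 * (a N : ℤ)) x) ^ 2 = P x * T a N x ^ 2 +
        2 * (P x * (T a N x * e (2 * (a N : ℤ)) x)) + P x * e (2 * (a N : ℤ)) x ^ 2 := by ring
      rw [h4, h2]
      ring
    have h2 : ∀ k ∈ Finset.range N,
        ∫ x, P x * (e (2 * (a k : ℤ)) x * e (2 * (a N : ℤ)) x) ∂ν = 0 := by
      intro k hk
      rw [Finset.mem_range] at hk
      have hg := hgap k N hk
      have h3 : ∀ x, P x * (e (2 * (a k : ℤ)) x * e (2 * (a N : ℤ)) x) =
          (1/2) * (P x * e (2 * (a k : ℤ) + 2 * (a N : ℤ)) x) +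
          (1/2) * (P x * e (2 * (a k : ℤ) - 2 * (a N : ℤ)) x) := by
        intro x; rw [e_mul_apply]; ring
      simp_rw [h3]
      rw [integral_add, integral_const_mul, integral_const_mul, V_int' hP, V_int' hP]
      · simp
      · rw [abs_of_nonpos (by omega)]
        omega
      · rw [abs_of_nonneg (by positivity)]
        omega
      · exact cont_int (continuous_const.mul (cP.mul (e_cont _)))
      · exact cont_int (continuous_const.mul (cP.mul (e_cont _)))
    simp_rw [h1]
    have h5 : ∫ x, P x * e (2 * (2 * (a N : ℤ))) x ∂ν = 0 := by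
      apply V_int' hP
      have := hd N
      rw [abs_of_nonneg (by positivity)]
      omega
    have hsum : Continuous fun x => ∑ k ∈ Finset.range N,
        P x * (e (2 * (a k : ℤ)) x * e (2 * (a N : ℤ)) x) :=
      continuous_finsetSum _ fun k _ => cP.mul ((e_cont _).mul (e_cont _))
    have ce : Continuous (e (2 * (2 * (a N : ℤ)))) := e_cont _
    rw [integral_add, integral_add, integral_const_mul, integral_finsetSum, Finset.sum_eq_zero h2,
      integral_add, integral_const_mul, integral_const_mul, h5, ih]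
    · push_cast; ring
    · exact cont_int (by fun_prop)
    · exact cont_int (by fun_prop)
    · intro k _
      exact cont_int (cP.mul ((e_cont _).mul (e_cont _)))
    · exact cont_int (by fun_prop)
    · exact cont_int (by fun_prop)
    · exact cont_int (by fun_prop)
    · exact cont_int (by fun_prop)

/-- linear pairing -/
lemma T_pair1 (a : ℕ → ℕ) (d : ℕ) (hd : ∀ k, d < 2 * a k) {P : ℝ → ℝ} (hP : P ∈ V d) (N : ℕ) :
    ∫ x, P x * T a N x ∂ν = 0 := by
  have cP := V_cont hP
  have h1 : ∀ x, P x * T a N x = ∑ k ∈ Finset.range N, P x * e (2 * (a k : ℤ)) x := by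
    intro x; unfold T; rw [Finset.mul_sum]
  simp_rw [h1]
  rw [integral_finsetSum]
  · apply Finset.sum_eq_zero
    intro k _
    apply V_int' hP
    have := hd k
    rw [abs_of_nonneg (by positivity)]
    omega
  · intro k _
    exact cont_int (cP.mul (e_cont _))

lemma T_split (a : ℕ → ℕ) (r N : ℕ) (x : ℝ) :
    T a (r * N) x = ∑ i ∈ Finset.range r, T (fun j => a (r * j + i)) N x := by
  induction N with
  | zero => simp [T]
  | succ N ih =>
    have h1 : T a (r * (N + 1)) x = T a (r * N) x + ∑ i ∈ Finset.range r, e (2 * (a (r * N + i) : ℤ)) x := by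
      unfold T
      rw [mul_add, mul_one, Finset.sum_range_add]
    rw [h1, ih, ← Finset.sum_add_distrib]
    apply Finset.sum_congr rfl
    intro i _
    rw [T_succ]

/-- fourth moment, general ratio -/
lemma T_four' (a : ℕ → ℕ) (r : ℕ) (hr : 0 < r) (ha : ∀ k, 4 * a k ≤ a (k + r)) (h0 : ∀ k, 0 < a k)
    (N : ℕ) : ∫ x, T a (r * N) x ^ 4 ∂ν ≤ 6 * Real.pi * r ^ 4 * N ^ 2 := by
  have hpi := Real.pi_pos
  have h1 : ∀ x, T a (r * N) x ^ 4 ≤
      (r:ℝ) ^ 3 * ∑ i ∈ Finset.range r, T (fun j => a (r * j + i)) N x ^ 4 := by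
    intro x
    rw [T_split]
    have h3 : ∀ (s : Finset ℕ) (f : ℕ → ℝ), (∑ i ∈ s, f i) ^ 2 ≤ s.card * ∑ i ∈ s, f i ^ 2 :=
      fun s f => sq_sum_le_card_mul_sum_sq
    have h4 := h3 (Finset.range r) (fun i => T (fun j => a (r * j + i)) N x)
    have h5 := h3 (Finset.range r) (fun i => T (fun j => a (r * j + i)) N x ^ 2)
    rw [Finset.card_range] at h4 h5
    have h6 : (∑ i ∈ Finset.range r, T (fun j => a (r * j + i)) N x) ^ 4 =
        ((∑ i ∈ Finset.range r, T (fun j => a (r * j + i)) N x) ^ 2) ^ 2 := by ring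
    rw [h6]
    have h7 : (r:ℝ) ^ 3 * ∑ i ∈ Finset.range r, T (fun j => a (r * j + i)) N x ^ 4 =
        r ^ 2 * (r * ∑ i ∈ Finset.range r, (T (fun j => a (r * j + i)) N x ^ 2) ^ 2) := by
      have : ∀ i, (T (fun j => a (r * j + i)) N x ^ 2) ^ 2 = T (fun j => a (r * j + i)) N x ^ 4 := by
        intro i; ring
      simp_rw [this]
      ring
    rw [h7]
    calc ((∑ i ∈ Finset.range r, T (fun j => a (r * j + i)) N x) ^ 2) ^ 2
        ≤ (r * ∑ i ∈ Finset.range r, T (fun j => a (r * j + i)) N x ^ 2) ^ 2 := by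
          gcongr
      _ = r ^ 2 * (∑ i ∈ Finset.range r, T (fun j => a (r * j + i)) N x ^ 2) ^ 2 := by ring
      _ ≤ _ := by gcongr
  calc ∫ x, T a (r * N) x ^ 4 ∂ν
      ≤ ∫ x, (r:ℝ) ^ 3 * ∑ i ∈ Finset.range r, T (fun j => a (r * j + i)) N x ^ 4 ∂ν := by
        apply integral_mono (cont_int ((T_cont _ _).pow 4))
        · apply cont_int
          apply continuous_const.mul
          exact continuous_finsetSum _ fun i _ => (T_cont _ _).pow 4
        · exact h1
    _ = (r:ℝ) ^ 3 * ∑ i ∈ Finset.range r, ∫ x, T (fun j => a (r * j + i)) N x ^ 4 ∂ν := by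
        rw [integral_const_mul, integral_finsetSum]
        intro i _
        exact cont_int ((T_cont _ _).pow 4)
    _ ≤ (r:ℝ) ^ 3 * ∑ i ∈ Finset.range r, 6 * Real.pi * N ^ 2 := by
        gcongr with i hi
        apply T_four
        · intro k
          have h2 := ha (r * k + i)
          have h3 : r * (k + 1) + i = r * k + i + r := by ring
          rw [h3]
          exact h2
        · intro k; exact h0 _
    _ = 6 * Real.pi * r ^ 4 * N ^ 2 := by
        rw [Finset.sum_const, Finset.card_range, nsmul_eq_mul]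
        ring

end Pool.Agent.H769R2.Lac
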