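import Pool.Agent.H769R2.Lac2

/-! Lacunary cosine sums with unit coefficients are unbounded above and below almost everywhere. -/

set_option autoImplicit false

namespace Pool.Agent.H769R2.Lac

open MeasureTheory Set Filter Topology

lemma pt_ineq (t lam : ℝ) (hl : 0 < lam) : t ^ 2 / lam - t ^ 4 / lam ^ 3 ≤ |t| := by
  have h1 : |t| - (t ^ 2 / lam - t ^ 4 / lam ^ 3) =
      lam * ((|t| / lam) * (1 - |t| / lam + (|t| / lam) ^ 3)) := by
    have h2 : t ^ 2 = |t| ^ 2 := (sq_abs t).symm
    have h4 : t ^ 4 = |t| ^ 4 := by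
      have : t ^ 4 = (t ^ 2) ^ 2 := by ring
      rw [this, h2]; ring
    rw [h2, h4]
    field_simp
    ring
  have hu : 0 ≤ |t| / lam := by positivity
  set u := |t| / lam
  have h3 : 0 ≤ 1 - u + u ^ 3 := by
    rcases le_total u 1 with h | h
    · have : 0 ≤ u ^ 3 := by positivity
      linarith
    · have : u ≤ u ^ 3 := by
        calc u = u * 1 := by ring
          _ ≤ u * u ^ 2 := by
            gcongr
            nlinarith
          _ = u ^ 3 := by ring
      linarith
  have h5 : 0 ≤ lam * (u * (1 - u + u ^ 3)) := by positivity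
  linarith

section

variable (n : ℕ → ℕ) (q : ℝ) (hq : 1 < q) (h0 : ∀ k, 0 < n k)
  (hn : ∀ k, q * (n k : ℝ) ≤ (n (k + 1) : ℝ))

include hq h0 hn

lemma n_lt (k : ℕ) : n k < n (k + 1) := by
  have h1 := hn k
  have h2 : (0:ℝ) < n k := by exact_mod_cast h0 k
  have h3 : (n k : ℝ) < n (k + 1) := by nlinarith
  exact_mod_cast h3

lemma n_mono : StrictMono n := strictMono_nat_of_lt_succ (n_lt n q hq h0 hn)

lemma le_n (k : ℕ) : k + 1 ≤ n k := by
  induction k with
  | zero => exact h0 0
  | succ k ih =>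
    have := n_lt n q hq h0 hn k
    omega

lemma n_pow (k r : ℕ) : q ^ r * (n k : ℝ) ≤ n (k + r) := by
  induction r with
  | zero => simp
  | succ r ih =>
    have h1 := hn (k + r)
    calc q ^ (r + 1) * (n k : ℝ) = q * (q ^ r * n k) := by ring
      _ ≤ q * n (k + r) := by gcongr
      _ ≤ n (k + (r + 1)) := by exact_mod_cast h1

lemma osc (s : ℝ) (hs : s = 1 ∨ s = -1) (K : ℝ) (m0 : ℕ) :
    ν {x | ∀ m ≥ m0, s * T n m x ≤ K} = 0 := by
  by_contra hne
  have hpi := Real.pi_pos
  set E : Set ℝ := {x | ∀ m ≥ m0, s * T n m x ≤ K} with hE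
  have hEc : IsClosed E := by
    have : E = ⋂ m, ⋂ (_ : m ≥ m0), {x | s * T n m x ≤ K} := by
      ext x; simp [hE]
    rw [this]
    apply isClosed_iInter
    intro m
    apply isClosed_iInter
    intro _
    exact isClosed_le (continuous_const.mul (T_cont n m)) continuous_const
  have hEm : MeasurableSet E := hEc.measurableSet
  set v : ℝ := (ν E).toReal with hv
  have hfin : ν E ≠ ⊤ := measure_ne_top _ _
  have hv0 : 0 < v := ENNReal.toReal_pos hne hfin
  set h : ℝ → ℝ := E.indicator (fun _ => 1) with hh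
  have hh0 : ∀ x, 0 ≤ h x := fun x => indicator_nonneg (fun _ _ => zero_le_one) x
  have hh1 : ∀ x, h x ≤ 1 := by
    intro x
    by_cases hx : x ∈ E
    · rw [hh, indicator_of_mem hx]
    · rw [hh, indicator_of_notMem hx]; exact zero_le_one
  have hhm : MemLp h 2 ν := by
    refine MemLp.of_bound ((measurable_const.indicator hEm).aestronglyMeasurable) 1
      (ae_of_all _ fun x => ?_)
    rw [Real.norm_eq_abs, abs_of_nonneg (hh0 x)]
    exact hh1 x
  have hhi : Integrable h ν := hhm.integrable (by norm_num)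
  have hIh : ∫ x, h x ∂ν = v := by
    rw [hh, integral_indicator hEm, setIntegral_const, smul_eq_mul, mul_one]
    rfl
  -- the ratio
  obtain ⟨r, hr⟩ := pow_unbounded_of_one_lt 4 hq
  have hr0 : 0 < r := by
    rcases Nat.eq_zero_or_pos r with h1 | h1
    · rw [h1, pow_zero] at hr; norm_num at hr
    · exact h1
  have hrR : (1:ℝ) ≤ r := by exact_mod_cast hr0
  have h4 : ∀ k, 4 * n k ≤ n (k + r) := by
    intro k
    have h1 := n_pow n q hq h0 hn k r
    have h2 : (4:ℝ) * n k ≤ n (k + r) := by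
      refine le_trans ?_ h1
      gcongr
    exact_mod_cast h2
  -- constants
  set B : ℝ := 6 * Real.pi * r ^ 4 with hB
  have hB0 : 0 < B := by positivity
  set A : ℝ := v / 4 with hA
  have hA0 : 0 < A := by positivity
  set Lam : ℝ := √(2 * B / A) with hLam
  have hLam0 : 0 < Lam := Real.sqrt_pos.2 (by positivity)
  have hLam2 : Lam ^ 2 = 2 * B / A := Real.sq_sqrt (by positivity)
  set c : ℝ := A / (2 * Lam) with hc
  have hc0 : 0 < c := by positivity
  have hc1 : 0 < (r:ℝ) * √(2 * Real.pi) / 2 + √B := by positivity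
  have hc2 : 0 < √(Real.pi * r) := by positivity
  set η : ℝ := min (v / 4 / ((r:ℝ) * √(2 * Real.pi) / 2 + √B)) (c / 2 / √(Real.pi * r)) with hη
  have hη0 : 0 < η := lt_min (by positivity) (by positivity)
  have hη1 : η * ((r:ℝ) * √(2 * Real.pi) / 2 + √B) ≤ v / 4 := by
    rw [← le_div_iff₀ hc1]; exact min_le_left _ _
  have hη2 : η * √(Real.pi * r) ≤ c / 2 := by
    rw [← le_div_iff₀ hc2]; exact min_le_right _ _
  obtain ⟨d, P, hP, hPd⟩ := exists_approx h hhm η hη0
  have cP := V_cont hP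
  have hg : MemLp (fun x => h x - P x) 2 ν := hhm.sub (memLp_cont cP)
  have hgs : √(∫ x, (h x - P x) ^ 2 ∂ν) ≤ η := by
    calc √(∫ x, (h x - P x) ^ 2 ∂ν) ≤ √(η ^ 2) := Real.sqrt_le_sqrt hPd
      _ = η := Real.sqrt_sq hη0.le
  -- the shift
  obtain ⟨M, hM⟩ := exists_nat_gt (max (d:ℝ) (d / (q - 1)))
  have hM1 : (d:ℝ) < M := lt_of_le_of_lt (le_max_left _ _) hM
  have hM2 : (d:ℝ) / (q - 1) < M := lt_of_le_of_lt (le_max_right _ _) hM
  have hq1 : 0 < q - 1 := by linarith
  rw [div_lt_iff₀ hq1] at hM2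
  set a : ℕ → ℕ := fun k => n (M + k) with ha
  have ha0 : ∀ k, 0 < a k := fun k => h0 _
  have haM : ∀ k, (M:ℝ) ≤ a k := by
    intro k
    have := le_n n q hq h0 hn (M + k)
    have h2 : M ≤ n (M + k) := by omega
    exact_mod_cast h2
  have had : ∀ k, d < 2 * a k := by
    intro k
    have h1 := haM k
    have h2 : (d:ℝ) < 2 * a k := by linarith [show (0:ℝ) ≤ d from Nat.cast_nonneg d]
    exact_mod_cast h2
  have hamono : StrictMono a := by
    intro i j hij
    exact n_mono n q hq h0 hn (by omega)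
  have hgap : ∀ j k, j < k → d + 2 * a j < 2 * a k := by
    intro j k hjk
    have h1 : a (j + 1) ≤ a k := hamono.monotone hjk
    have h2 : q * (a j : ℝ) ≤ a (j + 1) := by
      have := hn (M + j)
      exact this
    have h3 : (a (j + 1) : ℝ) ≤ a k := by exact_mod_cast h1
    have h5 := haM j
    have h6 : (q - 1) * (M:ℝ) ≤ (q - 1) * a j := by gcongr
    have h7 : (d:ℝ) + 2 * a j < 2 * a k := by nlinarith [show (0:ℝ) ≤ d from Nat.cast_nonneg d]
    exact_mod_cast h7
  have ha4 : ∀ k, 4 * a k ≤ a (k + r) := by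
    intro k
    have := h4 (M + k)
    simp only [ha]
    rw [← add_assoc]
    exact this
  -- bound of the partial sums on E
  set K' : ℝ := |K| + M with hK'
  have hK'0 : 0 ≤ K' := by positivity
  have hSM : ∀ x, |T n M x| ≤ M := by
    intro x
    unfold T
    refine (Finset.abs_sum_le_sum_abs _ _).trans ?_
    calc ∑ i ∈ Finset.range M, |e (2 * (n i : ℤ)) x| ≤ ∑ i ∈ Finset.range M, (1:ℝ) :=
          Finset.sum_le_sum fun i _ => abs_e_le _ _
      _ = M := by simp
  have hsabs : |s| = 1 := by rcases hs with h1 | h1 <;> rw [h1] <;> simp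
  have hE2 : ∀ N, m0 ≤ N → ∀ x ∈ E, s * T a (r * N) x ≤ K' := by
    intro N hN x hx
    have h1 : T n (M + r * N) x = T n M x + T a (r * N) x := by
      unfold T
      rw [Finset.sum_range_add]
    have h2 : m0 ≤ M + r * N := by nlinarith
    have h3 := hx (M + r * N) h2
    rw [h1, mul_add] at h3
    have h5 : |s * T n M x| ≤ M := by rw [abs_mul, hsabs, one_mul]; exact hSM x
    have h6 := neg_abs_le (s * T n M x)
    have h7 := le_abs_self K
    linarith
  -- main estimate
  have main : ∀ N : ℕ, 1 ≤ N → m0 ≤ N → c / 2 * √N ≤ 2 * K' * v := by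
    intro N hN1 hN
    set R := T a (r * N) with hR
    have cR : Continuous R := T_cont _ _
    have hNR : (1:ℝ) ≤ N := by exact_mod_cast hN1
    have hN0 : (0:ℝ) < N := by linarith
    have hsN : 0 < √(N:ℝ) := Real.sqrt_pos.2 hN0
    have hsN2 : √(N:ℝ) ^ 2 = N := Real.sq_sqrt hN0.le
    have hR2 : ∫ x, R x ^ 2 ∂ν = Real.pi * r * N := by
      rw [hR, T_sq a hamono ha0]; push_cast; ring
    have hR4 : ∫ x, R x ^ 4 ∂ν ≤ B * N ^ 2 := T_four' a r hr0 ha4 ha0 N
    -- (1)
    have ihR : Integrable (fun x => h x * R x) ν := int_mul_of_cont hhi cR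
    have iPR : Integrable (fun x => P x * R x) ν := cont_int (cP.mul cR)
    have hI1 : |∫ x, h x * R x ∂ν| ≤ c / 2 * √N := by
      have h1 : ∫ x, h x * R x ∂ν = ∫ x, (h x - P x) * R x ∂ν := by
        have h2 : ∀ x, (h x - P x) * R x = h x * R x - P x * R x := fun x => by ring
        simp_rw [h2]
        rw [integral_sub ihR iPR, hR, T_pair1 a d had hP, sub_zero]
      rw [h1]
      refine (cs hg (memLp_cont cR)).trans ?_
      rw [hR2, Real.sqrt_mul (by positivity)]
      calc √(∫ x, (h x - P x) ^ 2 ∂ν) * (√(Real.pi * r) * √N) ≤ η * (√(Real.pi * r) * √N) := by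
            gcongr
        _ = (η * √(Real.pi * r)) * √N := by ring
        _ ≤ c / 2 * √N := by gcongr
    -- (2)
    have hIP : v - η * √(2 * Real.pi) ≤ ∫ x, P x ∂ν := by
      have h1 := cs hg (memLp_cont (continuous_const (y := (1:ℝ))))
      have h2 : ∫ x, (h x - P x) * (1:ℝ) ∂ν = v - ∫ x, P x ∂ν := by
        simp_rw [mul_one]
        rw [integral_sub hhi (cont_int cP), hIh]
      have h3 : ∫ _x, (1:ℝ) ^ 2 ∂ν = 2 * Real.pi := by
        rw [one_pow, int_const']; ring
      rw [h2, h3] at h1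
      have h5 := le_abs_self (v - ∫ x, P x ∂ν)
      have h6 : √(∫ x, (h x - P x) ^ 2 ∂ν) * √(2 * Real.pi) ≤ η * √(2 * Real.pi) := by gcongr
      linarith
    have ihR2 : Integrable (fun x => h x * R x ^ 2) ν := int_mul_of_cont hhi (cR.pow 2)
    have iPR2 : Integrable (fun x => P x * R x ^ 2) ν := cont_int (cP.mul (cR.pow 2))
    have hI2 : A * N ≤ ∫ x, h x * R x ^ 2 ∂ν := by
      have h1 : ∫ x, h x * R x ^ 2 ∂ν = ∫ x, P x * R x ^ 2 ∂ν + ∫ x, (h x - P x) * R x ^ 2 ∂ν := by
        have h2 : ∀ x, (h x - P x) * R x ^ 2 = h x * R x ^ 2 - P x * R x ^ 2 := fun x => by ring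
        simp_rw [h2]
        rw [integral_sub ihR2 iPR2]; ring
      have h2 := cs hg (memLp_cont (cR.pow 2))
      have h3 : ∫ x, ((R ^ 2) x) ^ 2 ∂ν ≤ B * N ^ 2 := by
        refine le_trans (le_of_eq ?_) hR4
        congr 1
        funext x
        simp only [Pi.pow_apply]
        ring
      have h5 : |∫ x, (h x - P x) * R x ^ 2 ∂ν| ≤ η * (√B * N) := by
        refine h2.trans ?_
        have h6 : √(∫ x, ((R ^ 2) x) ^ 2 ∂ν) ≤ √B * N := by
          calc √(∫ x, ((R ^ 2) x) ^ 2 ∂ν) ≤ √(B * N ^ 2) := Real.sqrt_le_sqrt h3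
            _ = √B * N := by rw [Real.sqrt_mul hB0.le, Real.sqrt_sq hN0.le]
        gcongr
      have h6 := neg_abs_le (∫ x, (h x - P x) * R x ^ 2 ∂ν)
      rw [h1, hR, T_pair a d had hgap hP]
      push_cast
      have h7 : (r:ℝ) * N / 2 * (v - η * √(2 * Real.pi)) ≤ (r:ℝ) * N / 2 * ∫ x, P x ∂ν := by
        gcongr
      have h8 : (N:ℝ) * (η * ((r:ℝ) * √(2 * Real.pi) / 2 + √B)) ≤ N * (v / 4) := by gcongr
      have h9 : (N:ℝ) / 2 * v ≤ r * N / 2 * v := by
        have : (0:ℝ) ≤ N * v := by positivity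
        nlinarith
      rw [← hR]
      rw [hA]
      nlinarith
    -- (3)
    have ihRabs : Integrable (fun x => h x * |R x|) ν := int_mul_of_cont hhi cR.abs
    have hI3 : ∫ x, h x * |R x| ∂ν ≤ 2 * K' * v + c / 2 * √N := by
      have h1 : ∫ x, h x * |R x| ∂ν ≤ ∫ x, (h x * (2 * K') - s * (h x * R x)) ∂ν := by
        apply integral_mono ihRabs ((hhi.mul_const _).sub (ihR.const_mul s))
        intro x
        show h x * |R x| ≤ h x * (2 * K') - s * (h x * R x)
        by_cases hx : x ∈ E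
        · have h2 := hE2 N hN x hx
          have h3 : |R x| = |s * R x| := by rw [abs_mul, hsabs, one_mul]
          have h5 : |s * R x| ≤ 2 * K' - s * R x := by
            rw [abs_le]
            constructor <;> linarith
          rw [h3]
          calc h x * |s * R x| ≤ h x * (2 * K' - s * R x) :=
                mul_le_mul_of_nonneg_left h5 (hh0 x)
            _ = _ := by ring
        · have h2 : h x = 0 := by rw [hh, indicator_of_notMem hx]
          rw [h2]; simp
      rw [integral_sub (hhi.mul_const _) (ihR.const_mul s), integral_mul_const, integral_const_mul,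
        hIh] at h1
      have h2 : -(s * ∫ x, h x * R x ∂ν) ≤ |∫ x, h x * R x ∂ν| := by
        have := neg_abs_le (s * ∫ x, h x * R x ∂ν)
        rw [abs_mul, hsabs, one_mul] at this
        linarith
      linarith
    -- (4)
    set lam := Lam * √N with hlam
    have hlam0 : 0 < lam := by positivity
    have iR4 : Integrable (fun x => R x ^ 4) ν := cont_int (cR.pow 4)
    have hI4 : (∫ x, h x * R x ^ 2 ∂ν) / lam - (∫ x, R x ^ 4 ∂ν) / lam ^ 3 ≤ ∫ x, h x * |R x| ∂ν := by
      have h1 : ∫ x, (h x * R x ^ 2 / lam - R x ^ 4 / lam ^ 3) ∂ν ≤ ∫ x, h x * |R x| ∂ν := by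
        apply integral_mono ((ihR2.div_const _).sub (iR4.div_const _)) ihRabs
        intro x
        show h x * R x ^ 2 / lam - R x ^ 4 / lam ^ 3 ≤ h x * |R x|
        have h2 := pt_ineq (R x) lam hlam0
        have h3 : h x * (R x ^ 2 / lam - R x ^ 4 / lam ^ 3) ≤ h x * |R x| :=
          mul_le_mul_of_nonneg_left h2 (hh0 x)
        have h5 : h x * (R x ^ 4 / lam ^ 3) ≤ R x ^ 4 / lam ^ 3 := by
          have : 0 ≤ R x ^ 4 / lam ^ 3 := by positivity
          have := hh1 x
          nlinarith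
        have h6 : h x * R x ^ 2 / lam = h x * (R x ^ 2 / lam) := by ring
        rw [h6]
        linarith
      rw [integral_sub (ihR2.div_const _) (iR4.div_const _), integral_div,
        integral_div] at h1
      exact h1
    have h5 : c * √N ≤ (∫ x, h x * R x ^ 2 ∂ν) / lam - (∫ x, R x ^ 4 ∂ν) / lam ^ 3 := by
      have h6 : A * N / lam ≤ (∫ x, h x * R x ^ 2 ∂ν) / lam := by gcongr
      have h7 : (∫ x, R x ^ 4 ∂ν) / lam ^ 3 ≤ B * N ^ 2 / lam ^ 3 := by gcongr
      have h8 : A * N / lam = 2 * c * √N := by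
        rw [hlam, hc]
        rw [div_eq_iff (by positivity)]
        have : A * (N:ℝ) = A * (√(N:ℝ)) ^ 2 := by rw [hsN2]
        rw [this]
        field_simp
      have h9 : B * N ^ 2 / lam ^ 3 = c * √N := by
        rw [hlam, hc, div_eq_iff (by positivity)]
        have h10 : B = A / 2 * Lam ^ 2 := by rw [hLam2]; field_simp
        have h11 : (N:ℝ) ^ 2 = (√(N:ℝ)) ^ 4 := by
          have : (√(N:ℝ)) ^ 4 = ((√(N:ℝ)) ^ 2) ^ 2 := by ring
          rw [this, hsN2]
        rw [h10, h11]
        field_simp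
      linarith
    linarith
  -- contradiction
  obtain ⟨N, hN⟩ := exists_nat_gt (max (max (1:ℝ) m0) ((2 * K' * v / (c / 2)) ^ 2))
  have hN1 : (1:ℝ) < N := lt_of_le_of_lt ((le_max_left _ _).trans (le_max_left _ _)) hN
  have hN2 : (m0:ℝ) < N := lt_of_le_of_lt ((le_max_right _ _).trans (le_max_left _ _)) hN
  have hN3 : (2 * K' * v / (c / 2)) ^ 2 < N := lt_of_le_of_lt (le_max_right _ _) hN
  have h1 := main N (by exact_mod_cast hN1.le) (by exact_mod_cast hN2.le)
  have h2 : 2 * K' * v / (c / 2) < √N := Real.lt_sqrt_of_sq_lt hN3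
  rw [div_lt_iff₀ (by positivity)] at h2
  linarith

end

end Pool.Agent.H769R2.Lac
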