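import Pool.Agent.H769R2.Lac3

/-! Density of the partial sums of lacunary cosine sums. -/

set_option autoImplicit false

namespace Pool.Agent.H769R2.Lac

open MeasureTheory Set Filter Topology

lemma abs_e_sub_le (l : ℕ) (x y : ℝ) : |e (2 * (l : ℤ)) x - e (2 * (l : ℤ)) y| ≤ l * |x - y| := by
  unfold e
  refine (Real.abs_cos_sub_cos_le _ _).trans (le_of_eq ?_)
  have h1 : ((2 * (l:ℤ) : ℤ) : ℝ) * x / 2 - ((2 * (l:ℤ) : ℤ) : ℝ) * y / 2 = l * (x - y) := by
    push_cast; ring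
  rw [h1, abs_mul, abs_of_nonneg (Nat.cast_nonneg l)]

lemma T_eq (n : ℕ → ℕ) (m : ℕ) (x : ℝ) :
    T n m x = ∑ k ∈ Finset.range m, Real.cos ((n k : ℝ) * x) := by
  unfold T e
  apply Finset.sum_congr rfl
  intro k _
  congr 1
  push_cast
  ring

section

variable (n : ℕ → ℕ) (q : ℝ) (hq : 1 < q) (h0 : ∀ k, 0 < n k)
  (hn : ∀ k, q * (n k : ℝ) ≤ (n (k + 1) : ℝ))

include hq hn

lemma sum_n_le (m : ℕ) : ∑ k ∈ Finset.range (m + 1), (n k : ℝ) ≤ q / (q - 1) * n m := by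
  have hq1 : 0 < q - 1 := by linarith
  induction m with
  | zero =>
    simp only [zero_add, Finset.sum_range_one]
    have h1 : 1 ≤ q / (q - 1) := by rw [le_div_iff₀ hq1]; linarith
    have h2 : (0:ℝ) ≤ n 0 := Nat.cast_nonneg _
    nlinarith
  | succ m ih =>
    rw [Finset.sum_range_succ]
    have h1 : q / (q - 1) * (n m : ℝ) ≤ 1 / (q - 1) * n (m + 1) := by
      have h2 := hn m
      have h3 : q / (q - 1) * (n m : ℝ) = 1 / (q - 1) * (q * n m) := by ring
      rw [h3]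
      gcongr
    have h2 : q / (q - 1) = 1 / (q - 1) + 1 := by field_simp; ring
    rw [h2, add_mul, one_mul]
    linarith

lemma T_lip (m m' : ℕ) (hm : m' ≤ m + 1) (x y : ℝ) :
    |T n m' x - T n m' y| ≤ q / (q - 1) * n m * |x - y| := by
  unfold T
  rw [← Finset.sum_sub_distrib]
  refine (Finset.abs_sum_le_sum_abs _ _).trans ?_
  calc ∑ k ∈ Finset.range m', |e (2 * (n k : ℤ)) x - e (2 * (n k : ℤ)) y|
      ≤ ∑ k ∈ Finset.range m', (n k : ℝ) * |x - y| :=
        Finset.sum_le_sum fun k _ => abs_e_sub_le (n k) x y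
    _ ≤ ∑ k ∈ Finset.range (m + 1), (n k : ℝ) * |x - y| := by
        apply Finset.sum_le_sum_of_subset_of_nonneg
        · exact Finset.range_mono hm
        · intro i _ _; positivity
    _ = (∑ k ∈ Finset.range (m + 1), (n k : ℝ)) * |x - y| := by rw [Finset.sum_mul]
    _ ≤ _ := by
        gcongr
        exact sum_n_le n q hq hn m

include h0

/-- near a crossing of the level `ξ` there is a point where the level is attained -/
lemma near (ξ ε : ℝ) (hε : 0 < ε) (x : ℝ) (m : ℕ) (h1 : T n m x < ξ) (h2 : ξ ≤ T n (m + 1) x) :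
    ∃ w m', m ≤ m' ∧ |x - w| ≤ Real.pi / n m ∧
      ∀ z ∈ Metric.closedBall w (ε / (2 * (q / (q - 1)) * n m)), |T n m' z - ξ| < ε := by
  have hpi := Real.pi_pos
  have hnm : (0:ℝ) < n m := by exact_mod_cast h0 m
  have hq1 : 0 < q - 1 := by linarith
  have hC : 0 < q / (q - 1) := by positivity
  set x1 := x + Real.pi / n m with hx1
  have hx : x ≤ x1 := by rw [hx1]; have : 0 ≤ Real.pi / n m := by positivity
                         linarith
  have hcos : 0 < e (2 * (n m : ℤ)) x := by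
    rw [T_succ] at h2; linarith
  have hcos1 : e (2 * (n m : ℤ)) x1 < 0 := by
    have : e (2 * (n m : ℤ)) x1 = - e (2 * (n m : ℤ)) x := by
      unfold e
      rw [← Real.cos_add_pi]
      congr 1
      rw [hx1]
      push_cast
      field_simp
    rw [this]; linarith
  -- the point
  have hw : ∃ w m', m ≤ m' ∧ m' ≤ m + 1 ∧ w ∈ Icc x x1 ∧ T n m' w = ξ := by
    rcases le_or_gt ξ (T n m x1) with h3 | h3
    · obtain ⟨w, hw1, hw2⟩ := intermediate_value_Icc hx (T_cont n m).continuousOn ⟨h1.le, h3⟩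
      exact ⟨w, m, le_rfl, Nat.le_succ _, hw1, hw2⟩
    · have h4 : T n (m + 1) x1 ≤ ξ := by rw [T_succ]; linarith
      obtain ⟨w, hw1, hw2⟩ := intermediate_value_Icc' hx (T_cont n (m+1)).continuousOn ⟨h4, h2⟩
      exact ⟨w, m + 1, Nat.le_succ _, le_rfl, hw1, hw2⟩
  obtain ⟨w, m', hm1, hm2, hwI, hwξ⟩ := hw
  refine ⟨w, m', hm1, ?_, ?_⟩
  · rw [abs_sub_comm, abs_of_nonneg (by linarith [hwI.1])]
    have := hwI.2
    rw [hx1] at this
    linarith
  · intro z hz
    rw [Metric.mem_closedBall, Real.dist_eq] at hz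
    rw [← hwξ]
    refine lt_of_le_of_lt (T_lip n q hq hn m m' hm2 z w) ?_
    calc q / (q - 1) * n m * |z - w| ≤ q / (q - 1) * n m * (ε / (2 * (q / (q - 1)) * n m)) := by
          gcongr
      _ = ε / 2 := by field_simp
      _ < ε := by linarith

omit hq hn h0 in
/-- upcrossings -/
lemma upcross (ξ x : ℝ) (hlo : ∀ m0, ∃ m ≥ m0, T n m x < ξ) (hhi : ∀ m0, ∃ m ≥ m0, ξ ≤ T n m x)
    (M : ℕ) : ∃ m ≥ M, T n m x < ξ ∧ ξ ≤ T n (m + 1) x := by
  classical
  obtain ⟨m1, h1, h2⟩ := hlo M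
  have hex : ∃ m, m1 ≤ m ∧ ξ ≤ T n m x := by
    obtain ⟨m, h3, h4⟩ := hhi m1
    exact ⟨m, h3, h4⟩
  set m2 := Nat.find hex with hm2
  obtain ⟨h3, h4⟩ := Nat.find_spec hex
  have hlt : m1 < m2 := by
    rcases h3.eq_or_lt with h5 | h5
    · exfalso
      rw [← h5] at h4
      linarith
    · exact h5
  refine ⟨m2 - 1, by omega, ?_, ?_⟩
  · have h5 := Nat.find_min hex (m := m2 - 1) (by omega)
    push Not at h5
    exact h5 (by omega)
  · have : m2 - 1 + 1 = m2 := by omega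
    rw [this]
    exact h4

lemma dens (ξ ε : ℝ) (hε : 0 < ε) (m0 : ℕ) :
    ∀ᵐ x ∂(volume.restrict {x | ∀ m ≥ m0, ε ≤ |T n m x - ξ|}),
      ¬ ((∀ m0, ∃ m ≥ m0, T n m x < ξ) ∧ (∀ m0, ∃ m ≥ m0, ξ ≤ T n m x)) := by
  have hpi := Real.pi_pos
  have hq1 : 0 < q - 1 := by linarith
  have hC : 0 < q / (q - 1) := by positivity
  set B : Set ℝ := {x | ∀ m ≥ m0, ε ≤ |T n m x - ξ|} with hB
  filter_upwards [IsUnifLocDoublingMeasure.ae_tendsto_measure_inter_div (volume : Measure ℝ) B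
    (2 * Real.pi * (q / (q - 1)) / ε)] with x hx
  rintro ⟨hlo, hhi⟩
  have hcr : ∀ M : ℕ, ∃ m ≥ max M m0, T n m x < ξ ∧ ξ ≤ T n (m + 1) x :=
    fun M => upcross n ξ x hlo hhi _
  choose m hm1 hm2 hm3 using hcr
  have hnr : ∀ M, ∃ w m', m M ≤ m' ∧ |x - w| ≤ Real.pi / n (m M) ∧
      ∀ z ∈ Metric.closedBall w (ε / (2 * (q / (q - 1)) * n (m M))), |T n m' z - ξ| < ε :=
    fun M => near n q hq h0 hn ξ ε hε x (m M) (hm2 M) (hm3 M)
  choose w m' hw1 hw2 hw3 using hnr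
  have hpos : ∀ M, (0:ℝ) < n (m M) := fun M => by exact_mod_cast h0 _
  have hδ0 : ∀ M, 0 < ε / (2 * (q / (q - 1)) * n (m M)) := by
    intro M
    have := hpos M
    positivity
  have hnM : ∀ M : ℕ, (M:ℝ) ≤ n (m M) := by
    intro M
    have h1 := le_n n q hq h0 hn (m M)
    have h2 := (le_max_left M m0).trans (hm1 M)
    have h3 : M ≤ n (m M) := by omega
    exact_mod_cast h3
  have hlim : Tendsto (fun M => ε / (2 * (q / (q - 1)) * n (m M))) atTop (𝓝[>] 0) := by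
    rw [tendsto_nhdsWithin_iff]
    refine ⟨?_, Eventually.of_forall fun M => hδ0 M⟩
    apply Tendsto.div_atTop tendsto_const_nhds
    apply Tendsto.const_mul_atTop (by positivity)
    exact tendsto_atTop_mono hnM tendsto_natCast_atTop_atTop
  have hball : ∀ᶠ M in atTop, x ∈ Metric.closedBall (w M)
      (2 * Real.pi * (q / (q - 1)) / ε * (ε / (2 * (q / (q - 1)) * n (m M)))) := by
    apply Eventually.of_forall
    intro M
    rw [Metric.mem_closedBall, Real.dist_eq]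
    refine (hw2 M).trans (le_of_eq ?_)
    have := hpos M
    field_simp
  have h1 := hx w _ hlim hball
  have h2 : ∀ M, volume (B ∩ Metric.closedBall (w M) (ε / (2 * (q / (q - 1)) * n (m M)))) /
      volume (Metric.closedBall (w M) (ε / (2 * (q / (q - 1)) * n (m M)))) = 0 := by
    intro M
    have h3 : B ∩ Metric.closedBall (w M) (ε / (2 * (q / (q - 1)) * n (m M))) = ∅ := by
      rw [Set.eq_empty_iff_forall_notMem]
      rintro z ⟨hz1, hz2⟩
      have h4 := hw3 M z hz2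
      have h5 := hz1 (m' M) (((le_max_right M m0).trans (hm1 M)).trans (hw1 M))
      linarith
    rw [h3, measure_empty, ENNReal.zero_div]
  simp_rw [h2] at h1
  exact zero_ne_one (tendsto_nhds_unique tendsto_const_nhds h1)

/-- almost every point is good -/
lemma ae_good : ∀ᵐ x ∂ν, ∀ ξ : ℝ, ∀ ε : ℝ, 0 < ε → ∃ᶠ m in atTop, |T n m x - ξ| < ε := by
  -- oscillation
  have hup : ∀ᵐ x ∂ν, ∀ (K m0 : ℕ), ∃ m ≥ m0, (K:ℝ) < T n m x := by
    rw [ae_all_iff]; intro K
    rw [ae_all_iff]; intro m0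
    have h1 := osc n q hq h0 hn 1 (Or.inl rfl) K m0
    rw [ae_iff]
    refine measure_mono_null ?_ h1
    intro x hx
    simp only [mem_ofPred_eq, not_exists, not_and, not_lt] at hx
    intro m hm
    rw [one_mul]
    exact hx m hm
  have hdown : ∀ᵐ x ∂ν, ∀ (K m0 : ℕ), ∃ m ≥ m0, T n m x < -(K:ℝ) := by
    rw [ae_all_iff]; intro K
    rw [ae_all_iff]; intro m0
    have h1 := osc n q hq h0 hn (-1) (Or.inr rfl) K m0
    rw [ae_iff]
    refine measure_mono_null ?_ h1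
    intro x hx
    simp only [mem_ofPred_eq, not_exists, not_and, not_lt] at hx
    intro m hm
    have := hx m hm
    linarith
  have hosc : ∀ᵐ x ∂ν, ∀ ξ : ℝ, (∀ m0, ∃ m ≥ m0, T n m x < ξ) ∧ (∀ m0, ∃ m ≥ m0, ξ ≤ T n m x) := by
    filter_upwards [hup, hdown] with x h1 h2 ξ
    obtain ⟨K, hK⟩ := exists_nat_gt |ξ|
    have h3 := le_abs_self ξ
    have h4 := neg_abs_le ξ
    refine ⟨fun m0 => ?_, fun m0 => ?_⟩
    · obtain ⟨m, hm, h⟩ := h2 K m0
      exact ⟨m, hm, by linarith⟩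
    · obtain ⟨m, hm, h⟩ := h1 K m0
      exact ⟨m, hm, by linarith⟩
  have hcount : ∀ᵐ x ∂ν, ∀ (ξ : ℚ) (j m0 : ℕ), ∃ m ≥ m0, |T n m x - ξ| < 1 / ((j:ℝ) + 1) := by
    rw [ae_all_iff]; intro ξ
    rw [ae_all_iff]; intro j
    rw [ae_all_iff]; intro m0
    have hd := dens n q hq h0 hn ξ (1 / ((j:ℝ) + 1)) (by positivity) m0
    set B : Set ℝ := {x | ∀ m ≥ m0, 1 / ((j:ℝ) + 1) ≤ |T n m x - ξ|} with hB
    have hBm : MeasurableSet B := by
      have hBc : IsClosed B := by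
        have : B = ⋂ m, ⋂ (_ : m ≥ m0), {x | 1 / ((j:ℝ) + 1) ≤ |T n m x - ξ|} := by
          ext x; simp [hB]
        rw [this]
        apply isClosed_iInter
        intro m
        apply isClosed_iInter
        intro _
        exact isClosed_le continuous_const (((T_cont n m).sub continuous_const).abs)
      exact hBc.measurableSet
    rw [ae_restrict_iff' hBm] at hd
    have hd' : ∀ᵐ x ∂ν, x ∈ B →
        ¬ ((∀ m0, ∃ m ≥ m0, T n m x < ξ) ∧ (∀ m0, ∃ m ≥ m0, (ξ:ℝ) ≤ T n m x)) :=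
      ae_restrict_of_ae hd
    filter_upwards [hd', hosc] with x h1 h2
    by_contra h3
    push Not at h3
    exact h1 h3 (h2 ξ)
  filter_upwards [hcount] with x hx ξ ε hε
  rw [frequently_atTop]
  intro m0
  obtain ⟨j, hj⟩ := exists_nat_one_div_lt (half_pos hε)
  obtain ⟨r, hr1, hr2⟩ := exists_rat_btwn (show ξ < ξ + ε / 2 by linarith)
  obtain ⟨m, hm, h⟩ := hx r j m0
  refine ⟨m, hm, ?_⟩
  have h1 : |T n m x - ξ| ≤ |T n m x - r| + |(r:ℝ) - ξ| := by
    have : T n m x - ξ = (T n m x - r) + (r - ξ) := by ring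
    rw [this]; exact abs_add_le _ _
  have h2 : |(r:ℝ) - ξ| < ε / 2 := by
    rw [abs_of_pos (by linarith)]; linarith
  linarith

end

end Pool.Agent.H769R2.Lac
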