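import Mathlib

/-! Hilbert space preliminaries: finite dimensional subspaces of `L²[0,1]` containing no nonzero
bounded function, and a perturbation lemma. -/

set_option autoImplicit false

namespace Pool.Agent.H769R2.ONS

open MeasureTheory Set Filter Topology

noncomputable abbrev mu : Measure ℝ := volume.restrict (Icc (0:ℝ) 1)

instance : IsProbabilityMeasure mu := ⟨by simp [mu]⟩

abbrev HH : Type := Lp ℝ 2 mu

/-- `|f| ≤ M` a.e. -/
def Bd (f : HH) (M : ℝ) : Prop := ∀ᵐ x ∂mu, |(f : ℝ → ℝ) x| ≤ M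

/-- the subspace of bounded functions -/
def Linf : Submodule ℝ HH where
  carrier := {f | ∃ M, Bd f M}
  zero_mem' := ⟨0, by
    filter_upwards [Lp.coeFn_zero ℝ 2 mu] with x hx
    rw [hx]; simp⟩
  add_mem' := by
    rintro f g ⟨M, hM⟩ ⟨N, hN⟩
    refine ⟨M + N, ?_⟩
    filter_upwards [Lp.coeFn_add f g, hM, hN] with x h1 h2 h3
    rw [h1, Pi.add_apply]
    exact (abs_add_le _ _).trans (add_le_add h2 h3)
  smul_mem' := by
    rintro c f ⟨M, hM⟩
    refine ⟨|c| * M, ?_⟩
    filter_upwards [Lp.coeFn_smul c f, hM] with x h1 h2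
    rw [h1, Pi.smul_apply, smul_eq_mul, abs_mul]
    gcongr

lemma mem_Linf (f : HH) : f ∈ Linf ↔ ∃ M, Bd f M := Iff.rfl

/-! ### Unbounded functions with disjoint supports -/

noncomputable def aa (j : ℕ) : ℝ := 1 / ((j:ℝ) + 2)
noncomputable def bb (j : ℕ) : ℝ := 1 / ((j:ℝ) + 1)

lemma aa_lt_bb (j : ℕ) : aa j < bb j := by
  unfold aa bb
  rw [div_lt_div_iff₀ (by positivity) (by positivity)]
  linarith

lemma aa_pos (j : ℕ) : 0 < aa j := by unfold aa; positivity

lemma bb_le (j : ℕ) : bb j ≤ 1 := by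
  unfold bb
  rw [div_le_one (by positivity)]
  have : (0:ℝ) ≤ j := Nat.cast_nonneg j
  linarith

lemma II_disj {j k : ℕ} (h : j ≠ k) : Disjoint (Ioc (aa j) (bb j)) (Ioc (aa k) (bb k)) := by
  wlog hjk : j < k generalizing j k
  · exact (this h.symm (by omega)).symm
  rw [Set.disjoint_left]
  rintro x ⟨h1, h2⟩ ⟨h3, h4⟩
  have h5 : bb k ≤ aa j := by
    unfold aa bb
    rw [div_le_div_iff₀ (by positivity) (by positivity)]
    have : (j:ℝ) + 1 ≤ k := by exact_mod_cast hjk
    linarith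
  linarith

/-- the unbounded function -/
noncomputable def kap (j : ℕ) : ℝ → ℝ :=
  (Ioc (aa j) (bb j)).indicator (fun t => (t - aa j) ^ (-(1/4) : ℝ))

lemma kap_meas (j : ℕ) : Measurable (kap j) := by
  unfold kap
  apply Measurable.indicator _ measurableSet_Ioc
  fun_prop

lemma kap_memLp (j : ℕ) : MemLp (kap j) 2 mu := by
  have h1 : IntervalIntegrable (fun x : ℝ => x ^ (-(1/2) : ℝ)) volume 0 (bb j - aa j) :=
    intervalIntegral.intervalIntegrable_rpow' (by norm_num)
  have h2 : IntervalIntegrable (fun x : ℝ => (x - aa j) ^ (-(1/2) : ℝ)) volume (aa j) (bb j) := by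
    have := h1.comp_sub_right (aa j)
    simpa using this
  have h3 : IntegrableOn (fun x : ℝ => (x - aa j) ^ (-(1/2) : ℝ)) (Ioc (aa j) (bb j)) := by
    rwa [intervalIntegrable_iff_integrableOn_Ioc_of_le (aa_lt_bb j).le] at h2
  have h4 : Integrable ((Ioc (aa j) (bb j)).indicator (fun x : ℝ => (x - aa j) ^ (-(1/2) : ℝ))) := by
    rwa [integrable_indicator_iff measurableSet_Ioc]
  rw [memLp_two_iff_integrable_sq (kap_meas j).aestronglyMeasurable]
  refine (h4.restrict (s := Icc (0:ℝ) 1)).congr (ae_of_all _ fun x => ?_)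
  unfold kap
  by_cases hx : x ∈ Ioc (aa j) (bb j)
  · simp only [indicator_of_mem hx]
    have h5 : 0 ≤ x - aa j := by linarith [hx.1]
    rw [← Real.rpow_natCast, ← Real.rpow_mul h5]
    norm_num
  · simp only [indicator_of_notMem hx]
    norm_num

noncomputable def kapL (j : ℕ) : HH := (kap_memLp j).toLp (kap j)

/-- linear independence modulo bounded functions -/
lemma kap_indep : LinearIndependent ℝ (fun j => (Linf.mkQ (kapL j) : HH ⧸ Linf)) := by
  rw [linearIndependent_iff']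
  intro s g hg j hj
  have h1 : Linf.mkQ (∑ i ∈ s, g i • kapL i) = 0 := by
    rw [map_sum]
    simp_rw [map_smul]
    exact hg
  rw [Submodule.mkQ_apply, Submodule.Quotient.mk_eq_zero] at h1
  obtain ⟨M, hM⟩ := h1
  by_contra hgj
  -- the sum on the j-th interval
  have hsum : ∀ᵐ x ∂mu, ((∑ i ∈ s, g i • kapL i : HH) : ℝ → ℝ) x = ∑ i ∈ s, g i * kap i x := by
    have h2 : ∀ᵐ x ∂mu, ∀ i, (kapL i : ℝ → ℝ) x = kap i x := by
      rw [ae_all_iff]; intro i; exact (kap_memLp i).coeFn_toLp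
    have h3 : ∀ᵐ x ∂mu, ∀ i, ((g i • kapL i : HH) : ℝ → ℝ) x = g i * (kapL i : ℝ → ℝ) x := by
      rw [ae_all_iff]; intro i
      filter_upwards [Lp.coeFn_smul (g i) (kapL i)] with x hx
      rw [hx]; rfl
    have h4 := Lp.coeFn_finsetSum (s := s) (fun i => g i • kapL i)
    filter_upwards [h2, h3, h4] with x a b c
    rw [c, Finset.sum_apply]
    apply Finset.sum_congr rfl
    intro i _
    rw [b, a]
  -- choose a small interval where the function is large
  have hgj' : 0 < |g j| := abs_pos.2 hgj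
  set M' : ℝ := |M| / |g j| + 1 with hM'
  have hM'0 : 0 < M' := by positivity
  set d : ℝ := min (bb j - aa j) (M' ^ (-4 : ℝ)) with hd
  have hd0 : 0 < d := lt_min (by linarith [aa_lt_bb j]) (by positivity)
  have hbig : ∀ x ∈ Ioo (aa j) (aa j + d), M' < kap j x := by
    intro x hx
    have hx' : x ∈ Ioc (aa j) (bb j) :=
      ⟨hx.1, by have := hx.2; have := min_le_left (bb j - aa j) (M' ^ (-4 : ℝ)); linarith⟩
    unfold kap
    rw [indicator_of_mem hx']
    have h5 : 0 < x - aa j := by linarith [hx.1]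
    have h6 : x - aa j < M' ^ (-4 : ℝ) := by
      have := hx.2; have := min_le_right (bb j - aa j) (M' ^ (-4 : ℝ)); linarith
    have h7 : (M' ^ (-4 : ℝ)) ^ (-(1/4) : ℝ) < (x - aa j) ^ (-(1/4) : ℝ) :=
      Real.rpow_lt_rpow_of_neg h5 h6 (by norm_num)
    rw [← Real.rpow_mul hM'0.le] at h7
    norm_num at h7
    exact h7
  have hnull : mu (Ioo (aa j) (aa j + d)) = 0 := by
    have h8 : ∀ᵐ x ∂mu, x ∉ Ioo (aa j) (aa j + d) := by
      filter_upwards [hM, hsum] with x h2 h3 hx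
      have hx' : x ∈ Ioc (aa j) (bb j) :=
        ⟨hx.1, by have := hx.2; have := min_le_left (bb j - aa j) (M' ^ (-4 : ℝ)); linarith⟩
      rw [h3] at h2
      have h4 : ∑ i ∈ s, g i * kap i x = g j * kap j x := by
        apply Finset.sum_eq_single_of_mem j hj
        intro i _ hij
        have h5 : x ∉ Ioc (aa i) (bb i) := fun h6 => Set.disjoint_left.1 (II_disj hij) h6 hx'
        unfold kap
        rw [indicator_of_notMem h5, mul_zero]
      rw [h4, abs_mul] at h2
      have h5 := hbig x hx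
      have h6 : |g j| * M' < |g j| * |kap j x| := by
        gcongr
        exact lt_of_lt_of_le h5 (le_abs_self _)
      have h7 : |g j| * M' = |M| + |g j| := by
        rw [hM']; field_simp
      have h9 := le_abs_self M
      linarith
    exact measure_eq_zero_iff_ae_notMem.2 h8
  rw [Measure.restrict_apply measurableSet_Ioo] at hnull
  have h9 : Ioo (aa j) (aa j + d) ∩ Icc (0:ℝ) 1 = Ioo (aa j) (aa j + d) := by
    apply inter_eq_left.2
    intro x hx
    have h1 := aa_pos j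
    have h2 := bb_le j
    have h3 := min_le_left (bb j - aa j) (M' ^ (-4 : ℝ))
    exact ⟨by linarith [hx.1], by linarith [hx.2]⟩
  rw [h9, Real.volume_Ioo, ENNReal.ofReal_eq_zero] at hnull
  linarith

lemma exists_notMem (V : Submodule ℝ HH) [FiniteDimensional ℝ V] : ∃ z, z ∉ V ⊔ Linf := by
  by_contra h
  push Not at h
  -- the quotient is finite dimensional
  have h1 : Function.Surjective (Linf.mkQ.comp V.subtype) := by
    intro y
    obtain ⟨x, rfl⟩ := Linf.mkQ_surjective y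
    obtain ⟨v, hv, l, hl, hvl⟩ := Submodule.mem_sup.1 (h x)
    refine ⟨⟨v, hv⟩, ?_⟩
    simp only [LinearMap.comp_apply, Submodule.subtype_apply]
    rw [← hvl, map_add]
    have : Linf.mkQ l = 0 := by
      rw [Submodule.mkQ_apply, Submodule.Quotient.mk_eq_zero]; exact hl
    rw [this, add_zero]
  have h2 : Module.Finite ℝ (HH ⧸ Linf) := Module.Finite.of_surjective _ h1
  have := kap_indep.finite
  exact not_finite ℕ

/-- Lemma A: density of the complement -/
lemma exists_near (V : Submodule ℝ HH) [FiniteDimensional ℝ V] (x : HH) (η : ℝ) (hη : 0 < η) :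
    ∃ y, ‖y - x‖ ≤ η ∧ y ∉ V ⊔ Linf := by
  by_cases hx : x ∈ V ⊔ Linf
  · obtain ⟨z, hz⟩ := exists_notMem V
    have hz0 : z ≠ 0 := fun h => hz (h ▸ Submodule.zero_mem _)
    have hzn : 0 < ‖z‖ := norm_pos_iff.2 hz0
    refine ⟨x + (η / ‖z‖) • z, ?_, ?_⟩
    · rw [add_sub_cancel_left, norm_smul, Real.norm_eq_abs, abs_of_pos (by positivity),
        div_mul_cancel₀ _ hzn.ne']
    · intro h
      apply hz
      have h1 : (η / ‖z‖) • z ∈ V ⊔ Linf := by
        have := Submodule.sub_mem _ h hx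
        rwa [add_sub_cancel_left] at this
      have h2 := Submodule.smul_mem _ (η / ‖z‖)⁻¹ h1
      rwa [smul_smul, inv_mul_cancel₀ (by positivity), one_smul] at h2
  · exact ⟨x, by simp [hη.le], hx⟩

lemma isClosed_Bd (K : ℝ) : IsClosed {f : HH | Bd f K} := by
  have hc : MemLp (fun _ : ℝ => K) 2 mu := memLp_const K
  have hc' : MemLp (fun _ : ℝ => -K) 2 mu := memLp_const (-K)
  have : {f : HH | Bd f K} = Icc (hc'.toLp _) (hc.toLp _) := by
    ext f
    rw [mem_Icc, ← Lp.coeFn_le, ← Lp.coeFn_le]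
    constructor
    · intro h
      constructor
      · filter_upwards [h, hc'.coeFn_toLp] with x h1 h2
        rw [h2]
        exact (abs_le.1 h1).1
      · filter_upwards [h, hc.coeFn_toLp] with x h1 h2
        rw [h2]
        exact (abs_le.1 h1).2
    · rintro ⟨h1, h2⟩
      show ∀ᵐ x ∂mu, |(f : ℝ → ℝ) x| ≤ K
      filter_upwards [h1, h2, hc'.coeFn_toLp, hc.coeFn_toLp] with x a b c d
      rw [c] at a
      rw [d] at b
      exact abs_le.2 ⟨a, b⟩
  rw [this]
  exact isClosed_Icc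

lemma norm_le_of_Bd {f : HH} {K : ℝ} (hK : 0 ≤ K) (h : Bd f K) : ‖f‖ ≤ K := by
  have := Lp.norm_le_of_ae_bound (f := f) hK (by
    filter_upwards [h] with x hx
    exact hx)
  have h2 : measureUnivNNReal mu = 1 := by
    unfold measureUnivNNReal
    rw [measure_univ]; simp
  rw [h2] at this
  simpa using this

/-- Lemma B: positive distance -/
lemma exists_dist (V : Submodule ℝ HH) [FiniteDimensional ℝ V] (hV : V ⊓ Linf = ⊥) (K κ : ℝ)
    (hK : 0 ≤ K) (hκ : 0 < κ) :
    ∃ δ > 0, ∀ f : HH, Bd f K → κ ≤ ‖f‖ → ∀ v ∈ V, δ ≤ ‖f - v‖ := by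
  set C : Set HH := {f | Bd f K} ∩ {f | κ ≤ ‖f‖} with hC
  have hCc : IsClosed C := (isClosed_Bd K).inter (isClosed_le continuous_const continuous_norm)
  set D : Set HH := (Subtype.val : V → HH) '' (Metric.closedBall 0 (K + 1)) with hD
  have hDc : IsCompact D :=
    (isCompact_closedBall (0 : V) (K + 1)).image continuous_subtype_val
  have hdisj : Disjoint D C := by
    rw [Set.disjoint_left]
    rintro _ ⟨v, _, rfl⟩ ⟨h1, h2⟩
    have h3 : (v : HH) ∈ V ⊓ Linf := ⟨v.2, ⟨K, h1⟩⟩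
    rw [hV, Submodule.mem_bot] at h3
    rw [mem_ofPred_eq, h3, norm_zero] at h2
    linarith
  obtain ⟨δ, hδ, hd⟩ := hdisj.exists_thickenings hDc hCc
  refine ⟨min δ 1, lt_min hδ one_pos, fun f hf1 hf2 v hv => ?_⟩
  by_cases hvn : ‖v‖ ≤ K + 1
  · by_contra hlt
    push Not at hlt
    have h1 : v ∈ D := ⟨⟨v, hv⟩, by
      rw [Metric.mem_closedBall, dist_zero_right]; exact hvn, rfl⟩
    have h2 : f ∈ C := ⟨hf1, hf2⟩
    have h3 : f ∈ Metric.thickening δ D := by
      rw [Metric.mem_thickening_iff]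
      exact ⟨v, h1, by rw [dist_eq_norm]; exact lt_of_lt_of_le hlt (min_le_left _ _)⟩
    have h4 : f ∈ Metric.thickening δ C := Metric.self_subset_thickening hδ _ h2
    exact Set.disjoint_left.1 hd h3 h4
  · push Not at hvn
    have h1 := norm_le_of_Bd hK hf1
    have h2 : ‖v‖ - ‖f‖ ≤ ‖f - v‖ := by
      rw [norm_sub_rev]; exact norm_sub_norm_le _ _
    exact (min_le_right _ _).trans (by linarith)

/-! ### Perturbation -/

/-- one vector -/
lemma perturb_one (V : Submodule ℝ HH) [FiniteDimensional ℝ V] (hV : V ⊓ Linf = ⊥) (x : HH) (θ : ℝ)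
    (hθ0 : 0 < θ) (hθ : θ ≤ 1/8) (h1 : ∀ v ∈ V, |inner ℝ v x| ≤ θ * ‖v‖) (h2 : |‖x‖ - 1| ≤ θ) :
    ∃ ψ : HH, ‖ψ‖ = 1 ∧ (∀ v ∈ V, inner ℝ v ψ = 0) ∧ ‖ψ - x‖ ≤ 7 * θ ∧
      (V ⊔ Submodule.span ℝ {ψ}) ⊓ Linf = ⊥ := by
  obtain ⟨y, hy1, hy2⟩ := exists_near V x θ hθ0
  set p : HH := V.starProjection y with hp
  have hpV : p ∈ V := Submodule.starProjection_apply_mem V y
  set z := y - p with hz
  have hzV : ∀ v ∈ V, inner ℝ v z = 0 := by
    intro v hv
    rw [real_inner_comm]
    exact Submodule.starProjection_inner_eq_zero y v hv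
  -- norm of p
  have hpn : ‖p‖ ≤ 2 * θ := by
    have h3 : inner ℝ p z = 0 := hzV p hpV
    have h4 : ‖p‖ ^ 2 = inner ℝ p y := by
      rw [hz, inner_sub_right, real_inner_self_eq_norm_sq] at h3
      linarith
    have h5 : inner ℝ p y = inner ℝ p x + inner ℝ p (y - x) := by
      rw [← inner_add_right]; congr 1; abel
    have h6 := h1 p hpV
    have h7 := abs_real_inner_le_norm p (y - x)
    have h8 : ‖p‖ ^ 2 ≤ 2 * θ * ‖p‖ := by
      rw [h4, h5]
      have h9 := le_abs_self (inner ℝ p x)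
      have h10 := le_abs_self (inner ℝ p (y - x))
      have h11 : ‖p‖ * ‖y - x‖ ≤ ‖p‖ * θ := by gcongr
      linarith
    by_contra h9
    push Not at h9
    have h10 : 0 < ‖p‖ := by linarith
    nlinarith
  have hzx : ‖z - x‖ ≤ 3 * θ := by
    have : z - x = (y - x) - p := by rw [hz]; abel
    rw [this]
    exact (norm_sub_le _ _).trans (by linarith)
  have hzn : |‖z‖ - 1| ≤ 4 * θ := by
    have h3 := abs_norm_sub_norm_le z x
    have h4 : ‖z‖ - 1 = (‖z‖ - ‖x‖) + (‖x‖ - 1) := by ring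
    rw [h4]
    exact (abs_add_le _ _).trans (by linarith)
  have hz0 : 0 < ‖z‖ := by
    have := (abs_le.1 hzn).1
    linarith
  refine ⟨‖z‖⁻¹ • z, ?_, ?_, ?_, ?_⟩
  · rw [norm_smul, norm_inv, norm_norm, inv_mul_cancel₀ hz0.ne']
  · intro v hv
    rw [inner_smul_right, hzV v hv, mul_zero]
  · have h3 : ‖‖z‖⁻¹ • z - z‖ ≤ 4 * θ := by
      have : ‖z‖⁻¹ • z - z = (‖z‖⁻¹ - 1) • z := by rw [sub_smul, one_smul]
      rw [this, norm_smul, Real.norm_eq_abs]
      have h4 : |‖z‖⁻¹ - 1| * ‖z‖ = |‖z‖ - 1| := by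
        have h5 : ‖z‖ = |‖z‖| := (abs_of_pos hz0).symm
        calc |‖z‖⁻¹ - 1| * ‖z‖ = |‖z‖⁻¹ - 1| * |‖z‖| := by rw [← h5]
          _ = |(‖z‖⁻¹ - 1) * ‖z‖| := (abs_mul _ _).symm
          _ = |1 - ‖z‖| := by congr 1; rw [sub_mul, inv_mul_cancel₀ hz0.ne', one_mul]
          _ = |‖z‖ - 1| := abs_sub_comm _ _
      rw [h4]
      exact hzn
    have h5 : ‖z‖⁻¹ • z - x = (‖z‖⁻¹ • z - z) + (z - x) := by abel
    rw [h5]
    exact (norm_add_le _ _).trans (by linarith)
  · rw [Submodule.eq_bot_iff]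
    rintro w ⟨hw1, hw2⟩
    obtain ⟨v, hv, s, hs, hvs⟩ := Submodule.mem_sup.1 hw1
    obtain ⟨c, rfl⟩ := Submodule.mem_span_singleton.1 hs
    by_cases hc : c = 0
    · rw [hc, zero_smul, add_zero] at hvs
      have : w ∈ V ⊓ Linf := ⟨hvs ▸ hv, hw2⟩
      rw [hV, Submodule.mem_bot] at this
      exact this
    · exfalso
      apply hy2
      have h3 : c • (‖z‖⁻¹ • z) ∈ V ⊔ Linf := by
        have h4 : c • (‖z‖⁻¹ • z) = w - v := by rw [← hvs]; abel
        rw [h4]
        exact Submodule.sub_mem _ (Submodule.mem_sup_right hw2) (Submodule.mem_sup_left hv)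
      rw [smul_smul] at h3
      have h5 := Submodule.smul_mem _ (c * ‖z‖⁻¹)⁻¹ h3
      rw [smul_smul, inv_mul_cancel₀ (mul_ne_zero hc (inv_ne_zero hz0.ne')), one_smul] at h5
      have h6 : y = z + p := by rw [hz]; abel
      rw [h6]
      exact Submodule.add_mem _ h5 (Submodule.mem_sup_left hpV)

/-- several vectors -/
lemma perturb (n : ℕ) : ∀ η : ℝ, 0 < η → ∃ θ > 0, ∀ (V : Submodule ℝ HH) (_ : FiniteDimensional ℝ V)
    (_ : V ⊓ Linf = ⊥) (x : ℕ → HH),
    (∀ i < n, ∀ v ∈ V, |inner ℝ v (x i)| ≤ θ * ‖v‖) →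
    (∀ i < n, |‖x i‖ - 1| ≤ θ) →
    (∀ i < n, ∀ j < n, i ≠ j → |inner ℝ (x i) (x j)| ≤ θ) →
    ∃ ψ : ℕ → HH, (∀ i < n, ‖ψ i‖ = 1) ∧ (∀ i < n, ∀ j < n, i ≠ j → inner ℝ (ψ i) (ψ j) = 0) ∧
      (∀ i < n, ∀ v ∈ V, inner ℝ v (ψ i) = 0) ∧ (∀ i < n, ‖ψ i - x i‖ ≤ η) ∧
      (V ⊔ Submodule.span ℝ (ψ '' {i | i < n})) ⊓ Linf = ⊥ := by
  induction n with
  | zero =>
    intro η hη
    refine ⟨1, one_pos, fun V _ hV x _ _ _ => ⟨x, by simp, by simp, by simp, by simp, ?_⟩⟩
    simpa using hV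
  | succ n ih =>
    intro η hη
    obtain ⟨θ', hθ'0, hθ'⟩ := ih η hη
    set θ : ℝ := min (min (1/8) (η / 7)) (θ' / 16) with hθ
    have hθ0 : 0 < θ := by positivity
    have hθ1 : θ ≤ 1/8 := (min_le_left _ _).trans (min_le_left _ _)
    have hθ2 : 7 * θ ≤ η := by
      have : θ ≤ η / 7 := (min_le_left _ _).trans (min_le_right _ _)
      linarith
    have hθ3 : 16 * θ ≤ θ' := by
      have : θ ≤ θ' / 16 := min_le_right _ _
      linarith
    refine ⟨θ, hθ0, fun V hVfd hV x hx1 hx2 hx3 => ?_⟩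
    obtain ⟨ψ0, p1, p2, p3, p4⟩ := perturb_one V hV (x 0) θ hθ0 hθ1 (hx1 0 (by omega)) (hx2 0 (by omega))
    have hfd : FiniteDimensional ℝ (V ⊔ Submodule.span ℝ {ψ0} : Submodule ℝ HH) := inferInstance
    have hxn : ∀ i < n + 1, ‖x i‖ ≤ 2 := by
      intro i hi
      have := (abs_le.1 (hx2 i hi)).2
      linarith
    have hψx : ∀ i < n, |inner ℝ ψ0 (x (i + 1))| ≤ 15 * θ := by
      intro i hi
      have h1 : inner ℝ ψ0 (x (i + 1)) = inner ℝ (x 0) (x (i+1)) + inner ℝ (ψ0 - x 0) (x (i+1)) := by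
        rw [← inner_add_left]; congr 1; abel
      rw [h1]
      refine (abs_add_le _ _).trans ?_
      have h2 := hx3 0 (by omega) (i+1) (by omega) (by omega)
      have h3 := abs_real_inner_le_norm (ψ0 - x 0) (x (i+1))
      have h4 : ‖ψ0 - x 0‖ * ‖x (i+1)‖ ≤ 7 * θ * 2 := by
        gcongr
        exact hxn _ (by omega)
      linarith
    obtain ⟨ψ, q1, q2, q3, q4, q5⟩ := hθ' (V ⊔ Submodule.span ℝ {ψ0}) hfd p4 (fun i => x (i + 1))
      (by
        intro i hi v hv
        obtain ⟨a, ha, b, hb, hab⟩ := Submodule.mem_sup.1 hv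
        obtain ⟨c, rfl⟩ := Submodule.mem_span_singleton.1 hb
        have h1 : inner ℝ a (c • ψ0) = 0 := by
          rw [inner_smul_right, p2 a ha, mul_zero]
        have h2 : ‖v‖ ^ 2 = ‖a‖ ^ 2 + c ^ 2 := by
          rw [← hab, norm_add_sq_real, h1, norm_smul, p1, Real.norm_eq_abs, mul_one, sq_abs]
          ring
        have h3 : ‖a‖ ≤ ‖v‖ := by
          apply le_of_sq_le_sq _ (norm_nonneg _)
          nlinarith [sq_nonneg c]
        have h4 : |c| ≤ ‖v‖ := by
          apply le_of_sq_le_sq _ (norm_nonneg _)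
          rw [sq_abs]
          nlinarith [sq_nonneg ‖a‖]
        rw [← hab, inner_add_left, inner_smul_left, hab]
        refine (abs_add_le _ _).trans ?_
        have h5 := hx1 (i+1) (by omega) a ha
        have h6 : |c * inner ℝ ψ0 (x (i+1))| ≤ ‖v‖ * (15 * θ) := by
          rw [abs_mul]
          gcongr
          exact hψx i hi
        have h7 : θ * ‖a‖ ≤ θ * ‖v‖ := by gcongr
        simp only [conj_trivial]
        nlinarith [norm_nonneg v])
      (by
        intro i hi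
        have := hx2 (i+1) (by omega)
        linarith)
      (by
        intro i hi j hj hij
        have := hx3 (i+1) (by omega) (j+1) (by omega) (by omega)
        linarith)
    have hψ0mem : ψ0 ∈ V ⊔ Submodule.span ℝ {ψ0} :=
      Submodule.mem_sup_right (Submodule.mem_span_singleton_self _)
    refine ⟨fun i => Nat.casesOn i ψ0 ψ, ?_, ?_, ?_, ?_, ?_⟩
    · rintro (_ | i) hi
      · exact p1
      · exact q1 i (by omega)
    · rintro (_ | i) hi (_ | j) hj hij
      · exact absurd rfl hij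
      · exact q3 j (by omega) ψ0 hψ0mem
      · show inner ℝ (ψ i) ψ0 = 0
        rw [real_inner_comm]
        exact q3 i (by omega) ψ0 hψ0mem
      · exact q2 i (by omega) j (by omega) (by omega)
    · rintro (_ | i) hi v hv
      · exact p2 v hv
      · exact q3 i (by omega) v (Submodule.mem_sup_left hv)
    · rintro (_ | i) hi
      · exact p3.trans hθ2
      · exact q4 i (by omega)
    · have h1 : (fun i => Nat.casesOn i ψ0 ψ : ℕ → HH) '' {i | i < n + 1} =
          {ψ0} ∪ ψ '' {i | i < n} := by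
        ext y
        simp only [mem_image, mem_union, mem_singleton_iff, mem_ofPred_eq]
        constructor
        · rintro ⟨(_ | i), hi, rfl⟩
          · left; rfl
          · right; exact ⟨i, by omega, rfl⟩
        · rintro (rfl | ⟨i, hi, rfl⟩)
          · exact ⟨0, by omega, rfl⟩
          · exact ⟨i + 1, by omega, rfl⟩
      rw [h1, Submodule.span_union, ← sup_assoc]
      exact q5

end Pool.Agent.H769R2.ONS
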