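import Mathlib

/-! The Haar functions on `{0, ..., 2^J - 1}`, ordered by their midpoints. -/

set_option autoImplicit false

namespace Pool.Agent.H769R2.ONS

open Finset

/-- the Haar function with midpoint `m` on `{0, ..., 2^J - 1}`, with values in `{-1, 0, 1}`
(zero for `m = 0`) -/
def Hf : ℕ → ℕ → ℕ → ℝ
  | 0, _, _ => 0
  | J + 1, m, l =>
    if m < 2 ^ J then (if l < 2 ^ J then Hf J m l else 0)
    else if m = 2 ^ J then (if l < 2 ^ J then 1 else -1)
    else (if l < 2 ^ J then 0 else Hf J (m - 2 ^ J) (l - 2 ^ J))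

/-- number of binary digits one -/
def pop : ℕ → ℕ → ℕ
  | 0, _ => 0
  | J + 1, l => if l < 2 ^ J then pop J l else pop J (l - 2 ^ J) + 1

lemma sum_two_pow_succ (J : ℕ) (f : ℕ → ℝ) :
    ∑ l ∈ range (2 ^ (J + 1)), f l = ∑ l ∈ range (2 ^ J), f l + ∑ l ∈ range (2 ^ J), f (2 ^ J + l) := by
  have : 2 ^ (J + 1) = 2 ^ J + 2 ^ J := by rw [pow_succ]; ring
  rw [this, sum_range_add]

lemma Hf_zero (J l : ℕ) : Hf J 0 l = 0 := by
  induction J with
  | zero => rfl
  | succ J ih =>
    simp only [Hf]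
    rw [if_pos (by positivity), ih]
    simp

lemma Hf_lo_lo {J m l : ℕ} (hm : m < 2 ^ J) (hl : l < 2 ^ J) : Hf (J + 1) m l = Hf J m l := by
  simp only [Hf, if_pos hm, if_pos hl]

lemma Hf_lo_hi {J m : ℕ} (hm : m < 2 ^ J) (l : ℕ) : Hf (J + 1) m (2 ^ J + l) = 0 := by
  simp only [Hf, if_pos hm]
  rw [if_neg (by omega)]

lemma Hf_mid_lo {J l : ℕ} (hl : l < 2 ^ J) : Hf (J + 1) (2 ^ J) l = 1 := by
  simp only [Hf, lt_irrefl, if_false, if_true, if_pos hl]

lemma Hf_mid_hi (J l : ℕ) : Hf (J + 1) (2 ^ J) (2 ^ J + l) = -1 := by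
  simp only [Hf, lt_irrefl, if_false, if_true]
  rw [if_neg (by omega)]

lemma Hf_hi_lo {J m l : ℕ} (hm : 0 < m) (hl : l < 2 ^ J) : Hf (J + 1) (2 ^ J + m) l = 0 := by
  simp only [Hf]
  rw [if_neg (by omega), if_neg (by omega), if_pos hl]

lemma Hf_hi_hi {J m l : ℕ} (hm : 0 < m) : Hf (J + 1) (2 ^ J + m) (2 ^ J + l) = Hf J m l := by
  simp only [Hf]
  rw [if_neg (by omega), if_neg (by omega), if_neg (by omega), Nat.add_sub_cancel_left,
    Nat.add_sub_cancel_left]

/-- case analysis on an index -/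
lemma cases_idx {J m : ℕ} (hm : m < 2 ^ (J + 1)) :
    m < 2 ^ J ∨ m = 2 ^ J ∨ ∃ m', 0 < m' ∧ m' < 2 ^ J ∧ m = 2 ^ J + m' := by
  rw [pow_succ] at hm
  rcases lt_trichotomy m (2 ^ J) with h | h | h
  · exact Or.inl h
  · exact Or.inr (Or.inl h)
  · exact Or.inr (Or.inr ⟨m - 2 ^ J, by omega, by omega, by omega⟩)

/-- F1: mean zero -/
lemma Hf_sum (J : ℕ) : ∀ m < 2 ^ J, ∑ l ∈ range (2 ^ J), Hf J m l = 0 := by
  induction J with
  | zero => intro m _; simp [Hf]
  | succ J ih =>
    intro m hm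
    rw [sum_two_pow_succ]
    rcases cases_idx hm with h | rfl | ⟨m', h1, h2, rfl⟩
    · rw [sum_congr rfl (fun l hl => Hf_lo_lo h (mem_range.1 hl)), ih m h,
        sum_congr rfl (fun l _ => Hf_lo_hi h l)]
      simp
    · rw [sum_congr rfl (fun l hl => Hf_mid_lo (mem_range.1 hl)),
        sum_congr rfl (fun l _ => Hf_mid_hi J l)]
      simp
    · rw [sum_congr rfl (fun l hl => Hf_hi_lo h1 (mem_range.1 hl)),
        sum_congr rfl (fun l _ => Hf_hi_hi h1), ih m' h2]
      simp

/-- F2: orthogonality -/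
lemma Hf_orth (J : ℕ) : ∀ m < 2 ^ J, ∀ m' < 2 ^ J, m ≠ m' →
    ∑ l ∈ range (2 ^ J), Hf J m l * Hf J m' l = 0 := by
  induction J with
  | zero => intro m _ m' _ _; simp [Hf]
  | succ J ih =>
    -- it is enough to treat m < m'
    have key : ∀ m < 2 ^ (J + 1), ∀ m' < 2 ^ (J + 1), m < m' →
        ∑ l ∈ range (2 ^ (J + 1)), Hf (J + 1) m l * Hf (J + 1) m' l = 0 := by
      intro m hm m' hm' hlt
      rw [sum_two_pow_succ]
      rcases cases_idx hm with h | rfl | ⟨a, h1, h2, rfl⟩
      · have e0 : ∑ l ∈ range (2 ^ J), Hf (J + 1) m (2 ^ J + l) * Hf (J + 1) m' (2 ^ J + l) = 0 := by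
          apply sum_eq_zero
          intro l _
          rw [Hf_lo_hi h, zero_mul]
        rw [e0, add_zero]
        rcases cases_idx hm' with h' | rfl | ⟨b, h1', h2', rfl⟩
        · rw [sum_congr rfl (fun l hl => by
            rw [Hf_lo_lo h (mem_range.1 hl), Hf_lo_lo h' (mem_range.1 hl)])]
          exact ih m h m' h' hlt.ne
        · rw [sum_congr rfl (fun l hl => by
            rw [Hf_lo_lo h (mem_range.1 hl), Hf_mid_lo (mem_range.1 hl), mul_one])]
          exact Hf_sum J m h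
        · apply sum_eq_zero
          intro l hl
          rw [Hf_hi_lo h1' (mem_range.1 hl), mul_zero]
      · rcases cases_idx hm' with h' | rfl | ⟨b, h1', h2', rfl⟩
        · omega
        · omega
        · have e1 : ∑ l ∈ range (2 ^ J), Hf (J + 1) (2 ^ J) l * Hf (J + 1) (2 ^ J + b) l = 0 := by
            apply sum_eq_zero
            intro l hl
            rw [Hf_hi_lo h1' (mem_range.1 hl), mul_zero]
          have e2 : ∑ l ∈ range (2 ^ J), Hf (J + 1) (2 ^ J) (2 ^ J + l) *
              Hf (J + 1) (2 ^ J + b) (2 ^ J + l) = -∑ l ∈ range (2 ^ J), Hf J b l := by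
            rw [← sum_neg_distrib]
            apply sum_congr rfl
            intro l _
            rw [Hf_mid_hi, Hf_hi_hi h1']; ring
          rw [e1, e2, Hf_sum J b h2']; simp
      · rcases cases_idx hm' with h' | rfl | ⟨b, h1', h2', rfl⟩
        · omega
        · omega
        · have e1 : ∑ l ∈ range (2 ^ J), Hf (J + 1) (2 ^ J + a) l * Hf (J + 1) (2 ^ J + b) l = 0 := by
            apply sum_eq_zero
            intro l hl
            rw [Hf_hi_lo h1 (mem_range.1 hl), zero_mul]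
          have e2 : ∑ l ∈ range (2 ^ J), Hf (J + 1) (2 ^ J + a) (2 ^ J + l) *
              Hf (J + 1) (2 ^ J + b) (2 ^ J + l) = ∑ l ∈ range (2 ^ J), Hf J a l * Hf J b l := by
            apply sum_congr rfl
            intro l _
            rw [Hf_hi_hi h1, Hf_hi_hi h1']
          rw [e1, e2, ih a h2 b h2' (by omega)]; simp
    intro m hm m' hm' hne
    rcases lt_or_gt_of_ne hne with h | h
    · exact key m hm m' hm' h
    · rw [sum_congr rfl (fun l _ => mul_comm _ _)]
      exact key m' hm' m hm h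

/-- the values are `-1, 0, 1` -/
lemma Hf_values (J : ℕ) : ∀ m l, Hf J m l = -1 ∨ Hf J m l = 0 ∨ Hf J m l = 1 := by
  induction J with
  | zero => intro m l; simp [Hf]
  | succ J ih =>
    intro m l
    simp only [Hf]
    split_ifs
    · exact ih m l
    · simp
    · simp
    · simp
    · simp
    · exact ih _ _

lemma abs_Hf (J m l : ℕ) : |Hf J m l| = Hf J m l ^ 2 := by
  rcases Hf_values J m l with h | h | h <;> rw [h] <;> norm_num

lemma Hf_sq_le (J m l : ℕ) : Hf J m l ^ 2 ≤ 1 := by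
  rcases Hf_values J m l with h | h | h <;> rw [h] <;> norm_num

/-- F3 -/
lemma Hf_sum_sq (J : ℕ) : ∀ l < 2 ^ J, ∑ m ∈ range (2 ^ J), Hf J m l ^ 2 = J := by
  induction J with
  | zero => intro l _; simp [Hf]
  | succ J ih =>
    intro l hl
    rw [sum_two_pow_succ]
    have hsplit : ∀ f : ℕ → ℝ, ∑ m ∈ range (2 ^ J), f m = f 0 + ∑ m ∈ (range (2 ^ J)).erase 0, f m := by
      intro f
      exact (add_sum_erase _ f (mem_range.2 (by positivity))).symm
    by_cases h : l < 2 ^ J
    · have e1 : ∑ m ∈ range (2 ^ J), Hf (J + 1) m l ^ 2 = J := by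
        rw [← ih l h]
        exact sum_congr rfl (fun m hm => by rw [Hf_lo_lo (mem_range.1 hm) h])
      have e2 : ∑ m ∈ range (2 ^ J), Hf (J + 1) (2 ^ J + m) l ^ 2 = 1 := by
        rw [hsplit, add_zero, Hf_mid_lo h, sum_eq_zero]
        · norm_num
        · intro m hm
          rw [mem_erase, mem_range] at hm
          rw [Hf_hi_lo (by omega) h]; norm_num
      rw [e1, e2]; push_cast; ring
    · obtain ⟨l', rfl⟩ : ∃ l', l = 2 ^ J + l' := ⟨l - 2 ^ J, by omega⟩
      rw [pow_succ] at hl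
      have hl' : l' < 2 ^ J := by omega
      have e1 : ∑ m ∈ range (2 ^ J), Hf (J + 1) m (2 ^ J + l') ^ 2 = 0 := by
        apply sum_eq_zero
        intro m hm
        rw [Hf_lo_hi (mem_range.1 hm)]; norm_num
      have e2 : ∑ m ∈ range (2 ^ J), Hf (J + 1) (2 ^ J + m) (2 ^ J + l') ^ 2 = 1 + J := by
        have h3 : (J:ℝ) = ∑ m ∈ (range (2 ^ J)).erase 0, Hf J m l' ^ 2 := by
          rw [← ih l' hl', hsplit, Hf_zero]; norm_num
        rw [hsplit, add_zero, Hf_mid_hi, h3]
        congr 1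
        · norm_num
        · apply sum_congr rfl
          intro m hm
          rw [mem_erase, mem_range] at hm
          rw [Hf_hi_hi (by omega)]
      rw [e1, e2]; push_cast; ring

/-- F4 -/
lemma Hf_pos (J : ℕ) : ∀ m, 0 < m → m < 2 ^ J → 0 < ∑ l ∈ range (2 ^ J), Hf J m l ^ 2 := by
  induction J with
  | zero => intro m h1 h2; simp at h2; omega
  | succ J ih =>
    intro m h0 hm
    rw [sum_two_pow_succ]
    have hn1 : 0 ≤ ∑ l ∈ range (2 ^ J), Hf (J + 1) m l ^ 2 := sum_nonneg fun l _ => sq_nonneg _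
    have hn2 : 0 ≤ ∑ l ∈ range (2 ^ J), Hf (J + 1) m (2 ^ J + l) ^ 2 :=
      sum_nonneg fun l _ => sq_nonneg _
    rcases cases_idx hm with h | rfl | ⟨m', h1, h2, rfl⟩
    · have := ih m h0 h
      rw [sum_congr rfl (fun l hl => by rw [Hf_lo_lo h (mem_range.1 hl)])]
      linarith
    · rw [sum_congr rfl (fun l hl => by rw [Hf_mid_lo (mem_range.1 hl)])]
      have h3 : ∑ l ∈ range (2 ^ J), (1:ℝ) ^ 2 = 2 ^ J := by simp
      rw [h3]
      have : (0:ℝ) < 2 ^ J := by positivity
      linarith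
    · have := ih m' h1 h2
      have h3 : ∑ l ∈ range (2 ^ J), Hf (J + 1) (2 ^ J + m') (2 ^ J + l) ^ 2 =
          ∑ l ∈ range (2 ^ J), Hf J m' l ^ 2 := sum_congr rfl fun l _ => by rw [Hf_hi_hi h1]
      rw [h3]
      linarith

/-- F5: the large partial sum -/
lemma Hf_partial (J : ℕ) : ∀ l < 2 ^ J, ∑ m ∈ range (l + 1), Hf J m l = -(pop J l : ℝ) := by
  induction J with
  | zero => intro l _; simp [Hf, pop]
  | succ J ih =>
    intro l hl
    by_cases h : l < 2 ^ J
    · have h1 : pop (J + 1) l = pop J l := by simp only [pop, if_pos h]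
      rw [h1, ← ih l h]
      apply sum_congr rfl
      intro m hm
      rw [mem_range] at hm
      exact Hf_lo_lo (by omega) h
    · obtain ⟨l', rfl⟩ : ∃ l', l = 2 ^ J + l' := ⟨l - 2 ^ J, by omega⟩
      rw [pow_succ] at hl
      have hl' : l' < 2 ^ J := by omega
      have h1 : pop (J + 1) (2 ^ J + l') = pop J l' + 1 := by
        simp only [pop, if_neg h, Nat.add_sub_cancel_left]
      rw [h1, add_assoc, sum_range_add, sum_eq_zero (s := range (2 ^ J)), zero_add]
      · rw [sum_range_succ', add_zero, Hf_mid_hi]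
        have h2 := ih l' hl'
        rw [sum_range_succ', Hf_zero, add_zero] at h2
        have h3 : ∑ k ∈ range l', Hf (J + 1) (2 ^ J + (k + 1)) (2 ^ J + l') =
            ∑ k ∈ range l', Hf J (k + 1) l' :=
          sum_congr rfl fun k _ => Hf_hi_hi (by omega)
        rw [h3, h2]
        push_cast; ring
      · intro m hm
        exact Hf_lo_hi (mem_range.1 hm) _

/-- F6: variance of the number of ones -/
lemma pop_var (J : ℕ) :
    ∑ l ∈ range (2 ^ J), ((pop J l : ℝ) - (J : ℝ) / 2) ^ 2 = (2:ℝ) ^ J * (J : ℝ) / 4 := by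
  induction J with
  | zero => simp [pop]
  | succ J ih =>
    rw [sum_two_pow_succ]
    have e1 : ∑ l ∈ range (2 ^ J), ((pop (J + 1) l : ℝ) - (J + 1 : ℕ) / 2) ^ 2 +
        ∑ l ∈ range (2 ^ J), ((pop (J + 1) (2 ^ J + l) : ℝ) - (J + 1 : ℕ) / 2) ^ 2 =
        ∑ l ∈ range (2 ^ J), (2 * ((pop J l : ℝ) - J / 2) ^ 2 + 1 / 2) := by
      rw [← sum_add_distrib]
      apply sum_congr rfl
      intro l hl
      rw [mem_range] at hl
      have h1 : pop (J + 1) l = pop J l := by simp only [pop, if_pos hl]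
      have h2 : pop (J + 1) (2 ^ J + l) = pop J l + 1 := by
        simp only [pop, if_neg (show ¬ 2 ^ J + l < 2 ^ J by omega), Nat.add_sub_cancel_left]
      rw [h1, h2]
      push_cast
      ring
    rw [e1, sum_add_distrib, ← mul_sum, ih]
    simp only [sum_const, card_range, nsmul_eq_mul]
    push_cast
    ring

/-- few points have few ones -/
lemma pop_few (J : ℕ) (hJ : 0 < J) :
    (((range (2 ^ J)).filter (fun l => (pop J l : ℝ) < J / 4)).card : ℝ) ≤ 2 ^ J * (4 / J) := by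
  have hJ' : (0:ℝ) < J := by exact_mod_cast hJ
  have h1 : (((range (2 ^ J)).filter (fun l => (pop J l : ℝ) < J / 4)).card : ℝ) * ((J:ℝ) / 4) ^ 2 ≤
      (2:ℝ) ^ J * J / 4 := by
    rw [← pop_var J]
    calc (((range (2 ^ J)).filter (fun l => (pop J l : ℝ) < J / 4)).card : ℝ) * ((J:ℝ) / 4) ^ 2
        = ∑ l ∈ (range (2 ^ J)).filter (fun l => (pop J l : ℝ) < J / 4), ((J:ℝ) / 4) ^ 2 := by
          rw [sum_const, nsmul_eq_mul]
      _ ≤ ∑ l ∈ (range (2 ^ J)).filter (fun l => (pop J l : ℝ) < J / 4),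
            ((pop J l : ℝ) - J / 2) ^ 2 := by
          apply sum_le_sum
          intro l hl
          rw [mem_filter] at hl
          nlinarith [hl.2]
      _ ≤ _ := by
          apply sum_le_sum_of_subset_of_nonneg (filter_subset _ _)
          intro i _ _
          positivity
  have h2 : (2:ℝ) ^ J * (4 / J) = (2 ^ J * J / 4) / ((J:ℝ) / 4) ^ 2 := by
    field_simp
  rw [h2, le_div_iff₀ (by positivity)]
  exact h1

end Pool.Agent.H769R2.ONS
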