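import Pool.Agent.H769R2.ONS1
import Pool.Agent.H769R2.ONS2

/-! Dyadic functions on `[0,1]`. -/

set_option autoImplicit false

namespace Pool.Agent.H769R2.ONS

open MeasureTheory Set Filter Topology

/-- index of the dyadic interval of length `2^(-L)` that contains `t` -/
noncomputable def ix (L : ℕ) (t : ℝ) : ℕ := ⌊(2:ℝ) ^ L * t⌋₊

lemma ix_meas (L : ℕ) : Measurable (ix L) := by
  unfold ix
  exact Nat.measurable_floor.comp (measurable_const.mul measurable_id)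

lemma ix_lt {L : ℕ} {t : ℝ} (h : t ∈ Ico (0:ℝ) 1) : ix L t < 2 ^ L := by
  unfold ix
  have h0 : (0:ℝ) < 2 ^ L := by positivity
  rw [Nat.floor_lt (mul_nonneg h0.le h.1)]
  push_cast
  nlinarith [h.2]

lemma ix_le {L : ℕ} {t : ℝ} (h : t ∈ Icc (0:ℝ) 1) : ix L t ≤ 2 ^ L := by
  unfold ix
  have h0 : (0:ℝ) < 2 ^ L := by positivity
  apply Nat.floor_le_of_le
  push_cast
  nlinarith [h.2]

lemma ix_div (L b : ℕ) (t : ℝ) : ix (L + b) t / 2 ^ b = ix L t := by
  unfold ix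
  have h : (2:ℝ) ^ L * t = ((2:ℝ) ^ (L + b) * t) / ((2 ^ b : ℕ) : ℝ) := by
    push_cast
    rw [pow_add]
    field_simp
  rw [h, Nat.floor_div_natCast]

lemma ix_eq {L l : ℕ} {t : ℝ} (h : t ∈ Ico ((l:ℝ) / 2 ^ L) (((l:ℝ) + 1) / 2 ^ L)) : ix L t = l := by
  unfold ix
  have h0 : (0:ℝ) < 2 ^ L := by positivity
  have h1 := h.1
  have h2 := h.2
  rw [div_le_iff₀ h0] at h1
  rw [lt_div_iff₀ h0] at h2
  rw [Nat.floor_eq_iff]
  · constructor <;> linarith
  · have : (0:ℝ) ≤ l := Nat.cast_nonneg l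
    linarith

lemma F_meas (L : ℕ) (F : ℕ → ℝ) : Measurable fun t => F (ix L t) :=
  (measurable_of_countable F).comp (ix_meas L)

lemma F_bdd (L : ℕ) (F : ℕ → ℝ) : ∃ C, ∀ t ∈ Icc (0:ℝ) 1, |F (ix L t)| ≤ C := by
  refine ⟨∑ l ∈ Finset.range (2 ^ L + 1), |F l|, fun t ht => ?_⟩
  have h := ix_le (L := L) ht
  exact Finset.single_le_sum (f := fun l => |F l|) (fun i _ => abs_nonneg _)
    (Finset.mem_range.2 (by omega))

lemma F_memLp (L : ℕ) (F : ℕ → ℝ) (p : ENNReal) : MemLp (fun t => F (ix L t)) p mu := by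
  obtain ⟨C, hC⟩ := F_bdd L F
  exact MemLp.of_bound (F_meas L F).aestronglyMeasurable C
    ((ae_restrict_iff' measurableSet_Icc).2 (ae_of_all _ hC))

lemma F_int (L : ℕ) (F : ℕ → ℝ) : Integrable (fun t => F (ix L t)) mu :=
  (F_memLp L F 1).integrable le_rfl

lemma mu_integral (f : ℝ → ℝ) : ∫ x, f x ∂mu = ∫ x in (0:ℝ)..1, f x := by
  rw [intervalIntegral.integral_of_le zero_le_one, ← integral_Icc_eq_integral_Ioc]

/-- D1 -/
lemma integral_ix (L : ℕ) (F : ℕ → ℝ) :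
    ∫ t, F (ix L t) ∂mu = (1 / 2 ^ L) * ∑ l ∈ Finset.range (2 ^ L), F l := by
  rw [mu_integral]
  have h0 : (0:ℝ) < 2 ^ L := by positivity
  set a : ℕ → ℝ := fun l => (l:ℝ) / 2 ^ L with ha
  have h1 : ∀ k < 2 ^ L, IntervalIntegrable (fun t => F (ix L t)) volume (a k) (a (k + 1)) := by
    intro k hk
    have h2 : IntegrableOn (fun t => F (ix L t)) (Icc (0:ℝ) 1) volume := F_int L F
    have hle : a k ≤ a (k + 1) := by
      simp only [ha]
      gcongr
      exact Nat.le_succ k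
    rw [intervalIntegrable_iff_integrableOn_Ioc_of_le hle]
    apply h2.mono_set
    intro t ht
    have h3 : (k:ℝ) + 1 ≤ 2 ^ L := by exact_mod_cast hk
    have h4 : (0:ℝ) ≤ a k := by simp only [ha]; positivity
    have h5 : a (k + 1) ≤ 1 := by
      simp only [ha]
      rw [div_le_one h0]
      push_cast
      exact h3
    exact ⟨h4.trans ht.1.le, ht.2.trans h5⟩
  have h2 := intervalIntegral.sum_integral_adjacent_intervals h1
  have h3 : a 0 = 0 := by simp [ha]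
  have h4 : a (2 ^ L) = 1 := by simp [ha]
  rw [h3, h4] at h2
  rw [← h2, Finset.mul_sum]
  apply Finset.sum_congr rfl
  intro k _
  have h5 : ∫ t in a k..a (k + 1), F (ix L t) = ∫ _t in a k..a (k + 1), F k := by
    apply intervalIntegral.integral_congr_ae
    have h6 : ∀ᵐ t ∂(volume : Measure ℝ), t ≠ a (k + 1) := by
      rw [ae_iff]; simp
    filter_upwards [h6] with t ht hmem
    have hle : a k ≤ a (k + 1) := by
      simp only [ha]
      gcongr
      exact Nat.le_succ k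
    rw [uIoc_of_le hle] at hmem
    rw [ix_eq ⟨hmem.1.le, ?_⟩]
    have := lt_of_le_of_ne hmem.2 ht
    simp only [ha] at this
    push_cast at this
    exact this
  rw [h5, intervalIntegral.integral_const, smul_eq_mul]
  simp only [ha]
  push_cast
  ring

lemma sum_div_mod (m n : ℕ) (hn : 0 < n) (A B : ℕ → ℝ) :
    ∑ l ∈ Finset.range (m * n), A (l / n) * B (l % n) =
      (∑ x ∈ Finset.range m, A x) * ∑ y ∈ Finset.range n, B y := by
  induction m with
  | zero => simp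
  | succ m ih =>
    rw [add_mul, one_mul, Finset.sum_range_add, ih, Finset.sum_range_succ, add_mul]
    congr 1
    rw [Finset.mul_sum]
    apply Finset.sum_congr rfl
    intro y hy
    rw [Finset.mem_range] at hy
    have h1 : (m * n + y) / n = m := by
      rw [mul_comm, Nat.mul_add_div hn, Nat.div_eq_of_lt hy, add_zero]
    have h2 : (m * n + y) % n = y := by
      rw [mul_comm, Nat.mul_add_mod, Nat.mod_eq_of_lt hy]
    rw [h1, h2]

/-- D2 -/
lemma integral_indep (p J : ℕ) (A B : ℕ → ℝ) :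
    ∫ t, A (ix p t) * B (ix (p + J) t % 2 ^ J) ∂mu =
      (∫ t, A (ix p t) ∂mu) * ((1 / 2 ^ J) * ∑ y ∈ Finset.range (2 ^ J), B y) := by
  have h1 : ∀ t, A (ix p t) * B (ix (p + J) t % 2 ^ J) =
      (fun l => A (l / 2 ^ J) * B (l % 2 ^ J)) (ix (p + J) t) := by
    intro t
    simp only [ix_div]
  simp_rw [h1]
  rw [integral_ix (p + J) (fun l => A (l / 2 ^ J) * B (l % 2 ^ J)), integral_ix p A,
    show (2:ℕ) ^ (p + J) = 2 ^ p * 2 ^ J from pow_add _ _ _, sum_div_mod _ _ (by positivity), pow_add]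
  field_simp

/-! ### Normalized Haar functions -/

/-- norm of the Haar function of index `i + 1` -/
noncomputable def bn (J i : ℕ) : ℝ := √((1 / 2 ^ J) * ∑ l ∈ Finset.range (2 ^ J), Hf J (i + 1) l ^ 2)

noncomputable def hN (J i y : ℕ) : ℝ := Hf J (i + 1) y / bn J i

lemma bn_sq (J i : ℕ) : bn J i ^ 2 = (1 / 2 ^ J) * ∑ l ∈ Finset.range (2 ^ J), Hf J (i + 1) l ^ 2 := by
  unfold bn
  rw [Real.sq_sqrt]
  apply mul_nonneg (by positivity)
  exact Finset.sum_nonneg fun l _ => sq_nonneg _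

lemma bn_pos {J i : ℕ} (hi : i < 2 ^ J - 1) : 0 < bn J i := by
  unfold bn
  apply Real.sqrt_pos.2
  have := Hf_pos J (i + 1) (by omega) (by omega)
  positivity

lemma bn_nonneg (J i : ℕ) : 0 ≤ bn J i := Real.sqrt_nonneg _

lemma two_pow_pos' (J : ℕ) : 0 < 2 ^ J := by positivity

/-- sums over the nonzero indices -/
lemma sum_idx (J : ℕ) (f : ℕ → ℝ) (h0 : f 0 = 0) :
    ∑ i ∈ Finset.range (2 ^ J - 1), f (i + 1) = ∑ m ∈ Finset.range (2 ^ J), f m := by
  have h1 : 2 ^ J = (2 ^ J - 1) + 1 := by have := two_pow_pos' J; omega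
  conv_rhs => rw [h1]
  rw [Finset.sum_range_succ', h0, add_zero]

lemma sum_bn_sq (J : ℕ) : ∑ i ∈ Finset.range (2 ^ J - 1), bn J i ^ 2 = J := by
  have h0 : (0:ℝ) < 2 ^ J := by positivity
  simp_rw [bn_sq]
  rw [← Finset.mul_sum, sum_idx J (fun m => ∑ l ∈ Finset.range (2 ^ J), Hf J m l ^ 2)
    (by simp [Hf_zero]), Finset.sum_comm,
    Finset.sum_congr rfl (fun l hl => Hf_sum_sq J l (Finset.mem_range.1 hl))]
  simp

lemma hN_orth {J i j : ℕ} (hi : i < 2 ^ J - 1) (hj : j < 2 ^ J - 1) :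
    (1 / 2 ^ J) * ∑ y ∈ Finset.range (2 ^ J), hN J i y * hN J j y = if i = j then (1:ℝ) else 0 := by
  unfold hN
  have h1 : ∀ y, Hf J (i + 1) y / bn J i * (Hf J (j + 1) y / bn J j) =
      (1 / (bn J i * bn J j)) * (Hf J (i + 1) y * Hf J (j + 1) y) := by
    intro y; ring
  simp_rw [h1]
  rw [← Finset.mul_sum]
  split_ifs with h
  · subst h
    have h2 : bn J i * bn J i = (1 / 2 ^ J) * ∑ l ∈ Finset.range (2 ^ J), Hf J (i + 1) l ^ 2 := by
      rw [← bn_sq]; ring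
    have h3 := bn_pos hi
    have h4 : ∑ l ∈ Finset.range (2 ^ J), Hf J (i + 1) l * Hf J (i + 1) l =
        ∑ l ∈ Finset.range (2 ^ J), Hf J (i + 1) l ^ 2 :=
      Finset.sum_congr rfl fun l _ => by ring
    rw [h4]
    have h5 : (1 / 2 ^ J) * (1 / (bn J i * bn J i) * ∑ l ∈ Finset.range (2 ^ J), Hf J (i + 1) l ^ 2) =
        (1 / (bn J i * bn J i)) * ((1 / 2 ^ J) * ∑ l ∈ Finset.range (2 ^ J), Hf J (i + 1) l ^ 2) := by
      ring
    rw [h5, ← h2]
    field_simp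
  · rw [Hf_orth J (i + 1) (by omega) (j + 1) (by omega) (by omega)]
    simp

lemma hN_sum {J i : ℕ} (hi : i < 2 ^ J - 1) : ∑ y ∈ Finset.range (2 ^ J), hN J i y = 0 := by
  unfold hN
  rw [← Finset.sum_div, Hf_sum J (i + 1) (by omega), zero_div]

/-- pointwise Cauchy-Schwarz with `J` nonzero terms -/
lemma hN_cs (J : ℕ) (b : ℕ → ℝ) {y : ℕ} (hy : y < 2 ^ J) :
    (∑ i ∈ Finset.range (2 ^ J - 1), |b i| * |hN J i y|) ^ 2 ≤
      J * ∑ i ∈ Finset.range (2 ^ J - 1), b i ^ 2 * hN J i y ^ 2 := by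
  have h1 : ∀ i, |b i| * |hN J i y| = (|b i| * |hN J i y|) * |Hf J (i + 1) y| := by
    intro i
    unfold hN
    rcases Hf_values J (i + 1) y with h | h | h <;> rw [h] <;> simp
  have h2 : ∑ i ∈ Finset.range (2 ^ J - 1), |Hf J (i + 1) y| ^ 2 = J := by
    rw [← Hf_sum_sq J y hy, ← sum_idx J (fun m => Hf J m y ^ 2) (by rw [Hf_zero]; norm_num)]
    exact Finset.sum_congr rfl fun i _ => sq_abs _
  rw [Finset.sum_congr rfl (fun i _ => h1 i)]
  refine (Finset.sum_mul_sq_le_sq_mul_sq _ _ _).trans ?_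
  rw [h2, mul_comm]
  apply le_of_eq
  congr 1
  apply Finset.sum_congr rfl
  intro i _
  rw [mul_pow, sq_abs, sq_abs]

/-- the large partial sum -/
lemma hN_partial (J : ℕ) {y : ℕ} (hy : y < 2 ^ J) :
    ∑ i ∈ Finset.range y, bn J i * hN J i y = -(pop J y : ℝ) := by
  rw [← Hf_partial J y hy, Finset.sum_range_succ', Hf_zero, add_zero]
  apply Finset.sum_congr rfl
  intro i hi
  rw [Finset.mem_range] at hi
  have h3 : 0 < bn J i := bn_pos (by omega)
  unfold hN
  field_simp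

end Pool.Agent.H769R2.ONS
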