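import Pool.Agent.H769R2.ONS3

/-! The weighted Haar systems in `L²[0,1]`. -/

set_option autoImplicit false

namespace Pool.Agent.H769R2.ONS

open MeasureTheory Set Filter Topology

/-- the Haar function of index `i` in the digits of block `q` -/
noncomputable def hq (q0 J q i : ℕ) (t : ℝ) : ℝ := hN J i (ix (q0 + q * J + J) t % 2 ^ J)

lemma hq_eq (q0 J q i : ℕ) (t : ℝ) :
    hq q0 J q i t = (fun l => hN J i (l % 2 ^ J)) (ix (q0 + q * J + J) t) := rfl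

lemma hq_meas (q0 J q i : ℕ) : Measurable (hq q0 J q i) :=
  F_meas (q0 + q * J + J) (fun l => hN J i (l % 2 ^ J))

/-- every function built from `ix q0` and the `hq` is a function of one index; bounded -/
lemma comb_memLp (q0 J q : ℕ) (G : ℕ → ℕ → ℝ) (p : ENNReal) :
    MemLp (fun t => G (ix q0 t) (ix (q0 + q * J + J) t % 2 ^ J)) p mu := by
  have h1 : ∀ t, G (ix q0 t) (ix (q0 + q * J + J) t % 2 ^ J) =
      (fun l => G (l / 2 ^ (q * J + J)) (l % 2 ^ J)) (ix (q0 + q * J + J) t) := by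
    intro t
    have : ix (q0 + q * J + J) t / 2 ^ (q * J + J) = ix q0 t := by
      rw [add_assoc, ix_div]
    simp only [this]
  simp_rw [h1]
  exact F_memLp _ (fun l => G (l / 2 ^ (q * J + J)) (l % 2 ^ J)) p

/-- Gram matrix within one block, with a weight depending on `ix q0` -/
lemma gram_same (q0 J q : ℕ) (ω : ℕ → ℝ) {i j : ℕ} (hi : i < 2 ^ J - 1) (hj : j < 2 ^ J - 1) :
    ∫ t, ω (ix q0 t) * (hq q0 J q i t * hq q0 J q j t) ∂mu =
      (∫ t, ω (ix q0 t) ∂mu) * if i = j then 1 else 0 := by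
  have h1 : ∀ t, ix q0 t = ix (q0 + q * J) t / 2 ^ (q * J) := fun t => (ix_div _ _ _).symm
  have h2 : ∀ t, ω (ix q0 t) * (hq q0 J q i t * hq q0 J q j t) =
      (fun x => ω (x / 2 ^ (q * J))) (ix (q0 + q * J) t) *
      (fun y => hN J i y * hN J j y) (ix (q0 + q * J + J) t % 2 ^ J) := by
    intro t
    simp only [hq, ← h1]
  simp_rw [h2]
  rw [integral_indep (q0 + q * J) J (fun x => ω (x / 2 ^ (q * J))) (fun y => hN J i y * hN J j y),
    hN_orth hi hj]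
  simp only [← h1]

/-- Gram matrix between different blocks -/
lemma gram_cross (q0 J : ℕ) {q q' : ℕ} (hqq : q < q') (ω : ℕ → ℝ) (i : ℕ) {j : ℕ}
    (hj : j < 2 ^ J - 1) :
    ∫ t, ω (ix q0 t) * (hq q0 J q i t * hq q0 J q' j t) ∂mu = 0 := by
  obtain ⟨d, hd⟩ : ∃ d, q' = q + 1 + d := ⟨q' - (q + 1), by omega⟩
  have h1 : ∀ t, ix q0 t = ix (q0 + q' * J) t / 2 ^ (q' * J) := fun t => (ix_div _ _ _).symm
  have h3 : ∀ t, ix (q0 + q * J + J) t = ix (q0 + q' * J) t / 2 ^ (d * J) := by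
    intro t
    have : q0 + q' * J = (q0 + q * J + J) + d * J := by rw [hd]; ring
    rw [this, ix_div]
  have h2 : ∀ t, ω (ix q0 t) * (hq q0 J q i t * hq q0 J q' j t) =
      (fun x => ω (x / 2 ^ (q' * J)) * hN J i ((x / 2 ^ (d * J)) % 2 ^ J)) (ix (q0 + q' * J) t) *
      (fun y => hN J j y) (ix (q0 + q' * J + J) t % 2 ^ J) := by
    intro t
    simp only [hq, ← h1, ← h3]
    ring
  simp_rw [h2]
  rw [integral_indep (q0 + q' * J) J
    (fun x => ω (x / 2 ^ (q' * J)) * hN J i ((x / 2 ^ (d * J)) % 2 ^ J)) (fun y => hN J j y),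
    hN_sum hj]
  simp

/-- weight -/
noncomputable def wD (q0 : ℕ) (w : ℝ) : ℝ := √(2 ^ q0 - (2 ^ q0 - 1) * w ^ 2)

noncomputable def Wt (q0 : ℕ) (w : ℝ) (x : ℕ) : ℝ := if x = 0 then wD q0 w else w

lemma wD_sq {q0 : ℕ} {w : ℝ} (hw0 : 0 ≤ w) (hw1 : w ≤ 1) :
    wD q0 w ^ 2 = 2 ^ q0 - (2 ^ q0 - 1) * w ^ 2 := by
  unfold wD
  rw [Real.sq_sqrt]
  have h1 : (1:ℝ) ≤ 2 ^ q0 := one_le_pow₀ (by norm_num)
  have h2 : w ^ 2 ≤ 1 := by nlinarith
  nlinarith

lemma wD_sq_le {q0 : ℕ} {w : ℝ} (hw0 : 0 ≤ w) (hw1 : w ≤ 1) : wD q0 w ^ 2 ≤ 2 ^ q0 := by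
  rw [wD_sq hw0 hw1]
  have h1 : (1:ℝ) ≤ 2 ^ q0 := one_le_pow₀ (by norm_num)
  nlinarith [sq_nonneg w]

lemma int_ind0 (q0 : ℕ) : ∫ t, (if ix q0 t = 0 then (1:ℝ) else 0) ∂mu = 1 / 2 ^ q0 := by
  rw [integral_ix q0 (fun x => if x = 0 then (1:ℝ) else 0)]
  rw [Finset.sum_ite_eq' (Finset.range (2 ^ q0)) 0 (fun _ => (1:ℝ)), if_pos (by simp)]
  ring

lemma int_Wt_sq {q0 : ℕ} {w : ℝ} (hw0 : 0 ≤ w) (hw1 : w ≤ 1) :
    ∫ t, Wt q0 w (ix q0 t) ^ 2 ∂mu = 1 := by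
  have h1 : ∀ t, Wt q0 w (ix q0 t) ^ 2 =
      w ^ 2 + (wD q0 w ^ 2 - w ^ 2) * (if ix q0 t = 0 then (1:ℝ) else 0) := by
    intro t
    unfold Wt
    split_ifs <;> ring
  simp_rw [h1]
  rw [integral_add (integrable_const _) ((F_int q0 (fun x => if x = 0 then (1:ℝ) else 0)).const_mul _),
    integral_const_mul, int_ind0, wD_sq hw0 hw1]
  simp only [integral_const, probReal_univ, smul_eq_mul, one_mul]
  have h2 : (2:ℝ) ^ q0 ≠ 0 := by positivity
  field_simp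
  ring

/-- the weighted functions -/
noncomputable def chi (q0 J : ℕ) (w : ℝ) (q i : ℕ) (t : ℝ) : ℝ :=
  Wt q0 w (ix q0 t) * hq q0 J q i t

lemma chi_memLp (q0 J : ℕ) (w : ℝ) (q i : ℕ) : MemLp (chi q0 J w q i) 2 mu :=
  comb_memLp q0 J q (fun x y => Wt q0 w x * hN J i y) 2

noncomputable def chiL (q0 J : ℕ) (w : ℝ) (q i : ℕ) : HH := (chi_memLp q0 J w q i).toLp _

lemma inner_toLp {f g : ℝ → ℝ} (hf : MemLp f 2 mu) (hg : MemLp g 2 mu) :
    inner ℝ (hf.toLp f) (hg.toLp g) = ∫ t, f t * g t ∂mu := by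
  rw [L2.inner_def]
  apply integral_congr_ae
  filter_upwards [hf.coeFn_toLp, hg.coeFn_toLp] with x a b
  rw [a, b]
  simp [mul_comm]

lemma inner_toLp_left {f : ℝ → ℝ} (hf : MemLp f 2 mu) (g : HH) :
    inner ℝ (hf.toLp f) g = ∫ t, f t * g t ∂mu := by
  rw [L2.inner_def]
  apply integral_congr_ae
  filter_upwards [hf.coeFn_toLp] with x a
  rw [a]
  simp [mul_comm]

lemma norm_sq_eq (g : HH) : ‖g‖ ^ 2 = ∫ t, (g : ℝ → ℝ) t ^ 2 ∂mu := by
  rw [← real_inner_self_eq_norm_sq, L2.inner_def]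
  simp

lemma chiL_orthonormal {q0 J : ℕ} {w : ℝ} (hw0 : 0 ≤ w) (hw1 : w ≤ 1) :
    Orthonormal ℝ (fun z : ℕ × Fin (2 ^ J - 1) => chiL q0 J w z.1 z.2) := by
  have hsame : ∀ (q : ℕ) (i j : Fin (2 ^ J - 1)),
      inner ℝ (chiL q0 J w q i) (chiL q0 J w q j) = if i = j then (1:ℝ) else 0 := by
    intro q i j
    unfold chiL
    rw [inner_toLp]
    have h1 : ∀ t, chi q0 J w q i t * chi q0 J w q j t =
        (fun x => Wt q0 w x ^ 2) (ix q0 t) * (hq q0 J q i t * hq q0 J q j t) := by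
      intro t; unfold chi; ring
    simp_rw [h1]
    rw [gram_same q0 J q (fun x => Wt q0 w x ^ 2) i.2 j.2, int_Wt_sq hw0 hw1, one_mul]
    simp only [Fin.ext_iff]
  have hcross : ∀ (q q' : ℕ) (i j : Fin (2 ^ J - 1)), q < q' →
      inner ℝ (chiL q0 J w q i) (chiL q0 J w q' j) = 0 := by
    intro q q' i j h
    unfold chiL
    rw [inner_toLp]
    have h1 : ∀ t, chi q0 J w q i t * chi q0 J w q' j t =
        (fun x => Wt q0 w x ^ 2) (ix q0 t) * (hq q0 J q i t * hq q0 J q' j t) := by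
      intro t; unfold chi; ring
    simp_rw [h1]
    rw [gram_cross q0 J h (fun x => Wt q0 w x ^ 2) i j.2]
  rw [orthonormal_iff_ite]
  rintro ⟨q, i⟩ ⟨q', j⟩
  simp only [Prod.mk.injEq]
  rcases lt_trichotomy q q' with h | rfl | h
  · rw [hcross q q' i j h, if_neg (fun h' => h.ne h'.1)]
  · rw [hsame]
    by_cases hij : i = j
    · rw [if_pos hij, if_pos ⟨rfl, hij⟩]
    · rw [if_neg hij, if_neg (fun h' => hij h'.2)]
  · rw [real_inner_comm, hcross q' q j i h, if_neg (fun h' => h.ne' h'.1)]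

/-- Bessel bound for bounded functions -/
lemma bessel {q0 J : ℕ} {w : ℝ} (hw0 : 0 ≤ w) (hw1 : w ≤ 1) (hs : 1 / 2 ^ q0 ≤ w ^ 2) (q : ℕ)
    {f : HH} {K : ℝ} (hf : Bd f K) :
    ∑ i ∈ Finset.range (2 ^ J - 1), inner ℝ (chiL q0 J w q i) f ^ 2 ≤ 4 * w ^ 2 * K ^ 2 := by
  classical
  set ind : ℝ → ℝ := fun t => if ix q0 t = 0 then (1:ℝ) else 0 with hind
  have hindm : Measurable ind := F_meas q0 (fun x => if x = 0 then (1:ℝ) else 0)
  have hind2 : ∀ t, ind t ^ 2 = ind t := by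
    intro t; simp only [hind]; split_ifs <;> norm_num
  have hind01 : ∀ t, 0 ≤ ind t ∧ ind t ≤ 1 := by
    intro t; simp only [hind]; split_ifs <;> norm_num
  have hfm := Lp.memLp f
  have hfD : MemLp (fun t => ind t * (f : ℝ → ℝ) t) 2 mu := by
    refine hfm.mono (hindm.aestronglyMeasurable.mul hfm.1) (ae_of_all _ fun t => ?_)
    rw [norm_mul]
    have := hind01 t
    rw [Real.norm_eq_abs (ind t), abs_of_nonneg this.1]
    exact mul_le_of_le_one_left (norm_nonneg _) this.2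
  have hfG : MemLp (fun t => (1 - ind t) * (f : ℝ → ℝ) t) 2 mu := by
    refine hfm.mono ((measurable_const.sub hindm).aestronglyMeasurable.mul hfm.1)
      (ae_of_all _ fun t => ?_)
    rw [norm_mul]
    have := hind01 t
    rw [Real.norm_eq_abs (1 - ind t), abs_of_nonneg (by linarith)]
    exact mul_le_of_le_one_left (norm_nonneg _) (by linarith)
  -- the two auxiliary orthonormal families
  set c0 : ℝ := √(2 ^ q0) with hc0
  have hc02 : c0 ^ 2 = 2 ^ q0 := Real.sq_sqrt (by positivity)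
  have hD : ∀ i, MemLp (fun t => c0 * (ind t * hq q0 J q i t)) 2 mu := fun i =>
    comb_memLp q0 J q (fun x y => c0 * ((if x = 0 then (1:ℝ) else 0) * hN J i y)) 2
  have hH : ∀ i, MemLp (fun t => hq q0 J q i t) 2 mu := fun i =>
    comb_memLp q0 J q (fun _ y => hN J i y) 2
  have oD : Orthonormal ℝ (fun i : Fin (2 ^ J - 1) => (hD i).toLp _) := by
    rw [orthonormal_iff_ite]
    intro i j
    rw [inner_toLp]
    have h1 : ∀ t, c0 * (ind t * hq q0 J q i t) * (c0 * (ind t * hq q0 J q j t)) =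
        (fun x => c0 ^ 2 * (if x = 0 then (1:ℝ) else 0)) (ix q0 t) *
          (hq q0 J q i t * hq q0 J q j t) := by
      intro t
      have h2 := hind2 t
      simp only [hind] at h2 ⊢
      calc _ = c0 ^ 2 * ((if ix q0 t = 0 then (1:ℝ) else 0) ^ 2) * (hq q0 J q i t * hq q0 J q j t) := by
            ring
        _ = _ := by rw [h2]
    simp_rw [h1]
    rw [gram_same q0 J q (fun x => c0 ^ 2 * (if x = 0 then (1:ℝ) else 0)) i.2 j.2,
      integral_const_mul, int_ind0, hc02]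
    have h3 : (2:ℝ) ^ q0 ≠ 0 := by positivity
    simp only [Fin.ext_iff]
    field_simp
  have oH : Orthonormal ℝ (fun i : Fin (2 ^ J - 1) => (hH i).toLp _) := by
    rw [orthonormal_iff_ite]
    intro i j
    rw [inner_toLp]
    have h1 : ∀ t, hq q0 J q i t * hq q0 J q j t =
        (fun _ => (1:ℝ)) (ix q0 t) * (hq q0 J q i t * hq q0 J q j t) := by
      intro t; ring
    rw [integral_congr_ae (ae_of_all _ h1), gram_same q0 J q (fun _ => (1:ℝ)) i.2 j.2]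
    simp [Fin.ext_iff]
  have bD := oD.sum_inner_products_le (hfD.toLp _) (s := Finset.univ)
  have bH := oH.sum_inner_products_le (hfG.toLp _) (s := Finset.univ)
  -- norms of the pieces of f
  have hK2 : ∀ᵐ t ∂mu, (f : ℝ → ℝ) t ^ 2 ≤ K ^ 2 := by
    filter_upwards [hf] with t ht
    rw [← sq_abs]
    have := abs_nonneg ((f : ℝ → ℝ) t)
    gcongr
  have nD : ‖hfD.toLp _‖ ^ 2 ≤ K ^ 2 * (1 / 2 ^ q0) := by
    rw [norm_sq_eq, ← int_ind0 q0, ← integral_const_mul]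
    have h1 : ∫ t, ((hfD.toLp _ : HH) : ℝ → ℝ) t ^ 2 ∂mu = ∫ t, (ind t * (f : ℝ → ℝ) t) ^ 2 ∂mu := by
      apply integral_congr_ae
      filter_upwards [hfD.coeFn_toLp] with t ht
      rw [ht]
    rw [h1]
    apply integral_mono_ae hfD.integrable_sq
      ((F_int q0 (fun x => if x = 0 then (1:ℝ) else 0)).const_mul _)
    filter_upwards [hK2] with t ht
    show (ind t * (f : ℝ → ℝ) t) ^ 2 ≤ K ^ 2 * ind t
    rw [mul_pow, hind2]
    have := (hind01 t).1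
    nlinarith
  have nG : ‖hfG.toLp _‖ ^ 2 ≤ K ^ 2 := by
    rw [norm_sq_eq]
    have h1 : ∫ t, ((hfG.toLp _ : HH) : ℝ → ℝ) t ^ 2 ∂mu =
        ∫ t, ((1 - ind t) * (f : ℝ → ℝ) t) ^ 2 ∂mu := by
      apply integral_congr_ae
      filter_upwards [hfG.coeFn_toLp] with t ht
      rw [ht]
    rw [h1]
    have h2 : K ^ 2 = ∫ _t, K ^ 2 ∂mu := by
      rw [integral_const, probReal_univ, one_smul]
    rw [h2]
    apply integral_mono_ae hfG.integrable_sq (integrable_const _)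
    filter_upwards [hK2] with t ht
    show ((1 - ind t) * (f : ℝ → ℝ) t) ^ 2 ≤ K ^ 2
    rw [mul_pow]
    have h3 := hind01 t
    have h4 : (1 - ind t) ^ 2 ≤ 1 := by nlinarith
    have h5 : 0 ≤ (f : ℝ → ℝ) t ^ 2 := sq_nonneg _
    nlinarith
  -- decomposition of the inner product
  have hdec : ∀ i : Fin (2 ^ J - 1), inner ℝ (chiL q0 J w q i) f ^ 2 ≤
      2 * (wD q0 w ^ 2 * (1 / 2 ^ q0)) * ‖inner ℝ ((hD i).toLp _) (hfD.toLp _)‖ ^ 2 +
      2 * w ^ 2 * ‖inner ℝ ((hH i).toLp _) (hfG.toLp _)‖ ^ 2 := by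
    intro i
    set x := ∫ t, ind t * hq q0 J q i t * (f : ℝ → ℝ) t ∂mu with hx
    set y := ∫ t, hq q0 J q i t * ((1 - ind t) * (f : ℝ → ℝ) t) ∂mu with hy
    have i1 : Integrable (fun t => ind t * hq q0 J q i t * (f : ℝ → ℝ) t) mu := by
      have h1 : MemLp (fun t => ind t * hq q0 J q i t) 2 mu :=
        comb_memLp q0 J q (fun x y => (if x = 0 then (1:ℝ) else 0) * hN J i y) 2
      exact h1.integrable_mul hfm
    have i2 : Integrable (fun t => hq q0 J q i t * ((1 - ind t) * (f : ℝ → ℝ) t)) mu :=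
      (hH i).integrable_mul hfG
    have e1 : inner ℝ (chiL q0 J w q i) f = wD q0 w * x + w * y := by
      unfold chiL
      rw [inner_toLp_left, hx, hy, ← integral_const_mul, ← integral_const_mul,
        ← integral_add (i1.const_mul _) (i2.const_mul _)]
      congr 1
      funext t
      simp only [chi, Wt, hind]
      split_ifs <;> ring
    have e2 : inner ℝ ((hD i).toLp _) (hfD.toLp _) = c0 * x := by
      rw [inner_toLp, hx, ← integral_const_mul]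
      congr 1
      funext t
      have := hind2 t
      calc c0 * (ind t * hq q0 J q i t) * (ind t * (f : ℝ → ℝ) t) =
          c0 * (ind t ^ 2 * hq q0 J q i t * (f : ℝ → ℝ) t) := by ring
        _ = _ := by rw [this]
    have e3 : inner ℝ ((hH i).toLp _) (hfG.toLp _) = y := by
      rw [inner_toLp, hy]
    rw [e1, e2, e3, Real.norm_eq_abs, Real.norm_eq_abs, sq_abs, sq_abs, mul_pow, hc02]
    have h3 : (2:ℝ) ^ q0 ≠ 0 := by positivity
    have h4 : 2 * (wD q0 w ^ 2 * (1 / 2 ^ q0)) * (2 ^ q0 * x ^ 2) = 2 * (wD q0 w * x) ^ 2 := by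
      field_simp
    rw [h4]
    nlinarith [sq_nonneg (wD q0 w * x - w * y)]
  have hsum : ∑ i ∈ Finset.range (2 ^ J - 1), inner ℝ (chiL q0 J w q i) f ^ 2 =
      ∑ i : Fin (2 ^ J - 1), inner ℝ (chiL q0 J w q i) f ^ 2 :=
    (Fin.sum_univ_eq_sum_range (fun i => inner ℝ (chiL q0 J w q i) f ^ 2) _).symm
  rw [hsum]
  calc ∑ i : Fin (2 ^ J - 1), inner ℝ (chiL q0 J w q i) f ^ 2
      ≤ ∑ i : Fin (2 ^ J - 1), (2 * (wD q0 w ^ 2 * (1 / 2 ^ q0)) *
          ‖inner ℝ ((hD i).toLp _) (hfD.toLp _)‖ ^ 2 +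
          2 * w ^ 2 * ‖inner ℝ ((hH i).toLp _) (hfG.toLp _)‖ ^ 2) :=
        Finset.sum_le_sum fun i _ => hdec i
    _ = 2 * (wD q0 w ^ 2 * (1 / 2 ^ q0)) * ∑ i : Fin (2 ^ J - 1),
          ‖inner ℝ ((hD i).toLp _) (hfD.toLp _)‖ ^ 2 +
          2 * w ^ 2 * ∑ i : Fin (2 ^ J - 1), ‖inner ℝ ((hH i).toLp _) (hfG.toLp _)‖ ^ 2 := by
        rw [Finset.sum_add_distrib, ← Finset.mul_sum, ← Finset.mul_sum]
    _ ≤ 2 * (wD q0 w ^ 2 * (1 / 2 ^ q0)) * (K ^ 2 * (1 / 2 ^ q0)) + 2 * w ^ 2 * K ^ 2 := by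
        have h5 := bD.trans nD
        have h6 := bH.trans nG
        gcongr
    _ ≤ 2 * 1 * (K ^ 2 * w ^ 2) + 2 * w ^ 2 * K ^ 2 := by
        have h7 : wD q0 w ^ 2 * (1 / 2 ^ q0) ≤ 1 := by
          rw [mul_one_div, div_le_one (by positivity)]
          exact wD_sq_le hw0 hw1
        gcongr
    _ = 4 * w ^ 2 * K ^ 2 := by ring

/-- weak convergence to zero -/
lemma weak_small {n : ℕ} (v : ℕ × Fin n → HH) (hv : Orthonormal ℝ v) (Z : Submodule ℝ HH)
    [FiniteDimensional ℝ Z] (θ : ℝ) (hθ : 0 < θ) :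
    ∃ q, ∀ i, ∀ z ∈ Z, |inner ℝ z (v (q, i))| ≤ θ * ‖z‖ := by
  set b := stdOrthonormalBasis ℝ Z with hb
  have hs : Summable (fun p : ℕ × Fin n => ∑ j, ‖inner ℝ (v p) (b j : HH)‖ ^ 2) :=
    summable_sum fun j _ => hv.inner_products_summable (b j : HH)
  have h1 := hs.tendsto_cofinite_zero
  have h2 : ∀ᶠ p in cofinite, ∑ j, ‖inner ℝ (v p) (b j : HH)‖ ^ 2 < θ ^ 2 :=
    h1.eventually_lt_const (by positivity)
  rw [eventually_cofinite] at h2
  obtain ⟨q, hq⟩ : ∃ q, ∀ i : Fin n, ∑ j, ‖inner ℝ (v (q, i)) (b j : HH)‖ ^ 2 < θ ^ 2 := by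
    obtain ⟨q, hq⟩ := (h2.image Prod.fst).infinite_compl.nonempty
    refine ⟨q, fun i => ?_⟩
    by_contra h3
    exact hq ⟨(q, i), h3, rfl⟩
  refine ⟨q, fun i z hz => ?_⟩
  have h3 : z = ∑ j, (inner ℝ (b j : HH) z) • (b j : HH) := by
    have h4 := b.sum_repr' ⟨z, hz⟩
    have h5 := congrArg (Subtype.val : Z → HH) h4
    rw [Submodule.coe_sum] at h5
    simp only [Submodule.coe_smul, Submodule.coe_inner] at h5
    exact h5.symm
  have h4 : ‖z‖ ^ 2 = ∑ j, inner ℝ (b j : HH) z ^ 2 := by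
    have h5 := b.sum_sq_norm_inner_right ⟨z, hz⟩
    simp only [Submodule.coe_inner, Submodule.coe_norm, Real.norm_eq_abs, sq_abs] at h5
    exact h5.symm
  have h5 : inner ℝ z (v (q, i)) = ∑ j, inner ℝ (b j : HH) z * inner ℝ (v (q, i)) (b j : HH) := by
    conv_lhs => rw [h3]
    rw [sum_inner]
    apply Finset.sum_congr rfl
    intro j _
    rw [inner_smul_left, real_inner_comm (v (q, i)) (b j : HH)]
    simp
  apply abs_le_of_sq_le_sq _ (by positivity)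
  rw [h5, mul_pow, h4, mul_comm (θ ^ 2)]
  refine (Finset.sum_mul_sq_le_sq_mul_sq _ _ _).trans ?_
  have h6 := (hq i).le
  simp only [Real.norm_eq_abs, sq_abs] at h6
  have h7 : 0 ≤ ∑ j, inner ℝ (b j : HH) z ^ 2 := Finset.sum_nonneg fun j _ => sq_nonneg _
  gcongr

end Pool.Agent.H769R2.ONS
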