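import Pool.Agent.H769R2.ONS4

/-! The algebra of one block, and Markov's inequality. -/

set_option autoImplicit false

namespace Pool.Agent.H769R2.ONS

open MeasureTheory Set Filter Topology

section abstract_block

variable {E : Type*} [NormedAddCommGroup E] [InnerProductSpace ℝ E]

/-- the element `e` -/
noncomputable def ee (N : ℕ) (χ : ℕ → E) (a : ℕ → ℝ) : E := ∑ i ∈ Finset.range N, a i • χ i

noncomputable def xx (N : ℕ) (χ : ℕ → E) (a : ℕ → ℝ) (u : E) (i : ℕ) : E :=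
  if i < N then χ i - a i • ee N χ a + a i • u else ee N χ a

variable {N : ℕ} {χ : ℕ → E} {a : ℕ → ℝ}

lemma inner_chi_ee (hχ : ∀ i < N, ∀ j < N, inner ℝ (χ i) (χ j) = if i = j then (1:ℝ) else 0)
    {i : ℕ} (hi : i < N) : inner ℝ (χ i) (ee N χ a) = a i := by
  unfold ee
  rw [inner_sum, Finset.sum_eq_single i]
  · rw [inner_smul_right, hχ i hi i hi, if_pos rfl, mul_one]
  · intro j hj hji
    rw [inner_smul_right, hχ i hi j (Finset.mem_range.1 hj), if_neg (Ne.symm hji), mul_zero]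
  · intro h
    exact absurd (Finset.mem_range.2 hi) h

lemma inner_ee_left (f : E) : inner ℝ (ee N χ a) f = ∑ i ∈ Finset.range N, a i * inner ℝ (χ i) f := by
  unfold ee
  rw [sum_inner]
  apply Finset.sum_congr rfl
  intro i _
  rw [inner_smul_left]
  simp

lemma inner_ee_ee (hχ : ∀ i < N, ∀ j < N, inner ℝ (χ i) (χ j) = if i = j then (1:ℝ) else 0)
    (ha : ∑ i ∈ Finset.range N, a i ^ 2 = 1) : inner ℝ (ee N χ a) (ee N χ a) = (1:ℝ) := by
  rw [inner_ee_left, ← ha]
  apply Finset.sum_congr rfl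
  intro i hi
  rw [inner_chi_ee hχ (Finset.mem_range.1 hi)]
  ring

lemma inner_xx_xx (hχ : ∀ i < N, ∀ j < N, inner ℝ (χ i) (χ j) = if i = j then (1:ℝ) else 0)
    (ha : ∑ i ∈ Finset.range N, a i ^ 2 = 1) {u : E} (hu : ‖u‖ = 1) {i j : ℕ} (hi : i < N)
    (hj : j < N) :
    inner ℝ (xx N χ a u i) (xx N χ a u j) = (if i = j then (1:ℝ) else 0) +
      a j * inner ℝ (χ i) u + a i * inner ℝ (χ j) u - 2 * (a i * a j) * inner ℝ (ee N χ a) u := by
  have hee := inner_ee_ee hχ ha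
  have h1 := inner_chi_ee (a := a) hχ hi
  have h2 := inner_chi_ee (a := a) hχ hj
  have h3 : inner ℝ u u = (1:ℝ) := by rw [real_inner_self_eq_norm_sq, hu]; norm_num
  have h4 := hχ i hi j hj
  have h2' : inner ℝ (ee N χ a) (χ j) = a j := by rw [real_inner_comm]; exact h2
  unfold xx
  rw [if_pos hi, if_pos hj]
  simp only [inner_add_left, inner_add_right, inner_sub_left, inner_sub_right, inner_smul_left,
    inner_smul_right, h1, h2', hee, h3, h4, real_inner_comm (χ j) u, real_inner_comm (ee N χ a) u]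
  simp only [RCLike.conj_to_real]
  rw [real_inner_comm u (χ j)]
  ring_nf

lemma inner_xx_ee (hχ : ∀ i < N, ∀ j < N, inner ℝ (χ i) (χ j) = if i = j then (1:ℝ) else 0)
    (ha : ∑ i ∈ Finset.range N, a i ^ 2 = 1) {u : E} {i : ℕ} (hi : i < N) :
    inner ℝ (xx N χ a u i) (ee N χ a) = a i * inner ℝ (ee N χ a) u := by
  have hee := inner_ee_ee hχ ha
  have h1 := inner_chi_ee (a := a) hχ hi
  unfold xx
  rw [if_pos hi]
  simp only [inner_add_left, inner_sub_left, inner_smul_left, h1, hee]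
  simp only [RCLike.conj_to_real]
  rw [real_inner_comm (ee N χ a) u]
  ring

lemma xx_last {u : E} : xx N χ a u N = ee N χ a := by
  unfold xx; rw [if_neg (lt_irrefl _)]

lemma sum_xx (ha : ∑ i ∈ Finset.range N, a i ^ 2 = 1) {u : E} :
    ∑ i ∈ Finset.range N, a i • xx N χ a u i = u := by
  have h1 : ∀ i ∈ Finset.range N, a i • xx N χ a u i =
      a i • χ i - (a i ^ 2) • ee N χ a + (a i ^ 2) • u := by
    intro i hi
    unfold xx
    rw [if_pos (Finset.mem_range.1 hi), smul_add, smul_sub, smul_smul, smul_smul, sq]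
  rw [Finset.sum_congr rfl h1, Finset.sum_add_distrib, Finset.sum_sub_distrib, ← Finset.sum_smul,
    ← Finset.sum_smul, ha, one_smul, one_smul]
  unfold ee
  simp

/-- the coefficients `b i` -/
noncomputable def bco (N : ℕ) (χ : ℕ → E) (a : ℕ → ℝ) (f : E) (i : ℕ) : ℝ :=
  inner ℝ (χ i) f - a i * inner ℝ (ee N χ a) f

lemma inner_xx {u f : E} {i : ℕ} (hi : i < N) :
    inner ℝ (xx N χ a u i) f = bco N χ a f i + a i * inner ℝ u f := by
  unfold xx bco
  rw [if_pos hi]
  simp only [inner_add_left, inner_sub_left, inner_smul_left]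
  simp only [RCLike.conj_to_real]

lemma sum_bco_sq (ha : ∑ i ∈ Finset.range N, a i ^ 2 = 1) (f : E) :
    ∑ i ∈ Finset.range N, bco N χ a f i ^ 2 =
      ∑ i ∈ Finset.range N, inner ℝ (χ i) f ^ 2 - inner ℝ (ee N χ a) f ^ 2 := by
  set c := inner ℝ (ee N χ a) f with hc
  have hc' : c = ∑ i ∈ Finset.range N, a i * inner ℝ (χ i) f := by rw [hc, inner_ee_left]
  have h1 : ∀ i ∈ Finset.range N, bco N χ a f i ^ 2 =
      inner ℝ (χ i) f ^ 2 - 2 * c * (a i * inner ℝ (χ i) f) + c ^ 2 * a i ^ 2 := by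
    intro i _
    unfold bco
    ring
  rw [Finset.sum_congr rfl h1, Finset.sum_add_distrib, Finset.sum_sub_distrib, ← Finset.mul_sum,
    ← Finset.mul_sum, ha, ← hc']
  ring

lemma partial_a_sq (ha : ∑ i ∈ Finset.range N, a i ^ 2 = 1) {m : ℕ} (hm : m ≤ N) :
    ∑ i ∈ Finset.range m, a i ^ 2 ≤ 1 := by
  rw [← ha]
  exact Finset.sum_le_sum_of_subset_of_nonneg (Finset.range_mono hm) fun _ _ _ => sq_nonneg _

lemma abs_a_le (ha : ∑ i ∈ Finset.range N, a i ^ 2 = 1) {i : ℕ} (hi : i < N) : |a i| ≤ 1 := by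
  have h1 := Finset.single_le_sum (f := fun i => a i ^ 2) (fun i _ => sq_nonneg (a i))
    (Finset.mem_range.2 hi)
  rw [ha] at h1
  rw [abs_le_one_iff_mul_self_le_one]
  nlinarith

lemma coef_bound (ha : ∑ i ∈ Finset.range N, a i ^ 2 = 1) (f : E) (U : ℝ) {m : ℕ} (hm : m ≤ N)
    {s : ℝ} (hs0 : 0 ≤ s) (hs : ∑ i ∈ Finset.range N, inner ℝ (χ i) f ^ 2 ≤ s ^ 2) :
    |∑ i ∈ Finset.range m, (bco N χ a f i + a i * U) * a i| ≤ s + |U| := by
  have h1 : ∑ i ∈ Finset.range m, (bco N χ a f i + a i * U) * a i =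
      ∑ i ∈ Finset.range m, bco N χ a f i * a i + U * ∑ i ∈ Finset.range m, a i ^ 2 := by
    rw [Finset.mul_sum, ← Finset.sum_add_distrib]
    apply Finset.sum_congr rfl
    intro i _
    ring
  rw [h1]
  refine (abs_add_le _ _).trans (add_le_add ?_ ?_)
  · apply abs_le_of_sq_le_sq _ hs0
    refine (Finset.sum_mul_sq_le_sq_mul_sq _ _ _).trans ?_
    have h2 : ∑ i ∈ Finset.range m, bco N χ a f i ^ 2 ≤ s ^ 2 := by
      have h3 : ∑ i ∈ Finset.range m, bco N χ a f i ^ 2 ≤ ∑ i ∈ Finset.range N, bco N χ a f i ^ 2 :=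
        Finset.sum_le_sum_of_subset_of_nonneg (Finset.range_mono hm) fun _ _ _ => sq_nonneg _
      rw [sum_bco_sq ha] at h3
      nlinarith [sq_nonneg (inner ℝ (ee N χ a) f)]
    have h3 := partial_a_sq ha hm
    have h4 : 0 ≤ ∑ i ∈ Finset.range m, a i ^ 2 := Finset.sum_nonneg fun _ _ => sq_nonneg _
    have h5 : 0 ≤ ∑ i ∈ Finset.range m, bco N χ a f i ^ 2 := Finset.sum_nonneg fun _ _ => sq_nonneg _
    nlinarith
  · rw [abs_mul]
    have h3 := partial_a_sq ha hm
    have h4 : 0 ≤ ∑ i ∈ Finset.range m, a i ^ 2 := Finset.sum_nonneg fun _ _ => sq_nonneg _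
    rw [abs_of_nonneg h4]
    exact mul_le_of_le_one_right (abs_nonneg _) h3

/-- hypotheses of `perturb` for the block -/
lemma xx_ready (hχ : ∀ i < N, ∀ j < N, inner ℝ (χ i) (χ j) = if i = j then (1:ℝ) else 0)
    (ha : ∑ i ∈ Finset.range N, a i ^ 2 = 1) {u : E} (hu : ‖u‖ = 1) (V : Submodule ℝ E)
    (huV : ∀ v ∈ V, inner ℝ v u = (0:ℝ)) {θ : ℝ} (hθ : 0 < θ)
    (hV : ∀ i < N, ∀ v ∈ V, |inner ℝ v (χ i)| ≤ θ / (4 * (N + 1)) * ‖v‖)
    (hU : ∀ i < N, |inner ℝ (χ i) u| ≤ θ / (4 * (N + 1))) :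
    (∀ i < N + 1, ∀ v ∈ V, |inner ℝ v (xx N χ a u i)| ≤ θ * ‖v‖) ∧
    (∀ i < N + 1, |‖xx N χ a u i‖ - 1| ≤ θ) ∧
    (∀ i < N + 1, ∀ j < N + 1, i ≠ j → |inner ℝ (xx N χ a u i) (xx N χ a u j)| ≤ θ) := by
  set θ' := θ / (4 * (N + 1)) with hθ'
  have hN0 : (0:ℝ) ≤ N := Nat.cast_nonneg N
  have hθ'0 : 0 < θ' := by positivity
  have hNθ : (N + 1) * θ' = θ / 4 := by rw [hθ']; field_simp
  have hNθ' : N * θ' ≤ θ / 4 := by nlinarith
  have hθθ : θ' ≤ θ / 4 := by nlinarith
  have ha1 : ∀ i < N, |a i| ≤ 1 := fun i hi => abs_a_le ha hi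
  have hρ : |inner ℝ (ee N χ a) u| ≤ θ / 4 := by
    rw [inner_ee_left]
    refine (Finset.abs_sum_le_sum_abs _ _).trans (le_trans ?_ hNθ')
    have : ∀ i ∈ Finset.range N, |a i * inner ℝ (χ i) u| ≤ θ' := by
      intro i hi
      rw [Finset.mem_range] at hi
      rw [abs_mul]
      have := mul_le_mul (ha1 i hi) (hU i hi) (abs_nonneg _) zero_le_one
      linarith
    refine (Finset.sum_le_sum this).trans ?_
    simp
  have hVe : ∀ v ∈ V, |inner ℝ v (ee N χ a)| ≤ θ / 4 * ‖v‖ := by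
    intro v hv
    rw [real_inner_comm, inner_ee_left]
    refine (Finset.abs_sum_le_sum_abs _ _).trans ?_
    have : ∀ i ∈ Finset.range N, |a i * inner ℝ (χ i) v| ≤ θ' * ‖v‖ := by
      intro i hi
      rw [Finset.mem_range] at hi
      rw [abs_mul, real_inner_comm]
      have := mul_le_mul (ha1 i hi) (hV i hi v hv) (abs_nonneg _) zero_le_one
      linarith
    refine (Finset.sum_le_sum this).trans ?_
    simp only [Finset.sum_const, Finset.card_range, nsmul_eq_mul]
    rw [← mul_assoc]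
    gcongr
  have key : ∀ i < N, ∀ j < N, |inner ℝ (xx N χ a u i) (xx N χ a u j) -
      (if i = j then (1:ℝ) else 0)| ≤ θ := by
    intro i hi j hj
    rw [inner_xx_xx hχ ha hu hi hj]
    have e1 : (if i = j then (1:ℝ) else 0) + a j * inner ℝ (χ i) u + a i * inner ℝ (χ j) u -
      2 * (a i * a j) * inner ℝ (ee N χ a) u - (if i = j then (1:ℝ) else 0) =
      a j * inner ℝ (χ i) u + a i * inner ℝ (χ j) u - 2 * (a i * a j) * inner ℝ (ee N χ a) u := by
      ring
    rw [e1]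
    have b1 : |a j * inner ℝ (χ i) u| ≤ θ' := by
      rw [abs_mul]
      have := mul_le_mul (ha1 j hj) (hU i hi) (abs_nonneg _) zero_le_one
      linarith
    have b2 : |a i * inner ℝ (χ j) u| ≤ θ' := by
      rw [abs_mul]
      have := mul_le_mul (ha1 i hi) (hU j hj) (abs_nonneg _) zero_le_one
      linarith
    have b3 : |2 * (a i * a j) * inner ℝ (ee N χ a) u| ≤ 2 * (θ / 4) := by
      rw [abs_mul, abs_mul, abs_mul]
      have h1 := mul_le_mul (ha1 i hi) (ha1 j hj) (abs_nonneg _) zero_le_one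
      have h2 : |a i| * |a j| ≤ 1 := by linarith
      have h3 := mul_le_mul h2 hρ (abs_nonneg _) zero_le_one
      rw [abs_of_pos (by norm_num : (0:ℝ) < 2)]
      nlinarith
    have := abs_sub (a j * inner ℝ (χ i) u + a i * inner ℝ (χ j) u)
      (2 * (a i * a j) * inner ℝ (ee N χ a) u)
    have := abs_add_le (a j * inner ℝ (χ i) u) (a i * inner ℝ (χ j) u)
    linarith
  have hnorm : ∀ y : E, |inner ℝ y y - (1:ℝ)| ≤ θ → |‖y‖ - 1| ≤ θ := by
    intro y hy
    rw [real_inner_self_eq_norm_sq] at hy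
    refine le_trans ?_ hy
    have e1 : ‖y‖ ^ 2 - 1 = (‖y‖ - 1) * (‖y‖ + 1) := by ring
    rw [e1, abs_mul]
    have h1 : 1 ≤ |‖y‖ + 1| := by
      rw [abs_of_nonneg (by positivity)]
      linarith [norm_nonneg y]
    exact le_mul_of_one_le_right (abs_nonneg _) h1
  refine ⟨?_, ?_, ?_⟩
  · intro i hi v hv
    rcases Nat.lt_succ_iff_lt_or_eq.1 hi with h | rfl
    · have e1 : inner ℝ v (xx N χ a u i) = inner ℝ v (χ i) - a i * inner ℝ v (ee N χ a) := by
        unfold xx
        rw [if_pos h, inner_add_right, inner_sub_right, inner_smul_right, inner_smul_right,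
          huV v hv, mul_zero, add_zero]
      rw [e1]
      refine (abs_sub _ _).trans ?_
      have b1 := hV i h v hv
      have b2 : |a i * inner ℝ v (ee N χ a)| ≤ θ / 4 * ‖v‖ := by
        rw [abs_mul]
        have := mul_le_mul (ha1 i h) (hVe v hv) (abs_nonneg _) zero_le_one
        linarith
      have b3 : θ' * ‖v‖ ≤ θ / 4 * ‖v‖ := by gcongr
      have := norm_nonneg v
      nlinarith
    · rw [xx_last]
      refine (hVe v hv).trans ?_
      have := norm_nonneg v
      gcongr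
      linarith
  · intro i hi
    rcases Nat.lt_succ_iff_lt_or_eq.1 hi with h | rfl
    · apply hnorm
      have := key i h i h
      rwa [if_pos rfl] at this
    · rw [xx_last]
      apply hnorm
      rw [inner_ee_ee hχ ha]
      simp [hθ.le]
  · intro i hi j hj hij
    rcases Nat.lt_succ_iff_lt_or_eq.1 hi with h | rfl
    · rcases Nat.lt_succ_iff_lt_or_eq.1 hj with h' | rfl
      · have := key i h j h'
        rwa [if_neg hij, sub_zero] at this
      · rw [xx_last, inner_xx_ee hχ ha h, abs_mul]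
        have := mul_le_mul (ha1 i h) hρ (abs_nonneg _) zero_le_one
        linarith
    · rcases Nat.lt_succ_iff_lt_or_eq.1 hj with h' | h'
      · rw [xx_last, real_inner_comm, inner_xx_ee hχ ha h', abs_mul]
        have := mul_le_mul (ha1 j h') hρ (abs_nonneg _) zero_le_one
        linarith
      · exact absurd h'.symm hij

end abstract_block

/-- Markov's inequality -/
lemma markov {G : ℝ → ℝ} (h0 : ∀ t, 0 ≤ G t) (hG : Integrable G mu) {r : ℝ}
    (h : ∫ t, G t ∂mu ≤ r) : mu {t | 1 ≤ G t} ≤ ENNReal.ofReal r := by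
  have h1 := mul_meas_ge_le_integral_of_nonneg (ae_of_all _ h0) hG 1
  rw [one_mul] at h1
  rw [← ofReal_measureReal]
  exact ENNReal.ofReal_le_ofReal (h1.trans h)

/-- Chebyshev's inequality -/
lemma cheb (v : HH) {s r : ℝ} (hs : 0 < s) (h : ‖v‖ ^ 2 ≤ r * s ^ 2) :
    mu {t | s ≤ |(v : ℝ → ℝ) t|} ≤ ENNReal.ofReal r := by
  have hG : Integrable (fun t => ((v : ℝ → ℝ) t / s) ^ 2) mu := by
    have := ((Lp.memLp v).const_mul (1 / s)).integrable_sq
    refine this.congr (ae_of_all _ fun t => ?_)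
    simp only
    ring
  refine le_trans (measure_mono ?_) (markov (fun t => sq_nonneg _) hG (r := r) ?_)
  · intro t ht
    simp only [Set.mem_ofPred_eq] at ht ⊢
    rw [div_pow, ← sq_abs ((v : ℝ → ℝ) t), le_div_iff₀ (by positivity), one_mul]
    gcongr
  · simp_rw [div_pow]
    rw [integral_div, ← norm_sq_eq, div_le_iff₀ (by positivity)]
    exact h

end Pool.Agent.H769R2.ONS
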