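import Pool.Agent.H769R2.ONS5

/-! The block lemma. -/

set_option autoImplicit false

namespace Pool.Agent.H769R2.ONS

open MeasureTheory Set Filter Topology

lemma exists_w (K ε ρ C : ℝ) (hε : 0 < ε) (hρ : 0 < ρ) :
    ∃ w > 0, w ≤ 1 ∧ 16 * w ^ 2 * K ^ 2 ≤ ε / 4 ∧ 4 * w ^ 2 * K ^ 2 ≤ 1 ∧
      4 * w ^ 2 * C * K ^ 2 ≤ ρ := by
  have t1 : Tendsto (fun w : ℝ => 16 * w ^ 2 * K ^ 2) (𝓝[>] 0) (𝓝 0) := by
    apply Tendsto.mono_left _ nhdsWithin_le_nhds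
    have : Continuous (fun w : ℝ => 16 * w ^ 2 * K ^ 2) := by fun_prop
    exact this.tendsto' 0 0 (by simp)
  have t2 : Tendsto (fun w : ℝ => 4 * w ^ 2 * K ^ 2) (𝓝[>] 0) (𝓝 0) := by
    apply Tendsto.mono_left _ nhdsWithin_le_nhds
    have : Continuous (fun w : ℝ => 4 * w ^ 2 * K ^ 2) := by fun_prop
    exact this.tendsto' 0 0 (by simp)
  have t3 : Tendsto (fun w : ℝ => 4 * w ^ 2 * C * K ^ 2) (𝓝[>] 0) (𝓝 0) := by
    apply Tendsto.mono_left _ nhdsWithin_le_nhds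
    have : Continuous (fun w : ℝ => 4 * w ^ 2 * C * K ^ 2) := by fun_prop
    exact this.tendsto' 0 0 (by simp)
  have t4 : Tendsto (fun w : ℝ => w) (𝓝[>] 0) (𝓝 0) :=
    Tendsto.mono_left tendsto_id nhdsWithin_le_nhds
  obtain ⟨w, h1, h2, h3, h4, h5⟩ := ((t1.eventually_lt_const (by positivity : 0 < ε / 4)).and
    ((t2.eventually_lt_const one_pos).and ((t3.eventually_lt_const hρ).and
    ((t4.eventually_lt_const one_pos).and self_mem_nhdsWithin)))).exists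
  exact ⟨w, h5, h4.le, h1.le, h2.le, h3.le⟩

lemma exists_eta (K ε ρ δ c n : ℝ) (hε : 0 < ε) (hρ : 0 < ρ) (hδ : 0 < δ) :
    ∃ η > 0, η ≤ 1 ∧ 2 * n * η ^ 2 * K ^ 2 ≤ ε / 4 ∧ (3 * K * n * η) ^ 2 ≤ ρ ∧ c * n * η ≤ δ := by
  have t1 : Tendsto (fun η : ℝ => 2 * n * η ^ 2 * K ^ 2) (𝓝[>] 0) (𝓝 0) := by
    apply Tendsto.mono_left _ nhdsWithin_le_nhds
    have : Continuous (fun η : ℝ => 2 * n * η ^ 2 * K ^ 2) := by fun_prop
    exact this.tendsto' 0 0 (by simp)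
  have t2 : Tendsto (fun η : ℝ => (3 * K * n * η) ^ 2) (𝓝[>] 0) (𝓝 0) := by
    apply Tendsto.mono_left _ nhdsWithin_le_nhds
    have : Continuous (fun η : ℝ => (3 * K * n * η) ^ 2) := by fun_prop
    exact this.tendsto' 0 0 (by simp)
  have t3 : Tendsto (fun η : ℝ => c * n * η) (𝓝[>] 0) (𝓝 0) := by
    apply Tendsto.mono_left _ nhdsWithin_le_nhds
    have : Continuous (fun η : ℝ => c * n * η) := by fun_prop
    exact this.tendsto' 0 0 (by simp)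
  have t4 : Tendsto (fun w : ℝ => w) (𝓝[>] 0) (𝓝 0) :=
    Tendsto.mono_left tendsto_id nhdsWithin_le_nhds
  obtain ⟨w, h1, h2, h3, h4, h5⟩ := ((t1.eventually_lt_const (by positivity : 0 < ε / 4)).and
    ((t2.eventually_lt_const hρ).and ((t3.eventually_lt_const hδ).and
    ((t4.eventually_lt_const one_pos).and self_mem_nhdsWithin)))).exists
  exact ⟨w, h5, h4.le, h1.le, h2.le, h3.le⟩

lemma exists_J (R ε ρ w : ℝ) (hε : 0 < ε) (hρ : 0 < ρ) (hw : 0 < w) (hw1 : w ≤ 1) :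
    ∃ J : ℕ, 0 < J ∧ 128 * R ^ 2 / ε ≤ w ^ 2 * J ∧ 4 / (J:ℝ) ≤ ρ ∧
      w ^ 2 * J ≤ 128 * R ^ 2 / ε + 4 / ρ + 1 := by
  have h0 : 0 < 128 * R ^ 2 / (ε * w ^ 2) + 4 / ρ := by positivity
  refine ⟨⌈128 * R ^ 2 / (ε * w ^ 2) + 4 / ρ⌉₊, Nat.ceil_pos.2 h0, ?_, ?_, ?_⟩
  · have h1 := Nat.le_ceil (128 * R ^ 2 / (ε * w ^ 2) + 4 / ρ)
    have h2 : 128 * R ^ 2 / (ε * w ^ 2) ≤ (⌈128 * R ^ 2 / (ε * w ^ 2) + 4 / ρ⌉₊ : ℝ) := by
      have : 0 < 4 / ρ := by positivity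
      linarith
    have h3 : 128 * R ^ 2 / ε = w ^ 2 * (128 * R ^ 2 / (ε * w ^ 2)) := by field_simp
    rw [h3]
    gcongr
  · have h1 := Nat.le_ceil (128 * R ^ 2 / (ε * w ^ 2) + 4 / ρ)
    have h2 : 4 / ρ ≤ (⌈128 * R ^ 2 / (ε * w ^ 2) + 4 / ρ⌉₊ : ℝ) := by
      have : 0 ≤ 128 * R ^ 2 / (ε * w ^ 2) := by positivity
      linarith
    have h3 : (0:ℝ) < (⌈128 * R ^ 2 / (ε * w ^ 2) + 4 / ρ⌉₊ : ℝ) := by
      exact_mod_cast Nat.ceil_pos.2 h0
    rw [div_le_iff₀ h3]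
    rw [div_le_iff₀ hρ] at h2
    linarith
  · have h1 := (Nat.ceil_lt_add_one h0.le).le
    calc w ^ 2 * (⌈128 * R ^ 2 / (ε * w ^ 2) + 4 / ρ⌉₊ : ℝ)
        ≤ w ^ 2 * (128 * R ^ 2 / (ε * w ^ 2) + 4 / ρ + 1) := by gcongr
      _ = 128 * R ^ 2 / ε + w ^ 2 * (4 / ρ + 1) := by field_simp; ring
      _ ≤ 128 * R ^ 2 / ε + 1 * (4 / ρ + 1) := by
          have : w ^ 2 ≤ 1 := by nlinarith
          gcongr
      _ = _ := by ring

/-- the pointwise estimate -/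
lemma pt_est {m : ℕ} (a b X P d : ℕ → ℝ) (U ut et : ℝ) {s1 s2 s3 s4 : ℝ}
    (h1 : |∑ i ∈ Finset.range m, (b i + a i * U) * a i| ≤ s1)
    (h2 : |∑ i ∈ Finset.range m, b i * X i| ≤ s2)
    (h3 : |∑ i ∈ Finset.range m, (d i * P i - (b i + a i * U) * (X i - a i * et + a i * ut))| ≤ s3)
    (h4 : s4 ≤ |U| * |∑ i ∈ Finset.range m, a i * X i|) :
    s4 - s2 - s3 - s1 * (|ut| + |et|) ≤ |∑ i ∈ Finset.range m, d i * P i| := by
  have e1 : U * ∑ i ∈ Finset.range m, a i * X i =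
      ∑ i ∈ Finset.range m, d i * P i -
      ∑ i ∈ Finset.range m, (d i * P i - (b i + a i * U) * (X i - a i * et + a i * ut)) -
      ∑ i ∈ Finset.range m, b i * X i -
      (∑ i ∈ Finset.range m, (b i + a i * U) * a i) * (ut - et) := by
    rw [Finset.mul_sum, Finset.sum_mul, ← Finset.sum_sub_distrib, ← Finset.sum_sub_distrib,
      ← Finset.sum_sub_distrib]
    apply Finset.sum_congr rfl
    intro i _
    ring
  rw [← abs_mul, e1] at h4
  have h5 : |(∑ i ∈ Finset.range m, (b i + a i * U) * a i) * (ut - et)| ≤ s1 * (|ut| + |et|) := by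
    rw [abs_mul]
    have := abs_sub ut et
    have h6 := abs_nonneg (∑ i ∈ Finset.range m, (b i + a i * U) * a i)
    have h7 : 0 ≤ s1 := h6.trans h1
    gcongr
  have h8 := abs_sub (∑ i ∈ Finset.range m, d i * P i -
      ∑ i ∈ Finset.range m, (d i * P i - (b i + a i * U) * (X i - a i * et + a i * ut)) -
      ∑ i ∈ Finset.range m, b i * X i) ((∑ i ∈ Finset.range m, (b i + a i * U) * a i) * (ut - et))
  have h9 := abs_sub (∑ i ∈ Finset.range m, d i * P i -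
      ∑ i ∈ Finset.range m, (d i * P i - (b i + a i * U) * (X i - a i * et + a i * ut)))
      (∑ i ∈ Finset.range m, b i * X i)
  have h10 := abs_sub (∑ i ∈ Finset.range m, d i * P i)
      (∑ i ∈ Finset.range m, (d i * P i - (b i + a i * U) * (X i - a i * et + a i * ut)))
  linarith

/-- a unit vector orthogonal to `V` which together with `V` contains `g` -/
lemma exists_unit (V : Submodule ℝ HH) [FiniteDimensional ℝ V] (g : HH) :
    ∃ u : HH, ‖u‖ = 1 ∧ (∀ v ∈ V, inner ℝ v u = 0) ∧ ∃ v0 ∈ V, ∃ c : ℝ, g = v0 + c • u := by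
  have main : ∀ z : HH, z ∉ V → ∃ u : HH, ‖u‖ = 1 ∧ (∀ v ∈ V, inner ℝ v u = 0) ∧
      ∃ v0 ∈ V, ∃ c : ℝ, z = v0 + c • u := by
    intro z hz
    set p : HH := V.starProjection z with hp
    have hpV : p ∈ V := Submodule.starProjection_apply_mem V z
    have h0 : z - p ≠ 0 := fun h => hz ((sub_eq_zero.1 h) ▸ hpV)
    have hn : 0 < ‖z - p‖ := norm_pos_iff.2 h0
    refine ⟨(‖z - p‖)⁻¹ • (z - p), ?_, ?_, p, hpV, ‖z - p‖, ?_⟩
    · rw [norm_smul, norm_inv, norm_norm, inv_mul_cancel₀ hn.ne']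
    · intro v hv
      rw [inner_smul_right]
      have : inner ℝ v (z - p) = 0 :=
        (Submodule.mem_orthogonal V _).1 (Submodule.sub_starProjection_mem_orthogonal z) v hv
      rw [this, mul_zero]
    · rw [smul_smul, mul_inv_cancel₀ hn.ne', one_smul]
      abel
  by_cases hg : g ∈ V
  · obtain ⟨z, hz⟩ := exists_notMem V
    obtain ⟨u, h1, h2, _⟩ := main z (fun h => hz (Submodule.mem_sup_left h))
    exact ⟨u, h1, h2, g, hg, 0, by simp⟩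
  · exact main g hg

lemma meas_ix0 {q0 : ℕ} {ρ : ℝ} (h : 1 / 2 ^ q0 ≤ ρ) :
    mu {t | ix q0 t = 0} ≤ ENNReal.ofReal ρ := by
  refine le_trans (measure_mono ?_) (markov (G := fun t => if ix q0 t = 0 then (1:ℝ) else 0)
    (fun t => by split_ifs <;> norm_num) (F_int q0 (fun x => if x = 0 then (1:ℝ) else 0)) (r := ρ) ?_)
  · intro t ht
    simp only [Set.mem_ofPred_eq] at ht ⊢
    rw [if_pos ht]
  · rw [int_ind0]; exact h

lemma meas_pop {J : ℕ} (hJ : 0 < J) (p : ℕ) {ρ : ℝ} (h : 4 / (J:ℝ) ≤ ρ) :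
    mu {t | (pop J (ix (p + J) t % 2 ^ J) : ℝ) < J / 4} ≤ ENNReal.ofReal ρ := by
  refine le_trans (measure_mono ?_) (markov
    (G := fun t => (fun _ => (1:ℝ)) (ix p t) *
      (fun y => if (pop J y : ℝ) < J / 4 then (1:ℝ) else 0) (ix (p + J) t % 2 ^ J))
    (fun t => by simp only; split_ifs <;> norm_num) ?_ (r := ρ) ?_)
  · intro t ht
    simp only [Set.mem_ofPred_eq] at ht ⊢
    rw [if_pos ht]; norm_num
  · exact (F_int (p + J) (fun l => (1:ℝ) * (if (pop J (l % 2 ^ J) : ℝ) < J / 4 then (1:ℝ) else 0)))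
  · rw [integral_indep p J (fun _ => (1:ℝ)) (fun y => if (pop J y : ℝ) < J / 4 then (1:ℝ) else 0)]
    have h1 : ∑ y ∈ Finset.range (2 ^ J), (if (pop J y : ℝ) < J / 4 then (1:ℝ) else 0) =
        (((Finset.range (2 ^ J)).filter (fun l => (pop J l : ℝ) < J / 4)).card : ℝ) := by
      rw [Finset.sum_ite]
      simp
    rw [h1]
    have h2 := pop_few J hJ
    have h3 : (0:ℝ) < 2 ^ J := by positivity
    simp only [integral_const, probReal_univ, smul_eq_mul, one_mul, mul_one]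
    calc 1 / 2 ^ J * (((Finset.range (2 ^ J)).filter (fun l => (pop J l : ℝ) < J / 4)).card : ℝ)
        ≤ 1 / 2 ^ J * (2 ^ J * (4 / J)) := by gcongr
      _ = 4 / J := by field_simp
      _ ≤ ρ := h

/-- the error coming from the `b i` -/
lemma meas_E2 {J : ℕ} (p : ℕ) (w : ℝ) (b : ℕ → ℝ) {ρ : ℝ}
    (h : w ^ 2 * J * ∑ i ∈ Finset.range (2 ^ J - 1), b i ^ 2 ≤ ρ) :
    mu {t | 1 ≤ w ^ 2 * (J * ∑ i ∈ Finset.range (2 ^ J - 1),
      b i ^ 2 * hN J i (ix (p + J) t % 2 ^ J) ^ 2)} ≤ ENNReal.ofReal ρ := by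
  refine markov
    (G := fun t => w ^ 2 * (J * ∑ i ∈ Finset.range (2 ^ J - 1),
      b i ^ 2 * hN J i (ix (p + J) t % 2 ^ J) ^ 2)) (fun t => by positivity) ?_ ?_
  · exact (F_int (p + J) (fun l => w ^ 2 * (J * ∑ i ∈ Finset.range (2 ^ J - 1),
      b i ^ 2 * hN J i (l % 2 ^ J) ^ 2)))
  · have h1 : ∀ t, w ^ 2 * (J * ∑ i ∈ Finset.range (2 ^ J - 1),
        b i ^ 2 * hN J i (ix (p + J) t % 2 ^ J) ^ 2) = (fun _ => (1:ℝ)) (ix p t) *
        (fun y => w ^ 2 * (J * ∑ i ∈ Finset.range (2 ^ J - 1), b i ^ 2 * hN J i y ^ 2))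
          (ix (p + J) t % 2 ^ J) := by
      intro t; simp only; ring
    rw [integral_congr_ae (ae_of_all _ h1), integral_indep p J (fun _ => (1:ℝ))
      (fun y => w ^ 2 * (J * ∑ i ∈ Finset.range (2 ^ J - 1), b i ^ 2 * hN J i y ^ 2))]
    simp only [integral_const, probReal_univ, smul_eq_mul, one_mul, mul_one]
    rw [← Finset.mul_sum, ← Finset.mul_sum, Finset.sum_comm]
    have h2 : ∀ i ∈ Finset.range (2 ^ J - 1),
        1 / 2 ^ J * ∑ y ∈ Finset.range (2 ^ J), b i ^ 2 * hN J i y ^ 2 = b i ^ 2 := by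
      intro i hi
      rw [Finset.mem_range] at hi
      have h3 := hN_orth hi hi
      rw [if_pos rfl] at h3
      rw [← Finset.mul_sum]
      have h4 : ∀ y, hN J i y ^ 2 = hN J i y * hN J i y := fun y => sq _
      simp_rw [h4]
      calc 1 / 2 ^ J * (b i ^ 2 * ∑ y ∈ Finset.range (2 ^ J), hN J i y * hN J i y)
          = b i ^ 2 * (1 / 2 ^ J * ∑ y ∈ Finset.range (2 ^ J), hN J i y * hN J i y) := by ring
        _ = b i ^ 2 := by rw [h3, mul_one]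
    calc 1 / 2 ^ J * (w ^ 2 * (J * ∑ i ∈ Finset.range (2 ^ J - 1),
          ∑ y ∈ Finset.range (2 ^ J), b i ^ 2 * hN J i y ^ 2))
        = w ^ 2 * J * (1 / 2 ^ J * ∑ i ∈ Finset.range (2 ^ J - 1),
          ∑ y ∈ Finset.range (2 ^ J), b i ^ 2 * hN J i y ^ 2) := by ring
      _ = w ^ 2 * J * ∑ i ∈ Finset.range (2 ^ J - 1), b i ^ 2 := by
          rw [Finset.mul_sum, Finset.sum_congr rfl h2]
      _ ≤ ρ := h

end Pool.Agent.H769R2.ONS
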