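import Pool.Agent.H769R2.ONS6

/-! The block lemma. -/

set_option autoImplicit false

namespace Pool.Agent.H769R2.ONS

open MeasureTheory Set Filter Topology

/-- energy inequality -/
lemma energy {N : ℕ} (χ ψ : ℕ → HH) (a : ℕ → ℝ) (u f : HH)
    (ha : ∑ i ∈ Finset.range N, a i ^ 2 = 1) {η K β2 : ℝ}
    (hη : ∀ i < N + 1, ‖ψ i - xx N χ a u i‖ ≤ η) (hf : ‖f‖ ≤ K) (hη0 : 0 ≤ η) (hK : 0 ≤ K)
    (hβ : ∑ i ∈ Finset.range N, inner ℝ (χ i) f ^ 2 ≤ β2) :
    ∑ i ∈ Finset.range (N + 1), inner ℝ (ψ i) f ^ 2 ≤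
      4 * β2 + 4 * inner ℝ u f ^ 2 + 2 * ((N + 1 : ℕ) : ℝ) * η ^ 2 * K ^ 2 := by
  have h1 : ∀ i ∈ Finset.range (N + 1), inner ℝ (ψ i) f ^ 2 ≤
      2 * inner ℝ (xx N χ a u i) f ^ 2 + 2 * (η ^ 2 * K ^ 2) := by
    intro i hi
    rw [Finset.mem_range] at hi
    have e1 : inner ℝ (ψ i) f = inner ℝ (xx N χ a u i) f + inner ℝ (ψ i - xx N χ a u i) f := by
      rw [← inner_add_left]; congr 1; abel
    have e2 : |inner ℝ (ψ i - xx N χ a u i) f| ≤ η * K :=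
      (abs_real_inner_le_norm _ _).trans (mul_le_mul (hη i hi) hf (norm_nonneg _) hη0)
    have e3 : inner ℝ (ψ i - xx N χ a u i) f ^ 2 ≤ (η * K) ^ 2 := by
      rw [← sq_abs]; gcongr
    rw [e1]
    nlinarith [sq_nonneg (inner ℝ (xx N χ a u i) f - inner ℝ (ψ i - xx N χ a u i) f)]
  refine (Finset.sum_le_sum h1).trans ?_
  rw [Finset.sum_add_distrib, ← Finset.mul_sum, Finset.sum_range_succ, xx_last]
  have h2 : ∀ i ∈ Finset.range N, inner ℝ (xx N χ a u i) f ^ 2 ≤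
      2 * bco N χ a f i ^ 2 + 2 * inner ℝ u f ^ 2 * a i ^ 2 := by
    intro i hi
    rw [inner_xx (Finset.mem_range.1 hi)]
    nlinarith [sq_nonneg (bco N χ a f i - a i * inner ℝ u f)]
  have h3 := Finset.sum_le_sum h2
  rw [Finset.sum_add_distrib, ← Finset.mul_sum, ← Finset.mul_sum, ha, sum_bco_sq ha] at h3
  simp only [Finset.sum_const, Finset.card_range, nsmul_eq_mul]
  nlinarith [sq_nonneg (inner ℝ (ee N χ a) f)]

/-- the perturbation error, as an element of `L²` -/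
noncomputable def EE (n : ℕ) (x ψ : ℕ → HH) (η K : ℝ) : HH :=
  ∑ i ∈ Finset.range n, ((K * η) • |ψ i| + (2 * K) • |ψ i - x i|)

lemma norm_EE (n : ℕ) (x ψ : ℕ → HH) {η K : ℝ} (hη0 : 0 ≤ η) (hK : 0 ≤ K)
    (h1 : ∀ i < n, ‖ψ i‖ = 1) (h2 : ∀ i < n, ‖ψ i - x i‖ ≤ η) : ‖EE n x ψ η K‖ ≤ 3 * K * n * η := by
  unfold EE
  refine (norm_sum_le _ _).trans ?_
  have h3 : ∀ i ∈ Finset.range n, ‖(K * η) • |ψ i| + (2 * K) • |ψ i - x i|‖ ≤ 3 * K * η := by
    intro i hi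
    rw [Finset.mem_range] at hi
    refine (norm_add_le _ _).trans ?_
    rw [norm_smul, norm_smul, norm_abs_eq_norm, norm_abs_eq_norm, h1 i hi, Real.norm_eq_abs,
      Real.norm_eq_abs, abs_of_nonneg (by positivity), abs_of_nonneg (by positivity)]
    have := mul_le_mul_of_nonneg_left (h2 i hi) (by positivity : 0 ≤ 2 * K)
    linarith
  refine (Finset.sum_le_sum h3).trans ?_
  simp only [Finset.sum_const, Finset.card_range, nsmul_eq_mul]
  nlinarith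

lemma EE_ae (n : ℕ) (x ψ : ℕ → HH) (η K : ℝ) :
    ∀ᵐ t ∂mu, (EE n x ψ η K : ℝ → ℝ) t = ∑ i ∈ Finset.range n,
      (K * η * |(ψ i : ℝ → ℝ) t| + 2 * K * |(ψ i : ℝ → ℝ) t - (x i : ℝ → ℝ) t|) := by
  unfold EE
  have h1 := Lp.coeFn_finsetSum (p := 2) (μ := mu) (Finset.range n)
    (fun i => (K * η) • |ψ i| + (2 * K) • |ψ i - x i|)
  have h2 : ∀ i, ∀ᵐ t ∂mu, ((((K * η) • |ψ i| + (2 * K) • |ψ i - x i| : HH)) : ℝ → ℝ) t =
      K * η * |(ψ i : ℝ → ℝ) t| + 2 * K * |(ψ i : ℝ → ℝ) t - (x i : ℝ → ℝ) t| := by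
    intro i
    filter_upwards [Lp.coeFn_add ((K * η) • |ψ i|) ((2 * K) • |ψ i - x i|),
      Lp.coeFn_smul (K * η) |ψ i|, Lp.coeFn_smul (2 * K) |ψ i - x i|, Lp.coeFn_abs (ψ i),
      Lp.coeFn_abs (ψ i - x i), Lp.coeFn_sub (ψ i) (x i)] with t a1 a2 a3 a4 a5 a6
    rw [a1, Pi.add_apply, a2, a3, Pi.smul_apply, Pi.smul_apply, a4, a5, a6]
    simp
  filter_upwards [h1, ae_all_iff.2 h2] with t b1 b2
  rw [b1]
  simp only [Finset.sum_apply]
  exact Finset.sum_congr rfl fun i _ => b2 i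

lemma xx_ae {N : ℕ} (χ : ℕ → HH) (a : ℕ → ℝ) (u : HH) :
    ∀ᵐ t ∂mu, ∀ i < N, ((xx N χ a u i : HH) : ℝ → ℝ) t =
      (χ i : ℝ → ℝ) t - a i * ((ee N χ a : HH) : ℝ → ℝ) t + a i * (u : ℝ → ℝ) t := by
  rw [ae_all_iff]
  intro i
  by_cases hi : i < N
  · unfold xx
    rw [if_pos hi]
    filter_upwards [Lp.coeFn_add (χ i - a i • ee N χ a) (a i • u),
      Lp.coeFn_sub (χ i) (a i • ee N χ a), Lp.coeFn_smul (a i) (ee N χ a),
      Lp.coeFn_smul (a i) u] with t a1 a2 a3 a4 _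
    rw [a1, Pi.add_apply, a2, Pi.sub_apply, a3, a4]
    simp
  · exact ae_of_all _ fun t h => absurd h hi

/-- the coefficients `a i` -/
noncomputable def an (J i : ℕ) : ℝ := bn J i / √J

lemma sum_an_sq {J : ℕ} (hJ : 0 < J) : ∑ i ∈ Finset.range (2 ^ J - 1), an J i ^ 2 = 1 := by
  have hJ' : (0:ℝ) < J := by exact_mod_cast hJ
  unfold an
  simp_rw [div_pow]
  rw [← Finset.sum_div, sum_bn_sq, Real.sq_sqrt hJ'.le, div_self hJ'.ne']

/-- one block -/
theorem block (V : Submodule ℝ HH) [FiniteDimensional ℝ V] (hV : V ⊓ Linf = ⊥) (g : HH)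
    (K ε δ ρ : ℝ) (hK : 0 ≤ K) (hε : 0 < ε) (hδ : 0 < δ) (hρ : 0 < ρ) :
    ∃ n > 0, ∃ ψ : ℕ → HH, (∀ i < n, ‖ψ i‖ = 1) ∧
      (∀ i < n, ∀ j < n, i ≠ j → inner ℝ (ψ i) (ψ j) = 0) ∧
      (∀ i < n, ∀ v ∈ V, inner ℝ v (ψ i) = 0) ∧
      (V ⊔ Submodule.span ℝ (ψ '' {i | i < n})) ⊓ Linf = ⊥ ∧
      (∃ y ∈ V ⊔ Submodule.span ℝ (ψ '' {i | i < n}), ‖g - y‖ ≤ δ) ∧
      ∀ f, Bd f K → ε ≤ ∑ i ∈ Finset.range n, inner ℝ (ψ i) f ^ 2 →
        mu {t | ∀ m ≤ n, |∑ i ∈ Finset.range m, inner ℝ (ψ i) f * (ψ i : ℝ → ℝ) t| ≤ K} ≤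
          ENNReal.ofReal ρ := by
  obtain ⟨u, hu1, huV, v0, hv0, c, hg⟩ := exists_unit V g
  set ρ1 : ℝ := ρ / 6 with hρ1
  have hρ1p : 0 < ρ1 := by positivity
  set R1 : ℝ := 1 / √ρ1 with hR1
  have hR1p : 0 < R1 := by positivity
  have hR1s : ρ1 * R1 ^ 2 = 1 := by
    rw [hR1, div_pow, Real.sq_sqrt hρ1p.le]; field_simp
  set R : ℝ := K + 2 * (K + 1) * R1 + 3 with hR
  have hRp : 0 < R := by positivity
  obtain ⟨w, hw0, hw1, hw2, hw3, hw4⟩ :=
    exists_w K ε ρ1 (128 * R ^ 2 / ε + 4 / ρ1 + 1) hε hρ1p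
  obtain ⟨J, hJ0, hJ1, hJ2, hJ3⟩ := exists_J R ε ρ1 w hε hρ1p hw0 hw1
  obtain ⟨q0, hq0⟩ : ∃ q0 : ℕ, (1 / 2 : ℝ) ^ q0 < min (w ^ 2) ρ1 :=
    exists_pow_lt_of_lt_one (by positivity) (by norm_num)
  have hq1 : 1 / 2 ^ q0 ≤ w ^ 2 := by
    have := (hq0.trans_le (min_le_left _ _)).le
    rwa [div_pow, one_pow] at this
  have hq2 : 1 / 2 ^ q0 ≤ ρ1 := by
    have := (hq0.trans_le (min_le_right _ _)).le
    rwa [div_pow, one_pow] at this
  set N : ℕ := 2 ^ J - 1 with hNdef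
  obtain ⟨η, hη0, hη1, hη2, hη3, hη4⟩ :=
    exists_eta K ε ρ1 δ |c| ((N + 1 : ℕ) : ℝ) hε hρ1p hδ
  obtain ⟨θ, hθ0, hθ⟩ := perturb (N + 1) η hη0
  -- the choice of the digits
  set a : ℕ → ℝ := an J with ha'
  have ha : ∑ i ∈ Finset.range N, a i ^ 2 = 1 := sum_an_sq hJ0
  have hon := chiL_orthonormal (q0 := q0) (J := J) hw0.le hw1
  obtain ⟨q, hq⟩ := weak_small (fun z : ℕ × Fin (2 ^ J - 1) => chiL q0 J w z.1 z.2) hon
    (V ⊔ Submodule.span ℝ {u}) (θ / (4 * (N + 1))) (by positivity)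
  set χ : ℕ → HH := chiL q0 J w q with hχ'
  have hχ : ∀ i < N, ∀ j < N, inner ℝ (χ i) (χ j) = if i = j then (1:ℝ) else 0 := by
    intro i hi j hj
    have := (orthonormal_iff_ite.1 hon) (q, ⟨i, hi⟩) (q, ⟨j, hj⟩)
    simp only [Prod.mk.injEq, Fin.mk.injEq, true_and] at this
    exact this
  obtain ⟨r1, r2, r3⟩ := xx_ready (a := a) hχ ha hu1 V huV hθ0
    (fun i hi v hv => hq ⟨i, hi⟩ v (Submodule.mem_sup_left hv))
    (fun i hi => by
      have := hq ⟨i, hi⟩ u (Submodule.mem_sup_right (Submodule.mem_span_singleton_self u))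
      rw [hu1, mul_one, real_inner_comm] at this
      exact this)
  obtain ⟨ψ, p1, p2, p3, p4, p5⟩ := hθ V inferInstance hV (xx N χ a u) r1 r2 r3
  refine ⟨N + 1, Nat.succ_pos _, ψ, p1, p2, p3, p5, ?_, ?_⟩
  · -- the approximation
    refine ⟨v0 + c • ∑ i ∈ Finset.range N, a i • ψ i, ?_, ?_⟩
    · apply Submodule.add_mem _ (Submodule.mem_sup_left hv0)
      apply Submodule.smul_mem
      apply Submodule.sum_mem
      intro i hi
      apply Submodule.smul_mem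
      apply Submodule.mem_sup_right
      apply Submodule.subset_span
      exact ⟨i, Nat.lt_succ_of_lt (Finset.mem_range.1 hi), rfl⟩
    · have e1 : g - (v0 + c • ∑ i ∈ Finset.range N, a i • ψ i) =
          -(c • ∑ i ∈ Finset.range N, a i • (ψ i - xx N χ a u i)) := by
        have e2 : ∑ i ∈ Finset.range N, a i • (ψ i - xx N χ a u i) =
            ∑ i ∈ Finset.range N, a i • ψ i - u := by
          simp_rw [smul_sub]
          rw [Finset.sum_sub_distrib, sum_xx ha]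
        rw [e2, hg, smul_sub]
        abel
      rw [e1, norm_neg, norm_smul, Real.norm_eq_abs]
      have e3 : ‖∑ i ∈ Finset.range N, a i • (ψ i - xx N χ a u i)‖ ≤ (N + 1 : ℕ) * η := by
        refine (norm_sum_le _ _).trans ?_
        have : ∀ i ∈ Finset.range N, ‖a i • (ψ i - xx N χ a u i)‖ ≤ η := by
          intro i hi
          rw [Finset.mem_range] at hi
          rw [norm_smul, Real.norm_eq_abs]
          have := mul_le_mul (abs_a_le ha hi) (p4 i (by omega)) (norm_nonneg _) zero_le_one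
          linarith
        refine (Finset.sum_le_sum this).trans ?_
        simp only [Finset.sum_const, Finset.card_range, nsmul_eq_mul]
        push_cast
        nlinarith
      calc |c| * ‖∑ i ∈ Finset.range N, a i • (ψ i - xx N χ a u i)‖ ≤ |c| * ((N + 1 : ℕ) * η) := by
            gcongr
        _ = |c| * ((N + 1 : ℕ) : ℝ) * η := by ring
        _ ≤ δ := hη4
  -- the divergence
  intro f hf hen
  have hfK : ‖f‖ ≤ K := norm_le_of_Bd hK hf
  set U : ℝ := inner ℝ u f with hU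
  set b : ℕ → ℝ := bco N χ a f with hb
  have hβ : ∑ i ∈ Finset.range N, inner ℝ (χ i) f ^ 2 ≤ 4 * w ^ 2 * K ^ 2 :=
    bessel hw0.le hw1 hq1 q hf
  have hUK : |U| ≤ K := by
    refine (abs_real_inner_le_norm _ _).trans ?_
    rw [hu1, one_mul]; exact hfK
  have hU2 : ε / 8 ≤ U ^ 2 := by
    have := energy χ ψ a u f ha p4 hfK hη0.le hK hβ
    have h2 := hen.trans this
    nlinarith
  have hcb : ∀ m ≤ N, |∑ i ∈ Finset.range m, (b i + a i * U) * a i| ≤ K + 1 := by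
    intro m hm
    have := coef_bound (χ := χ) ha f U hm zero_le_one (by rw [one_pow]; exact hβ.trans hw3)
    linarith
  have hbs : ∑ i ∈ Finset.range N, b i ^ 2 ≤ 4 * w ^ 2 * K ^ 2 := by
    rw [hb, sum_bco_sq ha]
    nlinarith [sq_nonneg (inner ℝ (ee N χ a) f)]
  -- the bad sets
  set p : ℕ := q0 + q * J with hp
  set B1 : Set ℝ := {t | ix q0 t = 0} with hB1
  set B2 : Set ℝ := {t | (pop J (ix (p + J) t % 2 ^ J) : ℝ) < J / 4} with hB2
  set B3 : Set ℝ := {t | R1 ≤ |(u : ℝ → ℝ) t|} with hB3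
  set B4 : Set ℝ := {t | R1 ≤ |((ee N χ a : HH) : ℝ → ℝ) t|} with hB4
  set B5 : Set ℝ := {t | 1 ≤ w ^ 2 * (J * ∑ i ∈ Finset.range (2 ^ J - 1),
      b i ^ 2 * hN J i (ix (p + J) t % 2 ^ J) ^ 2)} with hB5
  set B6 : Set ℝ := {t | 1 ≤ |(EE (N + 1) (xx N χ a u) ψ η K : ℝ → ℝ) t|} with hB6
  have m1 : mu B1 ≤ ENNReal.ofReal ρ1 := meas_ix0 hq2
  have m2 : mu B2 ≤ ENNReal.ofReal ρ1 := meas_pop hJ0 p hJ2
  have m3 : mu B3 ≤ ENNReal.ofReal ρ1 := cheb u hR1p (by rw [hu1, hR1s]; norm_num)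
  have m4 : mu B4 ≤ ENNReal.ofReal ρ1 := by
    refine cheb _ hR1p ?_
    rw [← real_inner_self_eq_norm_sq, inner_ee_ee hχ ha, hR1s]
  have m5 : mu B5 ≤ ENNReal.ofReal ρ1 := by
    refine meas_E2 p w b ?_
    have h1 : w ^ 2 * (J:ℝ) * ∑ i ∈ Finset.range (2 ^ J - 1), b i ^ 2 ≤
        (128 * R ^ 2 / ε + 4 / ρ1 + 1) * (4 * w ^ 2 * K ^ 2) :=
      mul_le_mul hJ3 hbs (Finset.sum_nonneg fun _ _ => sq_nonneg _) (by positivity)
    calc _ ≤ _ := h1
      _ = 4 * w ^ 2 * (128 * R ^ 2 / ε + 4 / ρ1 + 1) * K ^ 2 := by ring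
      _ ≤ ρ1 := hw4
  have m6 : mu B6 ≤ ENNReal.ofReal ρ1 := by
    refine cheb _ one_pos ?_
    have h1 := norm_EE (N + 1) (xx N χ a u) ψ hη0.le hK p1 p4
    have h2 : ‖EE (N + 1) (xx N χ a u) ψ η K‖ ^ 2 ≤ (3 * K * ((N + 1 : ℕ) : ℝ) * η) ^ 2 := by
      gcongr
    rw [one_pow, mul_one]
    exact h2.trans hη3
  have hsub : {t | ∀ m ≤ N + 1, |∑ i ∈ Finset.range m, inner ℝ (ψ i) f * (ψ i : ℝ → ℝ) t| ≤ K}
      ≤ᵐ[mu] (B1 ∪ B2 ∪ B3 ∪ B4 ∪ B5 ∪ B6 : Set ℝ) := by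
    have hχae : ∀ᵐ t ∂mu, ∀ i, (χ i : ℝ → ℝ) t = chi q0 J w q i t := by
      rw [ae_all_iff]
      intro i
      exact (chi_memLp q0 J w q i).coeFn_toLp
    filter_upwards [hχae, xx_ae (N := N) χ a u, EE_ae (N + 1) (xx N χ a u) ψ η K,
      Lp.coeFn_finsetSum (p := 2) (μ := mu) (Finset.range N) (fun i => a i • χ i)] with t t1 t2 t3 t4
    intro ht
    by_contra hbad
    replace ht : ∀ m ≤ N + 1, |∑ i ∈ Finset.range m, inner ℝ (ψ i) f * (ψ i : ℝ → ℝ) t| ≤ K := ht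
    replace hbad : t ∉ (B1 ∪ B2 ∪ B3 ∪ B4 ∪ B5 ∪ B6 : Set ℝ) := hbad
    simp only [Set.mem_union, not_or] at hbad
    obtain ⟨⟨⟨⟨⟨n1, n2⟩, n3⟩, n4⟩, n5⟩, n6⟩ := hbad
    simp only [hB1, hB2, hB3, hB4, hB5, hB6, Set.mem_ofPred_eq, not_le, not_lt] at n1 n2 n3 n4 n5 n6
    set y : ℕ := ix (p + J) t % 2 ^ J with hy
    have hy1 : y < 2 ^ J := Nat.mod_lt _ (by positivity)
    have hy2 : y ≤ N := by omega
    have hXi : ∀ i, (χ i : ℝ → ℝ) t = w * hN J i y := by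
      intro i
      rw [t1 i, chi, Wt, if_neg n1]
      rfl
    -- the four ingredients
    have i2 : |∑ i ∈ Finset.range y, b i * (χ i : ℝ → ℝ) t| ≤ 1 := by
      have j1 : |∑ i ∈ Finset.range y, b i * (χ i : ℝ → ℝ) t| ≤
          w * ∑ i ∈ Finset.range (2 ^ J - 1), |b i| * |hN J i y| := by
        refine (Finset.abs_sum_le_sum_abs _ _).trans ?_
        rw [Finset.mul_sum]
        refine (Finset.sum_le_sum_of_subset_of_nonneg (Finset.range_mono hy2)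
          fun _ _ _ => abs_nonneg _).trans (le_of_eq ?_)
        apply Finset.sum_congr rfl
        intro i _
        rw [hXi, abs_mul, abs_mul, abs_of_pos hw0]
        ring
      refine j1.trans ?_
      have j2 := hN_cs J b hy1
      have j3 : (w * ∑ i ∈ Finset.range (2 ^ J - 1), |b i| * |hN J i y|) ^ 2 ≤ 1 ^ 2 := by
        rw [mul_pow]
        calc w ^ 2 * (∑ i ∈ Finset.range (2 ^ J - 1), |b i| * |hN J i y|) ^ 2 ≤
            w ^ 2 * (J * ∑ i ∈ Finset.range (2 ^ J - 1), b i ^ 2 * hN J i y ^ 2) := by gcongr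
          _ ≤ 1 ^ 2 := by rw [one_pow]; exact n5.le
      exact (abs_le_of_sq_le_sq' j3 zero_le_one).2
    have i3 : |∑ i ∈ Finset.range y, (inner ℝ (ψ i) f * (ψ i : ℝ → ℝ) t -
        (b i + a i * U) * ((χ i : ℝ → ℝ) t - a i * ((ee N χ a : HH) : ℝ → ℝ) t +
          a i * (u : ℝ → ℝ) t))| ≤ 1 := by
      refine (Finset.abs_sum_le_sum_abs _ _).trans ?_
      have j1 : ∀ i ∈ Finset.range y, |inner ℝ (ψ i) f * (ψ i : ℝ → ℝ) t -
          (b i + a i * U) * ((χ i : ℝ → ℝ) t - a i * ((ee N χ a : HH) : ℝ → ℝ) t +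
          a i * (u : ℝ → ℝ) t)| ≤
          K * η * |(ψ i : ℝ → ℝ) t| + 2 * K * |(ψ i : ℝ → ℝ) t - ((xx N χ a u i : HH) : ℝ → ℝ) t| := by
        intro i hi
        rw [Finset.mem_range] at hi
        have hiN : i < N := lt_of_lt_of_le hi hy2
        rw [← t2 i hiN, hb, ← inner_xx hiN]
        have e1 : inner ℝ (ψ i) f * (ψ i : ℝ → ℝ) t -
            inner ℝ (xx N χ a u i) f * ((xx N χ a u i : HH) : ℝ → ℝ) t =
            inner ℝ (ψ i - xx N χ a u i) f * (ψ i : ℝ → ℝ) t +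
            inner ℝ (xx N χ a u i) f * ((ψ i : ℝ → ℝ) t - ((xx N χ a u i : HH) : ℝ → ℝ) t) := by
          rw [inner_sub_left]; ring
        rw [e1]
        refine (abs_add_le _ _).trans ?_
        rw [abs_mul, abs_mul]
        have e2 : |inner ℝ (ψ i - xx N χ a u i) f| ≤ K * η := by
          refine (abs_real_inner_le_norm _ _).trans ?_
          rw [mul_comm]
          exact mul_le_mul hfK (p4 i (by omega)) (norm_nonneg _) hK
        have e3 : |inner ℝ (xx N χ a u i) f| ≤ 2 * K := by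
          refine (abs_real_inner_le_norm _ _).trans ?_
          have e4 : ‖xx N χ a u i‖ ≤ 2 := by
            have e5 : xx N χ a u i = ψ i - (ψ i - xx N χ a u i) := by abel
            rw [e5]
            refine (norm_sub_le _ _).trans ?_
            have := p1 i (by omega)
            have := p4 i (by omega)
            linarith
          exact mul_le_mul e4 hfK (norm_nonneg _) (by norm_num)
        gcongr
      refine (Finset.sum_le_sum j1).trans ?_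
      have j2 : ∑ i ∈ Finset.range y, (K * η * |(ψ i : ℝ → ℝ) t| +
          2 * K * |(ψ i : ℝ → ℝ) t - ((xx N χ a u i : HH) : ℝ → ℝ) t|) ≤
          ∑ i ∈ Finset.range (N + 1), (K * η * |(ψ i : ℝ → ℝ) t| +
          2 * K * |(ψ i : ℝ → ℝ) t - ((xx N χ a u i : HH) : ℝ → ℝ) t|) :=
        Finset.sum_le_sum_of_subset_of_nonneg (Finset.range_mono (by omega))
          fun _ _ _ => by positivity
      refine j2.trans ?_
      rw [← t3]
      exact (le_abs_self _).trans n6.le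
    have i4 : R ≤ |U| * |∑ i ∈ Finset.range y, a i * (χ i : ℝ → ℝ) t| := by
      have hJp : (0:ℝ) < J := by exact_mod_cast hJ0
      have j1 : ∑ i ∈ Finset.range y, a i * (χ i : ℝ → ℝ) t = -(w / √J * pop J y) := by
        have j2 : ∀ i ∈ Finset.range y, a i * (χ i : ℝ → ℝ) t = w / √J * (bn J i * hN J i y) := by
          intro i _
          rw [hXi, ha', an]; ring
        rw [Finset.sum_congr rfl j2, ← Finset.mul_sum, hN_partial J hy1]
        ring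
      rw [j1, abs_neg, ← abs_mul, ← abs_of_pos hRp]
      apply sq_le_sq.1
      rw [mul_pow, mul_pow, div_pow, Real.sq_sqrt hJp.le]
      have j3 : ((J:ℝ) / 4) ^ 2 ≤ (pop J y : ℝ) ^ 2 := by gcongr
      calc R ^ 2 = ε * (128 * R ^ 2 / ε) / 128 := by field_simp
        _ ≤ ε * (w ^ 2 * J) / 128 := by gcongr
        _ = ε / 8 * (w ^ 2 / J * (J / 4) ^ 2) := by field_simp; ring
        _ ≤ U ^ 2 * (w ^ 2 / J * (pop J y : ℝ) ^ 2) := by gcongr
    have main := pt_est a b (fun i => (χ i : ℝ → ℝ) t) (fun i => (ψ i : ℝ → ℝ) t)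
      (fun i => inner ℝ (ψ i) f) U ((u : ℝ → ℝ) t) (((ee N χ a : HH) : ℝ → ℝ) t) (hcb y hy2) i2 i3 i4
    have fin := ht y (by omega)
    have h7 : (K + 1) * (|(u : ℝ → ℝ) t| + |((ee N χ a : HH) : ℝ → ℝ) t|) ≤ (K + 1) * (2 * R1) := by
      have : 0 ≤ K + 1 := by linarith
      gcongr
      linarith
    have h8 := main.trans fin
    rw [hR] at h8
    linarith
  refine (measure_mono_ae hsub).trans ?_
  refine (measure_union_le _ _).trans ?_
  have e6 : ENNReal.ofReal ρ = ENNReal.ofReal ρ1 + ENNReal.ofReal ρ1 + ENNReal.ofReal ρ1 +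
      ENNReal.ofReal ρ1 + ENNReal.ofReal ρ1 + ENNReal.ofReal ρ1 := by
    rw [← ENNReal.ofReal_add (by positivity) (by positivity), ← ENNReal.ofReal_add (by positivity) (by positivity),
      ← ENNReal.ofReal_add (by positivity) (by positivity), ← ENNReal.ofReal_add (by positivity) (by positivity),
      ← ENNReal.ofReal_add (by positivity) (by positivity)]
    congr 1
    rw [hρ1]; ring
  rw [e6]
  refine add_le_add ((measure_union_le _ _).trans (add_le_add ((measure_union_le _ _).trans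
    (add_le_add ((measure_union_le _ _).trans (add_le_add ((measure_union_le _ _).trans
    (add_le_add m1 m2)) m3)) m4)) m5)) m6

end Pool.Agent.H769R2.ONS
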