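import Pool.Agent.H769R2.ONS7

/-! Assembling the blocks. -/

set_option autoImplicit false

namespace Pool.Agent.H769R2.ONS

open MeasureTheory Set Filter Topology

/-- a finite orthonormal system whose span contains no bounded function -/
structure St where
  N : ℕ
  F : ℕ → HH
  e : ℝ
  h1 : ∀ i < N, ‖F i‖ = 1
  h2 : ∀ i < N, ∀ j < N, i ≠ j → inner ℝ (F i) (F j) = 0
  h3 : Submodule.span ℝ (F '' {i | i < N}) ⊓ Linf = ⊥
  he : 0 < e

lemma fd_span (N : ℕ) (F : ℕ → HH) : FiniteDimensional ℝ (Submodule.span ℝ (F '' {i | i < N})) :=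
  FiniteDimensional.span_of_finite ℝ ((Set.finite_lt_nat N).image F)

/-- what one step achieves -/
def Good (g : HH) (k : ℕ) (s s' : St) : Prop :=
  s.N < s'.N ∧ (∀ i < s.N, s'.F i = s.F i) ∧ s'.e ≤ s.e / 2 ∧
  (∃ y ∈ Submodule.span ℝ (s'.F '' {i | i < s'.N}), ‖g - y‖ ≤ 1 / ((k:ℝ) + 1)) ∧
  (∀ f, Bd f k → s.e ≤ ∑ i ∈ Finset.range (s'.N - s.N), inner ℝ (s'.F (s.N + i)) f ^ 2 →
    mu {t | ∀ m ≤ s'.N - s.N, |∑ i ∈ Finset.range m,
      inner ℝ (s'.F (s.N + i)) f * (s'.F (s.N + i) : ℝ → ℝ) t| ≤ k} ≤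
        ENNReal.ofReal ((1 / 2) ^ k)) ∧
  (∀ f, Bd f k → 1 / ((k:ℝ) + 1) ≤ ‖f‖ → ∀ v ∈ Submodule.span ℝ (s'.F '' {i | i < s'.N}),
    4 * s'.e ≤ ‖f - v‖ ^ 2)

lemma step (g : HH) (k : ℕ) (s : St) : ∃ s' : St, Good g k s s' := by
  haveI := fd_span s.N s.F
  obtain ⟨n, hn, ψ, p1, p2, p3, p4, ⟨y, hy, hgy⟩, p6⟩ :=
    block (Submodule.span ℝ (s.F '' {i | i < s.N})) s.h3 g k s.e (1 / ((k:ℝ) + 1)) ((1 / 2) ^ k)
      (Nat.cast_nonneg k) s.he (by positivity) (by positivity)
  set F' : ℕ → HH := fun i => if i < s.N then s.F i else ψ (i - s.N) with hF'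
  have hF1 : ∀ i < s.N, F' i = s.F i := fun i hi => by simp only [hF', if_pos hi]
  have hF2 : ∀ i, F' (s.N + i) = ψ i := fun i => by
    simp only [hF']
    rw [if_neg (by omega), Nat.add_sub_cancel_left]
  have hspan : Submodule.span ℝ (F' '' {i | i < s.N + n}) =
      Submodule.span ℝ (s.F '' {i | i < s.N}) ⊔ Submodule.span ℝ (ψ '' {i | i < n}) := by
    rw [← Submodule.span_union]
    congr 1
    ext x
    constructor
    · rintro ⟨i, hi, rfl⟩
      by_cases h : i < s.N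
      · exact Or.inl ⟨i, h, (hF1 i h).symm⟩
      · have hi' : i < s.N + n := hi
        refine Or.inr ⟨i - s.N, show i - s.N < n by omega, ?_⟩
        rw [← hF2]; congr 1; omega
    · rintro (⟨i, hi, rfl⟩ | ⟨i, hi, rfl⟩)
      · exact ⟨i, Nat.lt_add_right n hi, hF1 i hi⟩
      · exact ⟨s.N + i, Nat.add_lt_add_left hi s.N, hF2 i⟩
  haveI := fd_span (s.N + n) F'
  have h3' : Submodule.span ℝ (F' '' {i | i < s.N + n}) ⊓ Linf = ⊥ := by rw [hspan]; exact p4
  obtain ⟨δ, hδ0, hδ⟩ := exists_dist (Submodule.span ℝ (F' '' {i | i < s.N + n})) h3' k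
    (1 / ((k:ℝ) + 1)) (Nat.cast_nonneg k) (by positivity)
  have hmem : ∀ i < s.N, s.F i ∈ Submodule.span ℝ (s.F '' {i | i < s.N}) := fun i hi =>
    Submodule.subset_span ⟨i, hi, rfl⟩
  have hdec : ∀ i, i < s.N + n → i < s.N ∨ ∃ j < n, i = s.N + j := by
    intro i hi
    by_cases h : i < s.N
    · exact Or.inl h
    · exact Or.inr ⟨i - s.N, by omega, by omega⟩
  refine ⟨⟨s.N + n, F', min (s.e / 2) (δ ^ 2 / 4), ?_, ?_, h3', ?_⟩, ?_, ?_, ?_, ?_, ?_, ?_⟩
  · intro i hi
    rcases hdec i hi with h | ⟨j, hj, rfl⟩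
    · rw [hF1 i h]; exact s.h1 i h
    · rw [hF2]; exact p1 j hj
  · intro i hi j hj hij
    rcases hdec i hi with h | ⟨i', hi', rfl⟩
    · rcases hdec j hj with h' | ⟨j', hj', rfl⟩
      · rw [hF1 i h, hF1 j h']; exact s.h2 i h j h' hij
      · rw [hF1 i h, hF2]; exact p3 j' hj' _ (hmem i h)
    · rcases hdec j hj with h' | ⟨j', hj', rfl⟩
      · rw [hF1 j h', hF2, real_inner_comm]; exact p3 i' hi' _ (hmem j h')
      · rw [hF2, hF2]; exact p2 i' hi' j' hj' (fun h => hij (by rw [h]))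
  · have := s.he
    positivity
  · exact Nat.lt_add_of_pos_right hn
  · exact hF1
  · exact min_le_left _ _
  · exact ⟨y, by simp only; rw [hspan]; exact hy, hgy⟩
  · intro f hf
    simp only [Nat.add_sub_cancel_left, hF2]
    exact p6 f hf
  · intro f hf hf1 v hv
    have h4 := hδ f hf hf1 v hv
    calc 4 * min (s.e / 2) (δ ^ 2 / 4) ≤ 4 * (δ ^ 2 / 4) := by gcongr; exact min_le_right _ _
      _ = δ ^ 2 := by ring
      _ ≤ ‖f - v‖ ^ 2 := by gcongr

/-- the sequence of states -/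
noncomputable def st (g : ℕ → HH) : ℕ → St
  | 0 => ⟨0, fun _ => 0, 1, by simp, by simp, by simp, one_pos⟩
  | k + 1 => Classical.choose (step (g k) k (st g k))

lemma st_good (g : ℕ → HH) (k : ℕ) : Good (g k) k (st g k) (st g (k + 1)) :=
  Classical.choose_spec (step (g k) k (st g k))

lemma st_mono (g : ℕ → HH) : StrictMono (fun k => (st g k).N) :=
  strictMono_nat_of_lt_succ fun k => (st_good g k).1

lemma st_le (g : ℕ → HH) (k : ℕ) : k ≤ (st g k).N := (st_mono g).le_apply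

lemma st_stable (g : ℕ → HH) {k l : ℕ} (hkl : k ≤ l) : ∀ i < (st g k).N,
    (st g l).F i = (st g k).F i := by
  induction l, hkl using Nat.le_induction with
  | base => intro i _; rfl
  | succ l hl ih =>
    intro i hi
    rw [(st_good g l).2.1 i (lt_of_lt_of_le hi ((st_mono g).monotone hl)), ih i hi]

/-- the final system -/
noncomputable def Ph (g : ℕ → HH) (i : ℕ) : HH := (st g (i + 1)).F i

lemma Ph_eq (g : ℕ → HH) {k i : ℕ} (hi : i < (st g k).N) : Ph g i = (st g k).F i := by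
  unfold Ph
  have h1 : i < (st g (i + 1)).N := lt_of_lt_of_le (Nat.lt_succ_self i) (st_le g (i + 1))
  rcases le_total k (i + 1) with h | h
  · exact st_stable g h i hi
  · exact (st_stable g h i h1).symm

lemma Ph_on (g : ℕ → HH) : Orthonormal ℝ (Ph g) := by
  constructor
  · intro i
    have h1 : i < (st g (i + 1)).N := lt_of_lt_of_le (Nat.lt_succ_self i) (st_le g (i + 1))
    rw [Ph_eq g h1]
    exact (st g (i + 1)).h1 i h1
  · intro i j hij
    have h1 : i < (st g (max i j + 1)).N :=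
      lt_of_lt_of_le (by omega) (st_le g (max i j + 1))
    have h2 : j < (st g (max i j + 1)).N :=
      lt_of_lt_of_le (by omega) (st_le g (max i j + 1))
    rw [Ph_eq g h1, Ph_eq g h2]
    exact (st g (max i j + 1)).h2 i h1 j h2 hij

lemma Ph_span (g : ℕ → HH) (k : ℕ) :
    (st g k).F '' {i | i < (st g k).N} = Ph g '' {i | i < (st g k).N} :=
  Set.image_congr fun i hi => (Ph_eq g hi).symm

lemma Ph_dense (d : ℕ → HH) (hd : DenseRange d) :
    ⊤ ≤ (Submodule.span ℝ (Set.range (Ph (fun k => d (Nat.unpair k).1)))).topologicalClosure := by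
  set g : ℕ → HH := fun k => d (Nat.unpair k).1 with hg
  set W := (Submodule.span ℝ (Set.range (Ph g))).topologicalClosure with hW
  have h1 : ∀ j, d j ∈ W := by
    intro j
    rw [hW, ← SetLike.mem_coe, Submodule.topologicalClosure_coe, Metric.mem_closure_iff]
    intro ε hε
    obtain ⟨m, hm⟩ := exists_nat_one_div_lt hε
    obtain ⟨y, hy, hy2⟩ := (st_good g (Nat.pair j m)).2.2.2.1
    rw [Ph_span] at hy
    refine ⟨y, Submodule.span_mono (Set.image_subset_range _ _) hy, ?_⟩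
    have h2 : g (Nat.pair j m) = d j := by simp [hg]
    rw [h2] at hy2
    rw [dist_eq_norm]
    have h3 : (m:ℝ) ≤ (Nat.pair j m : ℕ) := by exact_mod_cast Nat.right_le_pair j m
    refine lt_of_le_of_lt (hy2.trans ?_) hm
    gcongr
  have h2 : closure (Set.range d) ⊆ (W : Set HH) :=
    closure_minimal (by rintro _ ⟨j, rfl⟩; exact h1 j) (Submodule.isClosed_topologicalClosure _)
  intro x _
  exact h2 (hd x)

/-- infinitely many blocks carry much energy -/
lemma energy_blocks (g : ℕ → HH)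
    (hsp : ⊤ ≤ (Submodule.span ℝ (Set.range (Ph g))).topologicalClosure) (f : HH) {K : ℝ}
    (hf : Bd f K) (hf0 : f ≠ 0) (k0 : ℕ) :
    ∃ j ≥ k0, Bd f j ∧ (st g j).e ≤ ∑ i ∈ Finset.range ((st g (j + 1)).N - (st g j).N),
      inner ℝ (Ph g ((st g j).N + i)) f ^ 2 := by
  have hbd : ∀ j : ℕ, K ≤ j → Bd f j := by
    intro j hj
    filter_upwards [hf] with t ht
    exact ht.trans hj
  obtain ⟨k1, hk1, hk2, hk3⟩ : ∃ k1 : ℕ, k0 ≤ k1 ∧ K ≤ k1 ∧ 1 / ((k1:ℝ) + 1) ≤ ‖f‖ := by
    obtain ⟨a, ha⟩ := exists_nat_ge K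
    obtain ⟨b, hb⟩ := exists_nat_one_div_lt (norm_pos_iff.2 hf0)
    refine ⟨max k0 (max a b), le_max_left _ _, ha.trans ?_, le_trans ?_ hb.le⟩
    · exact_mod_cast (le_max_left a b).trans (le_max_right _ _)
    · have : (b:ℝ) ≤ ((max k0 (max a b) : ℕ) : ℝ) := by
        exact_mod_cast (le_max_right a b).trans (le_max_right _ _)
      gcongr
  by_contra hcon
  push Not at hcon
  set c : ℕ → ℝ := fun i => inner ℝ (Ph g i) f with hc
  set e : ℕ → ℝ := fun j => (st g j).e with he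
  set N : ℕ → ℕ := fun j => (st g j).N with hN
  have hE : ∀ j ≥ k1 + 1, ∑ i ∈ Finset.range (N (j + 1) - N j), c (N j + i) ^ 2 < e j := by
    intro j hj
    refine hcon j (by omega) (hbd j (hk2.trans ?_))
    exact_mod_cast (by omega : k1 ≤ j)
  set b := HilbertBasis.mk (Ph_on g) hsp with hb
  have hbc : (b : ℕ → HH) = Ph g := HilbertBasis.coe_mk (Ph_on g) hsp
  have hsum : HasSum (fun i => c i ^ 2) (‖f‖ ^ 2) := by
    have h1 := b.hasSum_inner_mul_inner f f
    rw [real_inner_self_eq_norm_sq] at h1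
    have h2 : (fun i => inner ℝ f (b i) * inner ℝ (b i) f) = fun i => c i ^ 2 := by
      funext i
      rw [hbc, real_inner_comm, hc]
      simp only
      ring
    rwa [h2] at h1
  have hNm : StrictMono N := st_mono g
  have hNt : Tendsto N atTop atTop := hNm.tendsto_atTop
  have hlim : Tendsto (fun j => ∑ i ∈ Finset.range (N j), c i ^ 2) atTop (𝓝 (‖f‖ ^ 2)) :=
    hsum.tendsto_sum_nat.comp hNt
  have hstep : ∀ j ≥ k1 + 1, ∑ i ∈ Finset.range (N j), c i ^ 2 ≤
      ∑ i ∈ Finset.range (N (k1 + 1)), c i ^ 2 + 2 * e (k1 + 1) - 2 * e j := by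
    intro j hj
    induction j, hj using Nat.le_induction with
    | base => linarith
    | succ j hj ih =>
      have h1 := hE j hj
      have h2 : N (j + 1) = N j + (N (j + 1) - N j) := by
        have : N j < N (j + 1) := hNm (Nat.lt_succ_self j)
        omega
      have h3 : e (j + 1) ≤ e j / 2 := (st_good g j).2.2.1
      rw [h2, Finset.sum_range_add]
      linarith
  have hle : ‖f‖ ^ 2 ≤ ∑ i ∈ Finset.range (N (k1 + 1)), c i ^ 2 + 2 * e (k1 + 1) := by
    refine le_of_tendsto hlim ?_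
    filter_upwards [eventually_ge_atTop (k1 + 1)] with j hj
    have h1 := hstep j hj
    have h2 : 0 < e j := (st g j).he
    linarith
  -- the distance to the span
  set v : HH := ∑ i ∈ Finset.range (N (k1 + 1)), c i • Ph g i with hv
  have hvm : v ∈ Submodule.span ℝ ((st g (k1 + 1)).F '' {i | i < (st g (k1 + 1)).N}) := by
    rw [Ph_span]
    apply Submodule.sum_mem
    intro i hi
    exact Submodule.smul_mem _ _ (Submodule.subset_span ⟨i, Finset.mem_range.1 hi, rfl⟩)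
  have hdist := (st_good g k1).2.2.2.2.2 f (hbd k1 hk2) hk3 v hvm
  have hv2 : ‖f - v‖ ^ 2 = ‖f‖ ^ 2 - ∑ i ∈ Finset.range (N (k1 + 1)), c i ^ 2 := by
    rw [norm_sub_sq_real]
    have e1 : inner ℝ f v = ∑ i ∈ Finset.range (N (k1 + 1)), c i ^ 2 := by
      rw [hv, inner_sum]
      apply Finset.sum_congr rfl
      intro i _
      rw [inner_smul_right, real_inner_comm, hc]
      simp only
      ring
    have e2 : ‖v‖ ^ 2 = ∑ i ∈ Finset.range (N (k1 + 1)), c i ^ 2 := by
      rw [← real_inner_self_eq_norm_sq, hv]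
      rw [(Ph_on g).inner_sum c c]
      apply Finset.sum_congr rfl
      intro i _
      simp [sq]
    rw [e1, e2]
    ring
  rw [hv2] at hdist
  have h5 : 0 < e (k1 + 1) := (st g (k1 + 1)).he
  have h6 : e (k1 + 1) = (st g (k1 + 1)).e := rfl
  rw [← h6] at hdist
  linarith

/-- almost everywhere unboundedness -/
lemma unbdd (g : ℕ → HH)
    (hsp : ⊤ ≤ (Submodule.span ℝ (Set.range (Ph g))).topologicalClosure) (f : HH) {K : ℝ}
    (hf : Bd f K) (hf0 : f ≠ 0) :
    ∀ᵐ t ∂mu, ∀ M : ℝ, ∃ n, M < |∑ i ∈ Finset.range n, inner ℝ (Ph g i) f * (Ph g i : ℝ → ℝ) t| := by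
  classical
  set N : ℕ → ℕ := fun j => (st g j).N with hN
  set good : ℕ → Prop := fun j => Bd f j ∧ (st g j).e ≤ ∑ i ∈ Finset.range (N (j + 1) - N j),
      inner ℝ (Ph g (N j + i)) f ^ 2 with hgood
  set A : ℕ → Set ℝ := fun j => if good j then {t | ∀ m ≤ N (j + 1) - N j,
    |∑ i ∈ Finset.range m, inner ℝ (Ph g (N j + i)) f * (Ph g (N j + i) : ℝ → ℝ) t| ≤ j} else ∅
    with hA
  have hmA : ∀ j, mu (A j) ≤ ENNReal.ofReal ((1 / 2) ^ j) := by
    intro j
    by_cases hj : good j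
    · simp only [hA, if_pos hj]
      have hlt : N j < N (j + 1) := st_mono g (Nat.lt_succ_self j)
      have hPh : ∀ i < N (j + 1) - N j, Ph g (N j + i) = (st g (j + 1)).F (N j + i) := by
        intro i hi
        exact Ph_eq g (show N j + i < N (j + 1) by omega)
      have h1 := (st_good g j).2.2.2.2.1 f hj.1 (by
        refine hj.2.trans (le_of_eq ?_)
        apply Finset.sum_congr rfl
        intro i hi
        rw [hPh i (Finset.mem_range.1 hi)])
      refine le_trans (measure_mono ?_) h1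
      intro t ht m hm
      have h2 := ht m hm
      refine le_trans (le_of_eq ?_) h2
      congr 1
      apply Finset.sum_congr rfl
      intro i hi
      rw [hPh i (lt_of_lt_of_le (Finset.mem_range.1 hi) hm)]
    · simp only [hA, if_neg hj]
      simp
  have hsumA : ∑' j, mu (A j) ≠ ⊤ := by
    refine ne_top_of_le_ne_top ?_ (ENNReal.tsum_le_tsum hmA)
    have h1 : Summable (fun j : ℕ => ((1:ℝ) / 2) ^ j) :=
      summable_geometric_of_lt_one (by norm_num) (by norm_num)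
    rw [← ENNReal.ofReal_tsum_of_nonneg (fun j => by positivity) h1]
    exact ENNReal.ofReal_ne_top
  filter_upwards [ae_eventually_notMem hsumA] with t ht M
  by_contra hcon
  push Not at hcon
  rw [eventually_atTop] at ht
  obtain ⟨k0, hk0⟩ := ht
  obtain ⟨k1, hk1⟩ := exists_nat_gt (2 * M)
  obtain ⟨j, hj, hj1, hj2⟩ := energy_blocks g hsp f hf hf0 (max k0 k1)
  have hgj : good j := ⟨hj1, hj2⟩
  have h1 := hk0 j ((le_max_left _ _).trans hj)
  simp only [hA, if_pos hgj, Set.mem_ofPred_eq, not_forall, not_le] at h1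
  obtain ⟨m, hm, hm2⟩ := h1
  have e1 : ∑ i ∈ Finset.range m, inner ℝ (Ph g (N j + i)) f * (Ph g (N j + i) : ℝ → ℝ) t =
      ∑ i ∈ Finset.range (N j + m), inner ℝ (Ph g i) f * (Ph g i : ℝ → ℝ) t -
      ∑ i ∈ Finset.range (N j), inner ℝ (Ph g i) f * (Ph g i : ℝ → ℝ) t := by
    rw [Finset.sum_range_add]; ring
  rw [e1] at hm2
  have h2 := abs_sub (∑ i ∈ Finset.range (N j + m), inner ℝ (Ph g i) f * (Ph g i : ℝ → ℝ) t)
    (∑ i ∈ Finset.range (N j), inner ℝ (Ph g i) f * (Ph g i : ℝ → ℝ) t)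
  have h3 := hcon (N j + m)
  have h4 := hcon (N j)
  have h5 : (k1:ℝ) ≤ j := by exact_mod_cast (le_max_right _ _).trans hj
  linarith

instance : TopologicalSpace.SeparableSpace HH := by
  haveI : Fact ((2:ENNReal) ≠ ⊤) := ⟨by norm_num⟩
  haveI : SecondCountableTopology HH := Lp.SecondCountableTopology
  infer_instance

/-- the main theorem -/
theorem main_ons : ∃ φ : ℕ → ℝ → ℝ, (∀ n, Measurable (φ n)) ∧
    (∀ n, MemLp (φ n) 2 mu) ∧
    (∀ i j, ∫ t, φ i t * φ j t ∂mu = if i = j then (1:ℝ) else 0) ∧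
    (∀ g : ℝ → ℝ, MemLp g 2 mu → (∀ n, ∫ t, g t * φ n t ∂mu = 0) → g =ᵐ[mu] 0) ∧
    ∀ f : ℝ → ℝ, AEStronglyMeasurable f mu → (∃ M : ℝ, ∀ᵐ x ∂mu, |f x| ≤ M) → ¬ (f =ᵐ[mu] 0) →
      ∀ᵐ t ∂mu, ∀ M : ℝ, ∃ n, M < |∑ i ∈ Finset.range n, (∫ s, f s * φ i s ∂mu) * φ i t| := by
  set d : ℕ → HH := TopologicalSpace.denseSeq HH with hd
  set g : ℕ → HH := fun k => d (Nat.unpair k).1 with hg
  have hsp := Ph_dense d (TopologicalSpace.denseRange_denseSeq HH)
  refine ⟨fun i => (Ph g i : ℝ → ℝ), fun n => (Lp.stronglyMeasurable (Ph g n)).measurable,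
    fun n => Lp.memLp (Ph g n), ?_, ?_, ?_⟩
  · intro i j
    have h1 := (orthonormal_iff_ite.1 (Ph_on g)) i j
    rw [← h1, L2.inner_def]
    apply integral_congr_ae
    refine ae_of_all _ fun t => ?_
    simp [mul_comm]
  · intro h hh hh0
    have h1 : ∀ n, inner ℝ (Ph g n) (hh.toLp h) = 0 := by
      intro n
      rw [real_inner_comm, inner_toLp_left]
      exact hh0 n
    have h2 : hh.toLp h = 0 := by
      have h3 : (⊤ : Submodule ℝ HH) ≤ (Submodule.span ℝ {hh.toLp h})ᗮ := by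
        refine hsp.trans ?_
        apply Submodule.topologicalClosure_minimal _ _ (Submodule.isClosed_orthogonal _)
        rw [Submodule.span_le]
        rintro _ ⟨n, rfl⟩
        rw [SetLike.mem_coe, Submodule.mem_orthogonal_singleton_iff_inner_left]
        exact h1 n
      have h4 := h3 (Submodule.mem_top (x := hh.toLp h))
      rw [Submodule.mem_orthogonal_singleton_iff_inner_left] at h4
      exact inner_self_eq_zero.1 h4
    have h5 := hh.coeFn_toLp
    rw [h2] at h5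
    exact h5.symm.trans (Lp.coeFn_zero ℝ 2 mu)
  · rintro f hfm ⟨M, hM⟩ hf0
    have hf : MemLp f 2 mu := MemLp.of_bound hfm M hM
    have hbd : Bd (hf.toLp f) M := by
      filter_upwards [hf.coeFn_toLp, hM] with t h1 h2
      rw [h1]; exact h2
    have hne : hf.toLp f ≠ 0 := by
      intro h
      apply hf0
      have h5 := hf.coeFn_toLp
      rw [h] at h5
      exact h5.symm.trans (Lp.coeFn_zero ℝ 2 mu)
    filter_upwards [unbdd g hsp (hf.toLp f) hbd hne] with t ht B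
    obtain ⟨n, hn⟩ := ht B
    refine ⟨n, lt_of_lt_of_le hn (le_of_eq ?_)⟩
    congr 1
    apply Finset.sum_congr rfl
    intro i _
    rw [real_inner_comm, inner_toLp_left]

/-- a function continuous on `[0,1]` and not identically zero there is bounded and not a.e. zero -/
lemma cont_ok {f : ℝ → ℝ} (hf : ContinuousOn f (Icc (0:ℝ) 1)) (h0 : ∃ x ∈ Icc (0:ℝ) 1, f x ≠ 0) :
    AEStronglyMeasurable f mu ∧ (∃ M : ℝ, ∀ᵐ x ∂mu, |f x| ≤ M) ∧ ¬ (f =ᵐ[mu] 0) := by
  refine ⟨hf.aestronglyMeasurable measurableSet_Icc, ?_, ?_⟩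
  · obtain ⟨C, hC⟩ := isCompact_Icc.exists_bound_of_continuousOn hf
    exact ⟨C, (ae_restrict_iff' measurableSet_Icc).2 (ae_of_all _ hC)⟩
  · intro h
    obtain ⟨x, hx, hx0⟩ := h0
    have h1 : Set.EqOn f 0 (Icc (0:ℝ) 1) := by
      refine Measure.eqOn_Icc_of_ae_eq volume zero_ne_one h hf continuousOn_const
    exact hx0 (h1 hx)

end Pool.Agent.H769R2.ONS
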