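import Mathlib
import Pool.Agent.H925R3.RR.Stubs

set_option autoImplicit false

/-! HDB: lower bound for the height of `2P` -/

namespace Pool.Agent.H769R2

open Pool.Agent.H925R3.RR Pool.Agent.H925R3.DC

/-- multiplicative height -/
def rrM (q : ℚ) : ℤ := max |q.num| (q.den : ℤ)

theorem rrM_den (q : ℚ) : (q.den : ℤ) ≤ rrM q := le_max_right _ _

theorem rrM_num (q : ℚ) : |q.num| ≤ rrM q := le_max_left _ _

theorem rrM_one (q : ℚ) : 1 ≤ rrM q := by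
  have : (1 : ℤ) ≤ (q.den : ℤ) := by exact_mod_cast q.den_pos
  exact this.trans (rrM_den q)

theorem rr_cubic (c1 c2 c3 c4 A B M : ℤ) (hA : |A| ≤ M) (hB : |B| ≤ M) :
    |c1 * A ^ 3 + c2 * A ^ 2 * B + c3 * A * B ^ 2 + c4 * B ^ 3| ≤
      (|c1| + |c2| + |c3| + |c4|) * M ^ 3 := by
  have hM : 0 ≤ M := (abs_nonneg A).trans hA
  have e1 : |c1 * A ^ 3| ≤ |c1| * M ^ 3 := by
    rw [abs_mul, abs_pow]
    gcongr
  have e2 : |c2 * A ^ 2 * B| ≤ |c2| * M ^ 3 := by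
    rw [abs_mul, abs_mul, abs_pow]
    calc |c2| * |A| ^ 2 * |B| ≤ |c2| * M ^ 2 * M := by gcongr
      _ = |c2| * M ^ 3 := by ring
  have e3 : |c3 * A * B ^ 2| ≤ |c3| * M ^ 3 := by
    rw [abs_mul, abs_mul, abs_pow]
    calc |c3| * |A| * |B| ^ 2 ≤ |c3| * M * M ^ 2 := by gcongr
      _ = |c3| * M ^ 3 := by ring
  have e4 : |c4 * B ^ 3| ≤ |c4| * M ^ 3 := by
    rw [abs_mul, abs_pow]
    gcongr
  calc |c1 * A ^ 3 + c2 * A ^ 2 * B + c3 * A * B ^ 2 + c4 * B ^ 3|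
      ≤ |c1 * A ^ 3| + |c2 * A ^ 2 * B| + |c3 * A * B ^ 2| + |c4 * B ^ 3| := by
        refine (abs_add_le _ _).trans ?_
        gcongr
        refine (abs_add_le _ _).trans ?_
        gcongr
        exact abs_add_le _ _
    _ ≤ _ := by linarith

theorem rr_coprime (x : ℚ) : IsCoprime x.num (x.den : ℤ) := by
  rw [Int.isCoprime_iff_gcd_eq_one]
  have := x.reduced
  rw [Int.gcd, Int.natAbs_natCast]
  exact this

theorem rr_root (a b : ℤ) (x : ℚ) (h : x ^ 3 + (a : ℚ) * x + (b : ℚ) = 0) :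
    rrM x ≤ 1 + |a| + |b| := by
  have hB : (0 : ℤ) < (x.den : ℤ) := by exact_mod_cast x.den_pos
  have hBq : ((x.den : ℤ) : ℚ) ≠ 0 := by exact_mod_cast hB.ne'
  have hx : x = (x.num : ℚ) / ((x.den : ℤ) : ℚ) := by
    rw [Int.cast_natCast]; exact (Rat.num_div_den x).symm
  have hcop := rr_coprime x
  set A := x.num with hA
  set B : ℤ := (x.den : ℤ) with hBd
  have h1 : A ^ 3 + a * A * B ^ 2 + b * B ^ 3 = 0 := by
    have h2 : ((A : ℚ)) ^ 3 + a * A * B ^ 2 + b * B ^ 3 = 0 := by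
      rw [hx] at h
      field_simp at h
      linear_combination h
    exact_mod_cast h2
  have h3 : B ∣ A ^ 3 := ⟨-(a * A * B + b * B ^ 2), by linear_combination h1⟩
  have h4 : IsCoprime (A ^ 3) B := hcop.pow_left
  have h5 : IsUnit B := h4.isUnit_of_dvd' h3 dvd_rfl
  have h6 : B = 1 := by
    rcases Int.isUnit_iff.1 h5 with h | h
    · exact h
    · omega
  have hM : rrM x = max |A| B := rfl
  rw [hM, h6]
  apply max_le
  · rw [h6] at h1
    by_contra hc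
    push Not at hc
    have h7 : A ^ 3 = -(a * A + b) := by linear_combination h1
    have h8 : |A| ^ 3 ≤ |a| * |A| + |b| := by
      rw [← abs_pow, h7, abs_neg]
      refine (abs_add_le _ _).trans ?_
      rw [abs_mul]
    have h9 : 0 ≤ |a| := abs_nonneg a
    have h10 : 0 ≤ |b| := abs_nonneg b
    nlinarith [mul_nonneg h9 h10, mul_self_nonneg (|A|)]
  · have h9 : 0 ≤ |a| := abs_nonneg a
    have h10 : 0 ≤ |b| := abs_nonneg b
    omega

theorem rr_aux (A B D M N K1 K2 K3 K4 : ℤ) (hBp : 0 < B)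
    (hm : M = max |A| B) (hMN : 0 ≤ M ^ 3 * N)
    (k1 : 0 ≤ K1) (k2 : 0 ≤ K2) (k3 : 0 ≤ K3) (k4 : 0 ≤ K4)
    (c1 : |4 * D| * |B| ^ 7 ≤ (K1 + K2) * M ^ 3 * N)
    (c2 : |4 * D| * |A| ^ 7 ≤ (K3 + K4) * M ^ 3 * N) :
    |4 * D| * M ^ 7 ≤ (K1 + K2 + K3 + K4 + 1) * (M ^ 3 * N) := by
  have e1 := mul_nonneg k1 hMN
  have e2 := mul_nonneg k2 hMN
  have e3 := mul_nonneg k3 hMN
  have e4 := mul_nonneg k4 hMN
  have e5 : (K1 + K2 + K3 + K4 + 1) * (M ^ 3 * N) =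
      K1 * (M ^ 3 * N) + K2 * (M ^ 3 * N) + K3 * (M ^ 3 * N) + K4 * (M ^ 3 * N) + M ^ 3 * N := by
    ring
  rw [e5]
  have f1 : (K1 + K2) * M ^ 3 * N = K1 * (M ^ 3 * N) + K2 * (M ^ 3 * N) := by ring
  have f2 : (K3 + K4) * M ^ 3 * N = K3 * (M ^ 3 * N) + K4 * (M ^ 3 * N) := by ring
  rw [f1] at c1
  rw [f2] at c2
  rcases max_choice |A| B with h | h
  · have hAM : M = |A| := by rw [hm, h]
    rw [← hAM] at c2
    linarith
  · have hBM : M = |B| := by rw [hm, h, abs_of_pos hBp]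
    rw [← hBM] at c1
    linarith

theorem rr_main (a b : ℤ) (hD : 4 * a ^ 3 + 27 * b ^ 2 ≠ 0) :
    ∃ C : ℤ, 1 ≤ C ∧ ∀ x x2 : ℚ, x ^ 3 + (a : ℚ) * x + (b : ℚ) ≠ 0 →
      x2 * (4 * (x ^ 3 + (a : ℚ) * x + (b : ℚ))) =
        x ^ 4 - 2 * a * x ^ 2 - 8 * b * x + (a : ℚ) ^ 2 →
      rrM x ^ 4 ≤ C * rrM x2 := by
  set D : ℤ := 4 * a ^ 3 + 27 * b ^ 2 with hDd
  -- the constant
  set K1 : ℤ := |0| + |12| + |0| + |16 * a| with hK1
  set K2 : ℤ := |(-3)| + |0| + |5 * a| + |27 * b| with hK2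
  set K3 : ℤ := |4 * D| + |(-4 * a ^ 2 * b)| + |4 * a * (3 * a ^ 3 + 22 * b ^ 2)| +
    |12 * b * (a ^ 3 + 8 * b ^ 2)| with hK3
  set K4 : ℤ := |a ^ 2 * b| + |a * (5 * a ^ 3 + 32 * b ^ 2)| +
    |2 * b * (13 * a ^ 3 + 96 * b ^ 2)| + |(-3 * a ^ 2 * (a ^ 3 + 8 * b ^ 2))| with hK4
  have k1 : 0 ≤ K1 := by positivity
  have k2 : 0 ≤ K2 := by positivity
  have k3 : 0 ≤ K3 := by positivity
  have k4 : 0 ≤ K4 := by positivity
  refine ⟨K1 + K2 + K3 + K4 + 1, by linarith, ?_⟩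
  intro x x2 hne heq
  have hB : (0 : ℤ) < (x.den : ℤ) := by exact_mod_cast x.den_pos
  have hq : (0 : ℤ) < (x2.den : ℤ) := by exact_mod_cast x2.den_pos
  have hBq : ((x.den : ℤ) : ℚ) ≠ 0 := by exact_mod_cast hB.ne'
  have hqq : ((x2.den : ℤ) : ℚ) ≠ 0 := by exact_mod_cast hq.ne'
  have hx : x = (x.num : ℚ) / ((x.den : ℤ) : ℚ) := by
    rw [Int.cast_natCast]; exact (Rat.num_div_den x).symm
  have hx2 : x2 = (x2.num : ℚ) / ((x2.den : ℤ) : ℚ) := by
    rw [Int.cast_natCast]; exact (Rat.num_div_den x2).symm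
  have hcop := rr_coprime x
  have hcop2 := rr_coprime x2
  have hM1 := rrM_one x
  have hM2 := rrM_one x2
  have hMn := rrM_num x
  have hMd := rrM_den x
  have hm : rrM x = max |x.num| (x.den : ℤ) := rfl
  have hm2 : rrM x2 = max |x2.num| (x2.den : ℤ) := rfl
  set M := rrM x with hMdef
  set M2 := rrM x2 with hM2def
  set A := x.num with hA
  set B : ℤ := (x.den : ℤ) with hBd
  set p := x2.num with hp
  set q : ℤ := (x2.den : ℤ) with hqd
  set F : ℤ := A ^ 4 - 2 * a * A ^ 2 * B ^ 2 - 8 * b * A * B ^ 3 + a ^ 2 * B ^ 4 with hF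
  set G : ℤ := 4 * B * (A ^ 3 + a * A * B ^ 2 + b * B ^ 3) with hG
  have hpG : p * G = q * F := by
    have h1 : (p : ℚ) * (4 * B * (A ^ 3 + a * A * B ^ 2 + b * B ^ 3)) =
        q * (A ^ 4 - 2 * a * A ^ 2 * B ^ 2 - 8 * b * A * B ^ 3 + a ^ 2 * B ^ 4) := by
      rw [hx, hx2] at heq
      field_simp at heq
      linear_combination heq
    have h2 : ((p * G : ℤ) : ℚ) = ((q * F : ℤ) : ℚ) := by
      rw [hG, hF]; push_cast; exact h1
    exact_mod_cast h2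
  obtain ⟨k, hk⟩ : q ∣ G := by
    have h1 : q ∣ p * G := ⟨F, hpG⟩
    exact hcop2.symm.dvd_of_dvd_mul_left h1
  have hkF : F = p * k := by
    have h1 : q * F = q * (p * k) := by rw [← hpG, hk]; ring
    exact mul_left_cancel₀ hq.ne' h1
  -- the identities
  have id1 : (0 * A ^ 3 + 12 * A ^ 2 * B + 0 * A * B ^ 2 + (16 * a) * B ^ 3) * F +
      ((-3) * A ^ 3 + 0 * A ^ 2 * B + (5 * a) * A * B ^ 2 + (27 * b) * B ^ 3) * G =
        4 * D * B ^ 7 := by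
    rw [hF, hG, hDd]; ring
  have id2 : ((4 * D) * A ^ 3 + (-4 * a ^ 2 * b) * A ^ 2 * B +
      (4 * a * (3 * a ^ 3 + 22 * b ^ 2)) * A * B ^ 2 + (12 * b * (a ^ 3 + 8 * b ^ 2)) * B ^ 3) * F +
      ((a ^ 2 * b) * A ^ 3 + (a * (5 * a ^ 3 + 32 * b ^ 2)) * A ^ 2 * B +
      (2 * b * (13 * a ^ 3 + 96 * b ^ 2)) * A * B ^ 2 +
      (-3 * a ^ 2 * (a ^ 3 + 8 * b ^ 2)) * B ^ 3) * G = 4 * D * A ^ 7 := by
    rw [hF, hG, hDd]; ring
  have hBabs : |B| ≤ M := by rw [abs_of_pos hB]; exact hMd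
  have b1 := rr_cubic 0 12 0 (16 * a) A B M hMn hBabs
  have b2 := rr_cubic (-3) 0 (5 * a) (27 * b) A B M hMn hBabs
  have b3 := rr_cubic (4 * D) (-4 * a ^ 2 * b) (4 * a * (3 * a ^ 3 + 22 * b ^ 2))
    (12 * b * (a ^ 3 + 8 * b ^ 2)) A B M hMn hBabs
  have b4 := rr_cubic (a ^ 2 * b) (a * (5 * a ^ 3 + 32 * b ^ 2))
    (2 * b * (13 * a ^ 3 + 96 * b ^ 2)) (-3 * a ^ 2 * (a ^ 3 + 8 * b ^ 2)) A B M hMn hBabs
  rw [← hK1] at b1
  rw [← hK2] at b2
  rw [← hK3] at b3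
  rw [← hK4] at b4
  -- divisibility
  have hkF' : k ∣ F := hkF ▸ Dvd.intro_left p rfl
  have hkG' : k ∣ G := hk ▸ Dvd.intro_left q rfl
  have hkD : k ∣ 4 * D := by
    obtain ⟨u, v, huv⟩ : IsCoprime (A ^ 7) (B ^ 7) := hcop.pow
    have d1 : k ∣ 4 * D * B ^ 7 := by
      rw [← id1]
      exact dvd_add (hkF'.mul_left _) (hkG'.mul_left _)
    have d2 : k ∣ 4 * D * A ^ 7 := by
      rw [← id2]
      exact dvd_add (hkF'.mul_left _) (hkG'.mul_left _)
    have : 4 * D = u * (4 * D * A ^ 7) + v * (4 * D * B ^ 7) := by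
      linear_combination (-(4 * D)) * huv
    rw [this]
    exact dvd_add (d2.mul_left u) (d1.mul_left v)
  have h4D : 4 * D ≠ 0 := mul_ne_zero (by norm_num) hD
  have hkle : |k| ≤ |4 * D| := by
    obtain ⟨l, hl⟩ := hkD
    have hl0 : l ≠ 0 := by
      rintro rfl
      exact h4D (by rw [hl, mul_zero])
    rw [hl, abs_mul]
    have : 1 ≤ |l| := Int.one_le_abs hl0
    nlinarith [abs_nonneg k]
  have hDpos : 0 < |4 * D| := abs_pos.2 h4D
  -- N
  have hFN : |F| ≤ |k| * M2 := by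
    rw [hkF, abs_mul, mul_comm]
    have : |p| ≤ M2 := rrM_num x2
    gcongr
  have hGN : |G| ≤ |k| * M2 := by
    rw [hk, abs_mul, mul_comm]
    have : |q| ≤ M2 := by rw [abs_of_pos hq]; exact rrM_den x2
    gcongr
  set N : ℤ := |k| * M2 with hN
  have hN0 : 0 ≤ N := by positivity
  have hM30 : 0 ≤ M ^ 3 := by positivity
  have c1 : |4 * D| * |B| ^ 7 ≤ (K1 + K2) * M ^ 3 * N := by
    rw [← abs_pow, ← abs_mul, ← id1]
    refine (abs_add_le _ _).trans ?_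
    rw [abs_mul, abs_mul]
    calc _ ≤ K1 * M ^ 3 * N + K2 * M ^ 3 * N := by gcongr
      _ = _ := by ring
  have c2 : |4 * D| * |A| ^ 7 ≤ (K3 + K4) * M ^ 3 * N := by
    rw [← abs_pow, ← abs_mul, ← id2]
    refine (abs_add_le _ _).trans ?_
    rw [abs_mul, abs_mul]
    calc _ ≤ K3 * M ^ 3 * N + K4 * M ^ 3 * N := by gcongr
      _ = _ := by ring
  have hMN : 0 ≤ M ^ 3 * N := mul_nonneg hM30 hN0
  have c3 : |4 * D| * M ^ 7 ≤ (K1 + K2 + K3 + K4 + 1) * (M ^ 3 * N) :=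
    rr_aux A B D M N K1 K2 K3 K4 hB hm hMN k1 k2 k3 k4 c1 c2
  have hMpos : 0 < M := by linarith
  have hM3pos : 0 < M ^ 3 := by positivity
  have c4 : |4 * D| * M ^ 4 ≤ (K1 + K2 + K3 + K4 + 1) * N := by
    have : M ^ 3 * (|4 * D| * M ^ 4) ≤ M ^ 3 * ((K1 + K2 + K3 + K4 + 1) * N) := by
      calc M ^ 3 * (|4 * D| * M ^ 4) = |4 * D| * M ^ 7 := by ring
        _ ≤ _ := c3
        _ = _ := by ring
    exact le_of_mul_le_mul_left this hM3pos
  have hC0 : 0 ≤ K1 + K2 + K3 + K4 + 1 := by linarith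
  have c5 : |4 * D| * M ^ 4 ≤ |4 * D| * ((K1 + K2 + K3 + K4 + 1) * M2) := by
    calc |4 * D| * M ^ 4 ≤ (K1 + K2 + K3 + K4 + 1) * N := c4
      _ ≤ (K1 + K2 + K3 + K4 + 1) * (|4 * D| * M2) := by
        rw [hN]
        gcongr
      _ = _ := by ring
  exact le_of_mul_le_mul_left c5 hDpos

theorem rr_ht (x : ℚ) : ht x = Real.log ((rrM x : ℤ) : ℝ) := rfl

theorem rr_ht_nonneg (x : ℚ) : 0 ≤ ht x := by
  rw [rr_ht]
  apply Real.log_nonneg
  exact_mod_cast rrM_one x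

theorem rr_hdb : Pool.Agent.H925R3.RR.HDB := by
  intro hFDB hFEQ a b hD
  obtain ⟨C, hC1, hC⟩ := rr_main a b hD
  refine ⟨Real.log C + 4 * Real.log ((1 + |a| + |b| : ℤ) : ℝ), fun P => ?_⟩
  have hL1 : 0 ≤ Real.log (C : ℝ) := Real.log_nonneg (by exact_mod_cast hC1)
  have hL2 : 0 ≤ Real.log ((1 + |a| + |b| : ℤ) : ℝ) := by
    apply Real.log_nonneg
    have h1 : (1 : ℤ) ≤ 1 + |a| + |b| := by
      have := abs_nonneg a
      have := abs_nonneg b
      omega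
    exact_mod_cast h1
  by_cases hP : P = 0
  · subst hP
    have h1 : htp (0 : (crv ℚ (a : ℚ) (b : ℚ)).Point) = 0 := by
      unfold htp
      rw [if_pos rfl]
    rw [add_zero, h1]
    linarith
  have e1 : htp P = ht (xc P) := by unfold htp; rw [if_neg hP]
  by_cases hPP : P + P = 0
  · have e2 : htp (P + P) = 0 := by
      unfold htp; rw [if_pos hPP]
    rw [e1, e2]
    have hroot : (xc P) ^ 3 + (a : ℚ) * xc P + (b : ℚ) = 0 := by
      have hneg : P = -P := eq_neg_of_add_eq_zero_left hPP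
      rcases P with _ | ⟨x, y, h⟩
      · exact absurd rfl hP
      · have h2 : (WeierstrassCurve.Affine.Point.some x y h : (crv ℚ (a : ℚ) (b : ℚ)).Point) =
            WeierstrassCurve.Affine.Point.some x _
              ((WeierstrassCurve.Affine.nonsingular_neg x y).2 h) := hneg
        have h3 : y = (crv ℚ (a : ℚ) (b : ℚ)).negY x y := by
          injection h2
        have h4 : y = -y := by
          have h5 : (crv ℚ (a : ℚ) (b : ℚ)).negY x y = -y := by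
            simp [WeierstrassCurve.Affine.negY, crv]
          rw [h5] at h3
          exact h3
        have h6 : y = 0 := by linarith
        have h7 := h.1
        rw [WeierstrassCurve.Affine.equation_iff] at h7
        simp only [crv] at h7
        show x ^ 3 + (a : ℚ) * x + (b : ℚ) = 0
        rw [h6] at h7
        linear_combination -h7
    have h8 := rr_root a b (xc P) hroot
    have h9 : ht (xc P) ≤ Real.log ((1 + |a| + |b| : ℤ) : ℝ) := by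
      rw [rr_ht]
      apply Real.log_le_log
      · exact_mod_cast (rrM_one (xc P))
      · exact_mod_cast h8
    linarith
  · have e2 : htp (P + P) = ht (xc (P + P)) := by unfold htp; rw [if_neg hPP]
    obtain ⟨h1, h2⟩ := hFDB ℚ (a : ℚ) (b : ℚ) P hP hPP
    have h3 := hC (xc P) (xc (P + P)) h1 h2
    rw [e1, e2, rr_ht, rr_ht]
    have m1 : (0 : ℝ) < ((rrM (xc P) : ℤ) : ℝ) := by exact_mod_cast (rrM_one (xc P))
    have m2 : (0 : ℝ) < ((rrM (xc (P + P)) : ℤ) : ℝ) := by exact_mod_cast (rrM_one (xc (P + P)))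
    have m3 : (0 : ℝ) < (C : ℝ) := by exact_mod_cast hC1
    have h4 : ((rrM (xc P) : ℤ) : ℝ) ^ 4 ≤ (C : ℝ) * ((rrM (xc (P + P)) : ℤ) : ℝ) := by
      exact_mod_cast h3
    have h5 := Real.log_le_log (by positivity) h4
    rw [Real.log_pow, Real.log_mul m3.ne' m2.ne', Nat.cast_ofNat] at h5
    linarith

end Pool.Agent.H769R2
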