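import Mathlib
import Pool.Agent.H925R3.RR.Stubs

set_option autoImplicit false

/-! RK1: finitely generated abelian groups of rank at most one -/

namespace Pool.Agent.H769R2

theorem rr_rk1 : Pool.Agent.H925R3.RR.RK1 := by
  intro G _ _ hrk
  have hfin : Module.Finite ℤ G := Module.Finite.iff_addGroup_fg.2 inferInstance
  let S : Submodule ℤ G := Submodule.torsion ℤ G
  have hSfin : Module.Finite ℤ S := inferInstance
  have hSt : Module.IsTorsion ℤ S := Submodule.torsion_isTorsion
  have hSF : Finite S := Module.finite_of_fg_torsion S hSt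
  obtain ⟨T, hT0, hT⟩ : ∃ T : ℕ, 0 < T ∧ ∀ x ∈ S, T • x = 0 := by
    refine ⟨Nat.card S, Nat.card_pos, fun x hx => ?_⟩
    have h1 : Nat.card S • (⟨x, hx⟩ : S) = 0 := card_nsmul_eq_zero'
    have h2 := congrArg (Subtype.val) h1
    simpa using h2
  have hfree : Module.Free ℤ (G ⧸ S) := by
    exact Module.free_of_finite_type_torsion_free'
  let b := Module.Free.chooseBasis ℤ (G ⧸ S)
  have hsub : Subsingleton (Module.Free.ChooseBasisIndex ℤ (G ⧸ S)) := by
    refine ⟨fun i j => ?_⟩
    by_contra hij
    obtain ⟨Q, hQ⟩ := Submodule.Quotient.mk_surjective S (b i)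
    obtain ⟨R, hR⟩ := Submodule.Quotient.mk_surjective S (b j)
    obtain ⟨m, n, hmn, h0⟩ := hrk Q R
    have h1 : m • b i + n • b j = 0 := by
      rw [← hQ, ← hR, ← Submodule.Quotient.mk_smul, ← Submodule.Quotient.mk_smul,
        ← Submodule.Quotient.mk_add, h0, Submodule.Quotient.mk_zero]
    have h2 : b.repr (m • b i + n • b j) = 0 := by rw [h1, map_zero]
    have h3 := DFunLike.congr_fun h2 i
    have h4 := DFunLike.congr_fun h2 j
    simp [hij, Ne.symm hij] at h3 h4
    rcases hmn with h | h
    · exact h h3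
    · exact h h4
  rcases isEmpty_or_nonempty (Module.Free.ChooseBasisIndex ℤ (G ⧸ S)) with hE | ⟨⟨i⟩⟩
  · refine ⟨T, hT0, 0, Or.inl rfl, fun Q => ⟨0, ?_⟩⟩
    rw [zero_smul]
    apply hT
    rw [← Submodule.Quotient.mk_eq_zero S]
    have : b.repr (Submodule.Quotient.mk Q) = 0 := by
      ext i
      exact (hE.false i).elim
    exact (LinearEquiv.map_eq_zero_iff b.repr).1 this
  · obtain ⟨P0, hP0⟩ := Submodule.Quotient.mk_surjective S (b i)
    refine ⟨T, hT0, T • P0, Or.inr ?_, fun Q => ?_⟩
    · intro k hk h0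
      have h1 : (((k * T : ℕ) : ℤ)) • b i = 0 := by
        rw [← hP0, ← Submodule.Quotient.mk_smul, Nat.cast_smul_eq_nsmul, mul_smul, h0,
          Submodule.Quotient.mk_zero]
      have h2 : b.repr ((((k * T : ℕ) : ℤ)) • b i) i = 0 := by rw [h1, map_zero]; rfl
      have h3 : b.repr ((((k * T : ℕ) : ℤ)) • b i) i = ((k * T : ℕ) : ℤ) := by simp
      rw [h3] at h2
      have h4 : k * T = 0 := by exact_mod_cast h2
      have := Nat.mul_pos hk hT0
      omega
    · set n : ℤ := b.repr (Submodule.Quotient.mk Q) i with hn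
      refine ⟨n, ?_⟩
      have h1 : (Submodule.Quotient.mk Q : G ⧸ S) = n • b i := by
        apply b.repr.injective
        ext j
        have hj : j = i := Subsingleton.elim _ _
        subst hj
        simp [hn]
      have h2 : Q - n • P0 ∈ S := by
        rw [← Submodule.Quotient.mk_eq_zero S, Submodule.Quotient.mk_sub, h1,
          Submodule.Quotient.mk_smul, hP0, sub_self]
      have h3 := hT _ h2
      rw [smul_sub, sub_eq_zero] at h3
      rw [h3, smul_comm]

end Pool.Agent.H769R2
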