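import Mathlib

/-! Orderings of finitely many bounded complex (or real) numbers with bounded partial sums
(the two-dimensional Steinitz lemma, with a non-optimal constant). -/

set_option autoImplicit false

namespace Pool.Agent.H769R2

open Finset

lemma norm_le_re_im {𝕜 : Type} [RCLike 𝕜] (z : 𝕜) :
    ‖z‖ ≤ |RCLike.re z| + |RCLike.im z| := by
  conv_lhs => rw [← RCLike.re_add_im z]
  refine (norm_add_le _ _).trans ?_
  have h1 : ‖((RCLike.re z : ℝ) : 𝕜)‖ = |RCLike.re z| := RCLike.norm_ofReal _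
  have h2 : ‖((RCLike.im z : ℝ) : 𝕜) * RCLike.I‖ ≤ |RCLike.im z| := by
    rw [norm_mul, RCLike.norm_ofReal]
    have h3 : ‖(RCLike.I : 𝕜)‖ ≤ 1 := by
      by_cases h : (RCLike.I : 𝕜) = 0
      · rw [h]; simp
      · rw [RCLike.norm_I_of_ne_zero h]
    calc |RCLike.im z| * ‖(RCLike.I : 𝕜)‖ ≤ |RCLike.im z| * 1 := by gcongr
      _ = _ := mul_one _
  rw [h1]
  gcongr

lemma choose1 (B : Finset ℕ) (hB : B.Nonempty) (y : ℕ → ℝ) (hy : ∀ i ∈ B, |y i| ≤ 1) (s : ℝ)
    (hs : |s| ≤ 1) (ht : |s + ∑ i ∈ B, y i| ≤ 1) : ∃ i ∈ B, |s + y i| ≤ 1 := by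
  rw [abs_le] at hs ht
  rcases le_total 0 s with h0 | h0
  · by_cases h : ∃ i ∈ B, y i ≤ 0
    · obtain ⟨i, hi, hi0⟩ := h
      have := abs_le.1 (hy i hi)
      exact ⟨i, hi, abs_le.2 ⟨by linarith, by linarith⟩⟩
    · push Not at h
      obtain ⟨i, hi⟩ := hB
      have h1 : y i ≤ ∑ i ∈ B, y i := single_le_sum (fun j hj => (h j hj).le) hi
      have := h i hi
      exact ⟨i, hi, abs_le.2 ⟨by linarith, by linarith⟩⟩
  · by_cases h : ∃ i ∈ B, 0 ≤ y i
    · obtain ⟨i, hi, hi0⟩ := h
      have := abs_le.1 (hy i hi)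
      exact ⟨i, hi, abs_le.2 ⟨by linarith, by linarith⟩⟩
    · push Not at h
      obtain ⟨i, hi⟩ := hB
      have h1 : -y i ≤ ∑ i ∈ B, -y i :=
        single_le_sum (f := fun j => -y j) (fun j hj => by have := h j hj; linarith) hi
      rw [sum_neg_distrib] at h1
      have := h i hi
      exact ⟨i, hi, abs_le.2 ⟨by linarith, by linarith⟩⟩

lemma order2 (x y : ℕ → ℝ) : ∀ (m : ℕ) (L R : Finset ℕ) (sx sl sr : ℝ),
    Disjoint L R → L.card + R.card = m → (∀ i ∈ L, 0 ≤ x i) → (∀ i ∈ R, x i ≤ 0) →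
    (∀ i ∈ L ∪ R, |x i| ≤ 1) → (∀ i ∈ L ∪ R, |y i| ≤ 1) → |sx| ≤ 1 →
    |sx + (∑ i ∈ L, x i + ∑ i ∈ R, x i)| ≤ 1 → |sl| ≤ 1 → |sl + ∑ i ∈ L, y i| ≤ 1 →
    |sr| ≤ 1 → |sr + ∑ i ∈ R, y i| ≤ 1 →
    ∃ σ : ℕ → ℕ, (∀ i j, i < m → j < m → σ i = σ j → i = j) ∧ (∀ j < m, σ j ∈ L ∪ R) ∧
      ∀ j ≤ m, |sx + ∑ i ∈ range j, x (σ i)| ≤ 1 ∧
        |(sl + sr) + ∑ i ∈ range j, y (σ i)| ≤ 2 := by
  intro m
  induction m with
  | zero =>
    intro L R sx sl sr _ _ _ _ _ _ h1 _ h2 _ h3 _
    refine ⟨fun _ => 0, by intro i j hi; omega, by intro j hj; omega, ?_⟩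
    intro j hj
    have : j = 0 := by omega
    subst this
    simp only [range_zero, sum_empty, add_zero]
    exact ⟨h1, (abs_add_le _ _).trans (by linarith)⟩
  | succ m ih =>
    intro L R sx sl sr hd hc hL hR hx hy h1 h1' h2 h2' h3 h3'
    -- the step, given a choice
    have stepL : ∀ i ∈ L, |sx + x i| ≤ 1 → |sl + y i| ≤ 1 →
        ∃ σ : ℕ → ℕ, (∀ i j, i < m + 1 → j < m + 1 → σ i = σ j → i = j) ∧
          (∀ j < m + 1, σ j ∈ L ∪ R) ∧
          ∀ j ≤ m + 1, |sx + ∑ i ∈ range j, x (σ i)| ≤ 1 ∧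
          |(sl + sr) + ∑ i ∈ range j, y (σ i)| ≤ 2 := by
      intro i hi hxi hyi
      have e1 : ∑ j ∈ L, x j = x i + ∑ j ∈ L.erase i, x j := (add_sum_erase L x hi).symm
      have e2 : ∑ j ∈ L, y j = y i + ∑ j ∈ L.erase i, y j := (add_sum_erase L y hi).symm
      have hsub : L.erase i ∪ R ⊆ L ∪ R := union_subset_union (erase_subset _ _) (subset_refl _)
      obtain ⟨σ, s1, s2, s3⟩ := ih (L.erase i) R (sx + x i) (sl + y i) sr
        (hd.mono_left (erase_subset _ _))
        (by rw [card_erase_of_mem hi]; have := card_pos.2 ⟨i, hi⟩; omega)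
        (fun j hj => hL j (mem_of_mem_erase hj)) hR (fun j hj => hx j (hsub hj))
        (fun j hj => hy j (hsub hj)) hxi
        (by rw [e1] at h1'; convert h1' using 2; ring) hyi
        (by rw [e2] at h2'; convert h2' using 2; ring) h3 h3'
      have hni : ∀ j < m, σ j ≠ i := by
        intro j hj h
        have := s2 j hj
        rw [h, mem_union] at this
        rcases this with h4 | h4
        · exact (notMem_erase i L) h4
        · exact disjoint_left.1 hd hi h4
      refine ⟨fun j => Nat.casesOn j i σ, ?_, ?_, ?_⟩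
      · rintro (_ | a) (_ | b) ha hb hab
        · rfl
        · exact absurd hab.symm (hni b (by omega))
        · exact absurd hab (hni a (by omega))
        · have := s1 a b (by omega) (by omega) hab
          omega
      · rintro (_ | j) hj
        · exact mem_union_left _ hi
        · exact hsub (s2 j (by omega))
      · rintro (_ | j) hj
        · simp only [range_zero, sum_empty, add_zero]
          exact ⟨h1, (abs_add_le _ _).trans (by linarith)⟩
        · obtain ⟨t1, t2⟩ := s3 j (by omega)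
          rw [sum_range_succ', sum_range_succ']
          constructor
          · show |sx + (∑ k ∈ range j, x (σ k) + x i)| ≤ 1
            rw [show sx + (∑ k ∈ range j, x (σ k) + x i) = sx + x i + ∑ k ∈ range j, x (σ k) by ring]
            exact t1
          · show |(sl + sr) + (∑ k ∈ range j, y (σ k) + y i)| ≤ 2
            rw [show (sl + sr) + (∑ k ∈ range j, y (σ k) + y i) =
              (sl + y i + sr) + ∑ k ∈ range j, y (σ k) by ring]
            exact t2
    have stepR : ∀ i ∈ R, |sx + x i| ≤ 1 → |sr + y i| ≤ 1 →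
        ∃ σ : ℕ → ℕ, (∀ i j, i < m + 1 → j < m + 1 → σ i = σ j → i = j) ∧
          (∀ j < m + 1, σ j ∈ L ∪ R) ∧
          ∀ j ≤ m + 1, |sx + ∑ i ∈ range j, x (σ i)| ≤ 1 ∧
          |(sl + sr) + ∑ i ∈ range j, y (σ i)| ≤ 2 := by
      intro i hi hxi hyi
      have e1 : ∑ j ∈ R, x j = x i + ∑ j ∈ R.erase i, x j := (add_sum_erase R x hi).symm
      have e2 : ∑ j ∈ R, y j = y i + ∑ j ∈ R.erase i, y j := (add_sum_erase R y hi).symm
      have hsub : L ∪ R.erase i ⊆ L ∪ R := union_subset_union (subset_refl _) (erase_subset _ _)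
      obtain ⟨σ, s1, s2, s3⟩ := ih L (R.erase i) (sx + x i) sl (sr + y i)
        (hd.mono_right (erase_subset _ _))
        (by rw [card_erase_of_mem hi]; have := card_pos.2 ⟨i, hi⟩; omega)
        hL (fun j hj => hR j (mem_of_mem_erase hj)) (fun j hj => hx j (hsub hj))
        (fun j hj => hy j (hsub hj)) hxi
        (by rw [e1] at h1'; convert h1' using 2; ring) h2 h2' hyi
        (by rw [e2] at h3'; convert h3' using 2; ring)
      have hni : ∀ j < m, σ j ≠ i := by
        intro j hj h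
        have := s2 j hj
        rw [h, mem_union] at this
        rcases this with h4 | h4
        · exact disjoint_left.1 hd h4 hi
        · exact (notMem_erase i R) h4
      refine ⟨fun j => Nat.casesOn j i σ, ?_, ?_, ?_⟩
      · rintro (_ | a) (_ | b) ha hb hab
        · rfl
        · exact absurd hab.symm (hni b (by omega))
        · exact absurd hab (hni a (by omega))
        · have := s1 a b (by omega) (by omega) hab
          omega
      · rintro (_ | j) hj
        · exact mem_union_right _ hi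
        · exact hsub (s2 j (by omega))
      · rintro (_ | j) hj
        · simp only [range_zero, sum_empty, add_zero]
          exact ⟨h1, (abs_add_le _ _).trans (by linarith)⟩
        · obtain ⟨t1, t2⟩ := s3 j (by omega)
          rw [sum_range_succ', sum_range_succ']
          constructor
          · show |sx + (∑ k ∈ range j, x (σ k) + x i)| ≤ 1
            rw [show sx + (∑ k ∈ range j, x (σ k) + x i) = sx + x i + ∑ k ∈ range j, x (σ k) by ring]
            exact t1
          · show |(sl + sr) + (∑ k ∈ range j, y (σ k) + y i)| ≤ 2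
            rw [show (sl + sr) + (∑ k ∈ range j, y (σ k) + y i) =
              (sl + (sr + y i)) + ∑ k ∈ range j, y (σ k) by ring]
            exact t2
    have hyL : ∀ i ∈ L, |y i| ≤ 1 := fun i hi => hy i (mem_union_left _ hi)
    have hyR : ∀ i ∈ R, |y i| ≤ 1 := fun i hi => hy i (mem_union_right _ hi)
    have hxL : ∀ i ∈ L, |x i| ≤ 1 := fun i hi => hx i (mem_union_left _ hi)
    have hxR : ∀ i ∈ R, |x i| ≤ 1 := fun i hi => hx i (mem_union_right _ hi)
    have k1 := abs_le.1 h1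
    have k1' := abs_le.1 h1'
    rcases le_total sx 0 with h0 | h0
    · rcases L.eq_empty_or_nonempty with hLe | hLn
      · -- take from R
        have hRn : R.Nonempty := by
          rw [← card_pos]
          rw [hLe] at hc
          simp at hc
          omega
        obtain ⟨i, hi, hyi⟩ := choose1 R hRn y hyR sr h3 h3'
        refine stepR i hi ?_ hyi
        have h4 : -x i ≤ ∑ j ∈ R, -x j :=
          single_le_sum (f := fun j => -x j) (fun j hj => by have := hR j hj; linarith) hi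
        rw [sum_neg_distrib] at h4
        rw [hLe, sum_empty] at k1'
        have h5 := hR i hi
        exact abs_le.2 ⟨by linarith, by linarith⟩
      · obtain ⟨i, hi, hyi⟩ := choose1 L hLn y hyL sl h2 h2'
        refine stepL i hi ?_ hyi
        have h4 := hL i hi
        have h5 := abs_le.1 (hxL i hi)
        exact abs_le.2 ⟨by linarith, by linarith⟩
    · rcases R.eq_empty_or_nonempty with hRe | hRn
      · have hLn : L.Nonempty := by
          rw [← card_pos]
          rw [hRe] at hc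
          simp at hc
          omega
        obtain ⟨i, hi, hyi⟩ := choose1 L hLn y hyL sl h2 h2'
        refine stepL i hi ?_ hyi
        have h4 : x i ≤ ∑ j ∈ L, x j := single_le_sum (fun j hj => hL j hj) hi
        rw [hRe, sum_empty] at k1'
        have h5 := hL i hi
        exact abs_le.2 ⟨by linarith, by linarith⟩
      · obtain ⟨i, hi, hyi⟩ := choose1 R hRn y hyR sr h3 h3'
        refine stepR i hi ?_ hyi
        have h4 := hR i hi
        have h5 := abs_le.1 (hxR i hi)
        exact abs_le.2 ⟨by linarith, by linarith⟩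

variable {𝕜 : Type} [RCLike 𝕜]

/-- Steinitz lemma for real or complex numbers bounded by one whose sum is bounded by one. -/
lemma steinitz_one (v : ℕ → 𝕜) (B : Finset ℕ) (hv : ∀ i ∈ B, ‖v i‖ ≤ 1) (hs : ‖∑ i ∈ B, v i‖ ≤ 1) :
    ∃ σ : ℕ → ℕ, (∀ i j, i < B.card → j < B.card → σ i = σ j → i = j) ∧
      (∀ j < B.card, σ j ∈ B) ∧ ∀ j ≤ B.card, ‖∑ i ∈ range j, v (σ i)‖ ≤ 3 := by
  classical
  obtain ⟨L, hLB, hmax⟩ := exists_max_image B.powerset (fun L => ‖∑ i ∈ L, v i‖) ⟨∅, by simp⟩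
  rw [mem_powerset] at hLB
  set w := ∑ i ∈ L, v i with hw
  -- unit vector in the direction of w
  obtain ⟨u, hu, huw⟩ : ∃ u : 𝕜, ‖u‖ = 1 ∧ u * w = (‖w‖ : 𝕜) := by
    by_cases h : w = 0
    · exact ⟨1, by simp, by simp [h]⟩
    · have hn : (‖w‖ : 𝕜) ≠ 0 := by
        simpa using h
      refine ⟨(starRingEnd 𝕜) w / ‖w‖, ?_, ?_⟩
      · rw [norm_div, RCLike.norm_conj, RCLike.norm_ofReal, abs_of_nonneg (norm_nonneg w)]
        exact div_self (by simpa using h)
      · rw [div_mul_eq_mul_div, RCLike.conj_mul, div_eq_iff hn, sq]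
  set x : ℕ → ℝ := fun i => RCLike.re (u * v i) with hx
  set y : ℕ → ℝ := fun i => RCLike.im (u * v i) with hy
  have hxn : ∀ i ∈ B, |x i| ≤ 1 := fun i hi =>
    (RCLike.abs_re_le_norm _).trans (by rw [norm_mul, hu, one_mul]; exact hv i hi)
  have hyn : ∀ i ∈ B, |y i| ≤ 1 := fun i hi =>
    (RCLike.abs_im_le_norm _).trans (by rw [norm_mul, hu, one_mul]; exact hv i hi)
  have hsumx : ∀ s : Finset ℕ, ∑ i ∈ s, x i = RCLike.re (u * ∑ i ∈ s, v i) := by
    intro s; rw [mul_sum, map_sum]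
  have hsumy : ∀ s : Finset ℕ, ∑ i ∈ s, y i = RCLike.im (u * ∑ i ∈ s, v i) := by
    intro s; rw [mul_sum, map_sum]
  have hnorm : ∀ z : 𝕜, ‖u * z‖ = ‖z‖ := fun z => by rw [norm_mul, hu, one_mul]
  -- sign conditions
  have hL : ∀ i ∈ L, 0 ≤ x i := by
    intro i hi
    by_contra hneg
    push Not at hneg
    have h1 := hmax (L.erase i) (mem_powerset.2 ((erase_subset _ _).trans hLB))
    have h2 : ∑ j ∈ L.erase i, v j = w - v i := by
      rw [hw, ← add_sum_erase L v hi]; ring
    rw [h2, ← hnorm, ← hnorm w, mul_sub, huw] at h1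
    have h3 : RCLike.re ((‖w‖ : 𝕜) - u * v i) ≤ ‖(‖w‖ : 𝕜) - u * v i‖ := RCLike.re_le_norm _
    rw [map_sub, RCLike.ofReal_re] at h3
    rw [RCLike.norm_ofReal, abs_of_nonneg (norm_nonneg w)] at h1
    simp only [hx] at hneg
    linarith
  have hR : ∀ i ∈ B \ L, x i ≤ 0 := by
    intro i hi
    rw [mem_sdiff] at hi
    by_contra hneg
    push Not at hneg
    have h1 := hmax (insert i L) (mem_powerset.2 (insert_subset hi.1 hLB))
    rw [sum_insert hi.2, ← hw, ← hnorm, ← hnorm w, mul_add, huw] at h1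
    have h3 : RCLike.re (u * v i + (‖w‖ : 𝕜)) ≤ ‖u * v i + (‖w‖ : 𝕜)‖ := RCLike.re_le_norm _
    rw [map_add, RCLike.ofReal_re] at h3
    rw [RCLike.norm_ofReal, abs_of_nonneg (norm_nonneg w)] at h1
    simp only [hx] at hneg
    linarith
  have hunion : L ∪ (B \ L) = B := union_sdiff_of_subset hLB
  have hsumB : ∀ f : ℕ → ℝ, ∑ i ∈ L, f i + ∑ i ∈ B \ L, f i = ∑ i ∈ B, f i := by
    intro f
    rw [← sum_union disjoint_sdiff, hunion]
  have hyL : ∑ i ∈ L, y i = 0 := by
    rw [hsumy, ← hw, huw]; simp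
  obtain ⟨σ, s1, s2, s3⟩ := order2 x y B.card L (B \ L) 0 0 0 disjoint_sdiff
    (by rw [← card_union_of_disjoint disjoint_sdiff, hunion]) hL hR
    (by rw [hunion]; exact hxn) (by rw [hunion]; exact hyn) (by simp)
    (by
      rw [hsumB, zero_add, hsumx]
      exact (RCLike.abs_re_le_norm _).trans (by rw [hnorm]; exact hs))
    (by simp) (by rw [hyL]; simp) (by simp)
    (by
      have : ∑ i ∈ B \ L, y i = ∑ i ∈ B, y i := by rw [← hsumB, hyL, zero_add]
      rw [this, zero_add, hsumy]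
      exact (RCLike.abs_im_le_norm _).trans (by rw [hnorm]; exact hs))
  rw [hunion] at s2
  refine ⟨σ, s1, s2, fun j hj => ?_⟩
  obtain ⟨t1, t2⟩ := s3 j hj
  rw [zero_add] at t1
  rw [zero_add, zero_add] at t2
  rw [← hnorm, mul_sum]
  have h5 : RCLike.re (∑ i ∈ range j, u * v (σ i)) = ∑ i ∈ range j, x (σ i) := by
    rw [map_sum]
  have h6 : RCLike.im (∑ i ∈ range j, u * v (σ i)) = ∑ i ∈ range j, y (σ i) := by
    rw [map_sum]
  have h7 := norm_le_re_im (∑ i ∈ range j, u * v (σ i))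
  rw [h5, h6] at h7
  linarith

/-- Steinitz lemma, scaled. -/
lemma steinitz (v : ℕ → 𝕜) (B : Finset ℕ) (M : ℝ) (hM : 0 ≤ M) (hv : ∀ i ∈ B, ‖v i‖ ≤ M)
    (hs : ‖∑ i ∈ B, v i‖ ≤ M) :
    ∃ σ : ℕ → ℕ, (∀ i j, i < B.card → j < B.card → σ i = σ j → i = j) ∧
      (∀ j < B.card, σ j ∈ B) ∧ ∀ j ≤ B.card, ‖∑ i ∈ range j, v (σ i)‖ ≤ 3 * M := by
  rcases hM.eq_or_lt with h0 | h0
  · have h1 : ∀ i ∈ B, ‖(0:𝕜)‖ ≤ 1 := by simp
    obtain ⟨σ, s1, s2, -⟩ := steinitz_one (fun _ => (0:𝕜)) B h1 (by simp)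
    refine ⟨σ, s1, s2, fun j hj => ?_⟩
    have : ∑ i ∈ range j, v (σ i) = 0 := by
      apply sum_eq_zero
      intro i hi
      rw [mem_range] at hi
      have := hv (σ i) (s2 i (by omega))
      rw [← h0] at this
      exact norm_le_zero_iff.1 this
    rw [this, ← h0]; simp
  · have hM' : (M : 𝕜) ≠ 0 := by
      simpa using h0.ne'
    obtain ⟨σ, s1, s2, s3⟩ := steinitz_one (fun i => (M : 𝕜)⁻¹ * v i) B
      (by
        intro i hi
        rw [norm_mul, norm_inv, RCLike.norm_ofReal, abs_of_pos h0, inv_mul_le_iff₀ h0, mul_one]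
        exact hv i hi)
      (by
        rw [← mul_sum, norm_mul, norm_inv, RCLike.norm_ofReal, abs_of_pos h0, inv_mul_le_iff₀ h0,
          mul_one]
        exact hs)
    refine ⟨σ, s1, s2, fun j hj => ?_⟩
    have := s3 j hj
    rw [← mul_sum, norm_mul, norm_inv, RCLike.norm_ofReal, abs_of_pos h0, inv_mul_le_iff₀ h0] at this
    linarith

end Pool.Agent.H769R2
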